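import Mathlib

set_option autoImplicit false

namespace Pool.Agent.Helper58.Quad

open Finset

section Lagrange

variable {ι : Type*} [DecidableEq ι] {K : Type*} [Field K]

/-- the bracket of two points of the projective line -/
def brk (a b : ι → K) (i j : ι) : K := a i * b j - a j * b i

omit [DecidableEq ι] in
theorem brk_self (a b : ι → K) (i : ι) : brk a b i i = 0 := by rw [brk]; ring

theorem lagrange_zero (a b : ι → K) (C : Multiset (K × K)) :
    ∀ (Q : Finset ι), (∀ i ∈ Q, ∀ j ∈ Q, i ≠ j → brk a b i j ≠ 0) → Multiset.card C + 2 = Q.card →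
    ∑ i ∈ Q, (C.map (fun c => c.1 * b i - a i * c.2)).prod *
      ∏ j ∈ Q.erase i, (brk a b i j)⁻¹ = 0 := by
  induction C using Multiset.induction_on with
  | empty =>
    intro Q hQ hc
    obtain ⟨p, q, hpq, rfl⟩ := Finset.card_eq_two.1 (by simpa using hc.symm)
    rw [Finset.sum_pair hpq]
    have h1 : ({p, q} : Finset ι).erase p = {q} := by
      rw [Finset.erase_insert (by simpa using hpq)]
    have h2 : ({p, q} : Finset ι).erase q = {p} := by
      rw [Finset.pair_comm, Finset.erase_insert (by simpa using hpq.symm)]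
    rw [h1, h2, Multiset.map_zero, Multiset.prod_zero, Multiset.map_zero, Multiset.prod_zero,
      Finset.prod_singleton, Finset.prod_singleton]
    have h3 : brk a b p q ≠ 0 := hQ p (by simp) q (by simp) hpq
    have h4 : brk a b q p = - brk a b p q := by simp only [brk]; ring
    rw [h4, inv_neg]
    ring
  | cons c C ih =>
    intro Q hQ hc
    rw [Multiset.card_cons] at hc
    obtain ⟨p, hp, q, hq, hpq⟩ := Finset.one_lt_card.1 (show 1 < Q.card by omega)
    have h1 : ∀ z ∈ Q, ∑ i ∈ Q, (C.map (fun c => c.1 * b i - a i * c.2)).prod * brk a b i z *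
      ∏ j ∈ Q.erase i, (brk a b i j)⁻¹ = 0 := by
      intro z hz
      rw [← Finset.add_sum_erase Q _ hz, brk_self, mul_zero, zero_mul, zero_add]
      rw [← ih (Q.erase z) (fun i hi j hj => hQ i (Finset.mem_of_mem_erase hi) j
        (Finset.mem_of_mem_erase hj)) (by rw [Finset.card_erase_of_mem hz]; omega)]
      apply Finset.sum_congr rfl
      intro i hi
      rw [Finset.mem_erase] at hi
      have h2 : Q.erase i = insert z ((Q.erase z).erase i) := by
        ext j
        simp only [Finset.mem_insert, Finset.mem_erase]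
        constructor
        · rintro ⟨h, h'⟩
          by_cases hj : j = z
          · exact Or.inl hj
          · exact Or.inr ⟨h, hj, h'⟩
        · rintro (rfl | ⟨h, -, h'⟩)
          · exact ⟨fun h => hi.1 h.symm, hz⟩
          · exact ⟨h, h'⟩
      have h3 : brk a b i z ≠ 0 := hQ i hi.2 z hz hi.1
      rw [h2, Finset.prod_insert (by simp)]
      rw [mul_assoc]
      congr 1
      rw [← mul_assoc, mul_inv_cancel₀ h3, one_mul]
    have h2 : ∀ i, (c.1 * b i - a i * c.2) * brk a b p q =
        (c.1 * b p - a p * c.2) * brk a b i q - (c.1 * b q - a q * c.2) * brk a b i p := by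
      intro i
      simp only [brk]
      ring
    have h3 : brk a b p q ≠ 0 := hQ p hp q hq hpq
    have h4 : (∑ i ∈ Q, ((c ::ₘ C).map (fun c => c.1 * b i - a i * c.2)).prod *
      ∏ j ∈ Q.erase i, (brk a b i j)⁻¹) * brk a b p q = 0 := by
      rw [Finset.sum_mul]
      have h5 : ∀ i ∈ Q, ((c ::ₘ C).map (fun c => c.1 * b i - a i * c.2)).prod *
          (∏ j ∈ Q.erase i, (brk a b i j)⁻¹) * brk a b p q =
          (c.1 * b p - a p * c.2) * ((C.map (fun c => c.1 * b i - a i * c.2)).prod *
            brk a b i q * ∏ j ∈ Q.erase i, (brk a b i j)⁻¹) -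
          (c.1 * b q - a q * c.2) * ((C.map (fun c => c.1 * b i - a i * c.2)).prod *
            brk a b i p * ∏ j ∈ Q.erase i, (brk a b i j)⁻¹) := by
        intro i _
        rw [Multiset.map_cons, Multiset.prod_cons]
        linear_combination ((C.map (fun c => c.1 * b i - a i * c.2)).prod *
          (∏ j ∈ Q.erase i, (brk a b i j)⁻¹)) * h2 i
      rw [Finset.sum_congr rfl h5, Finset.sum_sub_distrib, ← Finset.mul_sum, ← Finset.mul_sum,
        h1 q hq, h1 p hp]
      ring
    exact (mul_eq_zero.1 h4).resolve_right h3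

end Lagrange

section Kernel

variable {ι : Type*} [DecidableEq ι] [Fintype ι] {K : Type*} [Field K] {β : Type*} [DecidableEq β]

/-- balanced sets: in every block of size `2k+1` the set has `k` elements -/
def Bal (B : ι → β) (V : Finset ι) : Prop :=
  ∀ i, 2 * (V.filter (fun j => B j = B i)).card + 1 = (univ.filter (fun j => B j = B i)).card

open Classical in
/-- the weights of the functional attached to a block structure -/
noncomputable def FF (B : ι → β) (a b : ι → K) (V : Finset ι) : K :=
  if Bal B V then ∏ i ∈ V, ∏ j ∈ univ.filter (fun j => j ∉ V ∧ B j = B i), (brk a b i j)⁻¹ else 0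

theorem FF_kernel (B : ι → β) (a b : ι → K) (hab : ∀ i j, i ≠ j → brk a b i j ≠ 0)
    (W : Finset ι) (x : K × K) :
    ∑ i ∈ univ.filter (fun i => i ∉ W), (x.1 * b i - a i * x.2) * FF B a b (insert i W) = 0 := by
  classical
  by_cases h : ∃ i₀, i₀ ∉ W ∧ Bal B (insert i₀ W)
  swap
  · apply Finset.sum_eq_zero
    intro i hi
    have hiW := (Finset.mem_filter.1 hi).2
    rw [FF, if_neg (fun h' => h ⟨i, hiW, h'⟩), mul_zero]
  obtain ⟨i₀, hi₀, hbal⟩ := h
  set Q := univ.filter (fun j => j ∉ W ∧ B j = B i₀) with hQ
  set Wc := W.filter (fun j => B j = B i₀) with hWc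
  have hcard : Wc.card + 1 + 2 = Q.card := by
    have h1 := hbal i₀
    have h2 : (insert i₀ W).filter (fun j => B j = B i₀) = insert i₀ Wc := by
      rw [Finset.filter_insert, if_pos rfl]
    have h3 : i₀ ∉ Wc := fun h => hi₀ (Finset.mem_filter.1 h).1
    rw [h2, Finset.card_insert_of_notMem h3] at h1
    have h4 : univ.filter (fun j => B j = B i₀) = Wc ∪ Q := by
      ext j
      simp only [hQ, hWc, Finset.mem_filter, Finset.mem_univ, true_and, Finset.mem_union]
      tauto
    have h5 : Disjoint Wc Q := by
      rw [Finset.disjoint_left]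
      intro j hj hj'
      exact (Finset.mem_filter.1 hj').2.1 (Finset.mem_filter.1 hj).1
    rw [h4, Finset.card_union_of_disjoint h5] at h1
    omega
  have hcardeq : ∀ i ∉ W, B i = B i₀ → ∀ i', ((insert i W).filter (fun j => B j = B i')).card =
      ((insert i₀ W).filter (fun j => B j = B i')).card := by
    intro i hi hB i'
    rw [Finset.filter_insert, Finset.filter_insert, hB]
    split_ifs with h
    · rw [Finset.card_insert_of_notMem, Finset.card_insert_of_notMem]
      · exact fun h => hi₀ (Finset.mem_filter.1 h).1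
      · exact fun h => hi (Finset.mem_filter.1 h).1
    · rfl
  have hsub : ∑ i ∈ univ.filter (fun i => i ∉ W), (x.1 * b i - a i * x.2) *
      FF B a b (insert i W) = ∑ i ∈ Q, (x.1 * b i - a i * x.2) * FF B a b (insert i W) := by
    symm
    apply Finset.sum_subset
    · intro i hi
      exact Finset.mem_filter.2 ⟨Finset.mem_univ _, (Finset.mem_filter.1 hi).2.1⟩
    · intro i hi hi'
      have hiW := (Finset.mem_filter.1 hi).2
      have hB : B i ≠ B i₀ := fun h => hi' (Finset.mem_filter.2 ⟨Finset.mem_univ _, hiW, h⟩)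
      rw [FF, if_neg, mul_zero]
      intro h'
      have h1 := h' i₀
      have h2 := hbal i₀
      rw [Finset.filter_insert, if_neg hB] at h1
      rw [Finset.filter_insert, if_pos rfl, Finset.card_insert_of_notMem
        (fun h => hi₀ (Finset.mem_filter.1 h).1)] at h2
      omega
  rw [hsub]
  set G := ∏ v ∈ W, ∏ j ∈ univ.filter (fun j => j ∉ W ∧ B j = B v), (brk a b v j)⁻¹ with hG
  have hFF : ∀ i ∈ Q, FF B a b (insert i W) =
      G * ((∏ v ∈ Wc, brk a b v i) * ∏ j ∈ Q.erase i, (brk a b i j)⁻¹) := by
    intro i hi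
    have hiW := (Finset.mem_filter.1 hi).2.1
    have hiB := (Finset.mem_filter.1 hi).2.2
    have hb : Bal B (insert i W) := by
      intro i'
      rw [hcardeq i hiW hiB i']
      exact hbal i'
    rw [FF, if_pos hb, Finset.prod_insert hiW]
    have h1 : univ.filter (fun j => j ∉ insert i W ∧ B j = B i) = Q.erase i := by
      ext j
      simp only [hQ, Finset.mem_filter, Finset.mem_univ, true_and, Finset.mem_erase,
        Finset.mem_insert, not_or, hiB]
      tauto
    rw [h1]
    have h2 : ∏ v ∈ W, ∏ j ∈ univ.filter (fun j => j ∉ insert i W ∧ B j = B v), (brk a b v j)⁻¹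
        = G * ∏ v ∈ Wc, brk a b v i := by
      rw [hG, hWc, Finset.prod_filter, ← Finset.prod_mul_distrib]
      apply Finset.prod_congr rfl
      intro v hv
      have hvi : v ≠ i := fun h => hiW (h ▸ hv)
      split_ifs with hvB
      · have h3 : univ.filter (fun j => j ∉ W ∧ B j = B v) =
            insert i (univ.filter (fun j => j ∉ insert i W ∧ B j = B v)) := by
          ext j
          simp only [Finset.mem_filter, Finset.mem_univ, true_and, Finset.mem_insert, not_or]
          constructor
          · rintro ⟨h, h'⟩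
            by_cases hj : j = i
            · exact Or.inl hj
            · exact Or.inr ⟨⟨hj, h⟩, h'⟩
          · rintro (rfl | ⟨⟨-, h⟩, h'⟩)
            · exact ⟨hiW, by rw [hiB, hvB]⟩
            · exact ⟨h, h'⟩
        rw [h3, Finset.prod_insert (by simp), mul_comm, ← mul_assoc,
          mul_inv_cancel₀ (hab v i hvi), one_mul]
      · rw [mul_one]
        apply Finset.prod_congr _ (fun _ _ => rfl)
        ext j
        simp only [Finset.mem_filter, Finset.mem_univ, true_and, Finset.mem_insert, not_or]
        constructor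
        · rintro ⟨⟨-, h⟩, h'⟩
          exact ⟨h, h'⟩
        · rintro ⟨h, h'⟩
          refine ⟨⟨?_, h⟩, h'⟩
          rintro rfl
          exact hvB (by rw [← h', hiB])
    rw [h2]
    ring
  have hlag := lagrange_zero a b (x ::ₘ (Wc.val.map fun v => (a v, b v))) Q
    (fun i _ j _ hij => hab i j hij) (by
      rw [Multiset.card_cons, Multiset.card_map]
      exact hcard)
  have hfin : ∑ i ∈ Q, (x.1 * b i - a i * x.2) * FF B a b (insert i W) =
      G * ∑ i ∈ Q, ((x ::ₘ (Wc.val.map fun v => (a v, b v))).map
        (fun c => c.1 * b i - a i * c.2)).prod * ∏ j ∈ Q.erase i, (brk a b i j)⁻¹ := by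
    rw [Finset.mul_sum]
    apply Finset.sum_congr rfl
    intro i hi
    rw [hFF i hi, Multiset.map_cons, Multiset.prod_cons, Multiset.map_map]
    have h5 : (Wc.val.map ((fun c : K × K => c.1 * b i - a i * c.2) ∘ fun v => (a v, b v))).prod
        = ∏ v ∈ Wc, brk a b v i := rfl
    rw [h5]
    ring
  rw [hfin, hlag, mul_zero]

end Kernel

end Pool.Agent.Helper58.Quad
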