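import Mathlib
import Pool.Agent.Helper58.Quad.Kernel

set_option autoImplicit false

namespace Pool.Agent.Helper58.Quad

open Finset

variable {N : ℕ}

/-- signs -/
def sg (V : Finset (Fin N)) (i : Fin N) : ℤ := if i ∈ V then -1 else 1

/-- partial signed sums in a block -/
def PS (B : Fin N → ℤ) (V : Finset (Fin N)) (b : ℤ) (r : ℕ) : ℤ :=
  ∑ i, if B i = b ∧ (i : ℕ) < r then sg V i else 0

theorem PS_zero (B : Fin N → ℤ) (V : Finset (Fin N)) (b : ℤ) : PS B V b 0 = 0 := by
  simp [PS]

theorem PS_succ (B : Fin N → ℤ) (V : Finset (Fin N)) (b : ℤ) (i : Fin N) :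
    PS B V b (i + 1) = PS B V b i + if B i = b then sg V i else 0 := by
  rw [PS, PS, ← sub_eq_iff_eq_add', ← Finset.sum_sub_distrib, Finset.sum_eq_single i]
  · by_cases h : B i = b
    · simp [h]
    · simp [h]
  · intro j _ hj
    have h1 : (j : ℕ) < i + 1 ↔ (j : ℕ) < i := by
      have : (j : ℕ) ≠ i := fun h => hj (Fin.ext h)
      omega
    simp only [h1, sub_self]
  · intro h
    exact absurd (Finset.mem_univ _) h

theorem bal_iff (B : Fin N → ℤ) (V : Finset (Fin N)) :
    Bal B V ↔ ∀ i, PS B V (B i) N = 1 := by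
  apply forall_congr'
  intro i
  have h1 : PS B V (B i) N = (univ.filter (fun j => B j = B i)).card -
      2 * ((V.filter (fun j => B j = B i)).card : ℤ) := by
    rw [PS, Finset.card_eq_sum_ones, Finset.card_eq_sum_ones, Finset.sum_filter]
    have h2 : V.filter (fun j => B j = B i) = univ.filter (fun j => j ∈ V ∧ B j = B i) := by
      ext j; simp
    rw [h2, Finset.sum_filter]
    push_cast
    rw [Finset.mul_sum, ← Finset.sum_sub_distrib]
    apply Finset.sum_congr rfl
    intro j _
    have h3 : (j : ℕ) < N := j.2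
    by_cases hB : B j = B i <;> by_cases hV : j ∈ V <;> simp [hB, hV, sg]
  rw [h1]
  omega

/-- distance of positions -/
def dd (i j : Fin N) : ℕ := ((i : ℕ) - (j : ℕ)) + ((j : ℕ) - (i : ℕ))

theorem dd_comm (i j : Fin N) : dd i j = dd j i := by rw [dd, dd, add_comm]

/-- total length of the cut -/
def cut (B : Fin N → ℤ) (V : Finset (Fin N)) : ℕ :=
  ∑ i ∈ V, ∑ j ∈ univ.filter (fun j => j ∉ V ∧ B j = B i), dd i j

theorem four_cut (B : Fin N → ℤ) (V : Finset (Fin N)) :
    4 * (cut B V : ℤ) = (∑ i, ∑ j, if B i = B j then (dd i j : ℤ) else 0) -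
      ∑ i, ∑ j, (if B i = B j then (dd i j : ℤ) else 0) * (sg V i * sg V j) := by
  have h1 : (cut B V : ℤ) = ∑ i, ∑ j, if (i ∈ V ∧ j ∉ V ∧ B i = B j) then (dd i j : ℤ) else 0 := by
    rw [cut]
    push_cast
    rw [← Finset.sum_filter_add_sum_filter_not univ (fun i => i ∈ V)
      (fun i => ∑ j, if (i ∈ V ∧ j ∉ V ∧ B i = B j) then (dd i j : ℤ) else 0)]
    have h2 : ∑ i ∈ univ.filter (fun i => ¬ i ∈ V),
        (∑ j, if (i ∈ V ∧ j ∉ V ∧ B i = B j) then (dd i j : ℤ) else 0) = 0 := by
      apply Finset.sum_eq_zero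
      intro i hi
      apply Finset.sum_eq_zero
      intro j _
      rw [if_neg (fun h => (Finset.mem_filter.1 hi).2 h.1)]
    rw [h2, add_zero]
    have h3 : univ.filter (fun i => i ∈ V) = V := by ext; simp
    rw [h3]
    apply Finset.sum_congr rfl
    intro i hi
    rw [Finset.sum_filter]
    apply Finset.sum_congr rfl
    intro j _
    have h4 : (j ∉ V ∧ B j = B i) ↔ (i ∈ V ∧ j ∉ V ∧ B i = B j) := by
      constructor
      · rintro ⟨h, h'⟩; exact ⟨hi, h, h'.symm⟩
      · rintro ⟨-, h, h'⟩; exact ⟨h, h'.symm⟩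
    by_cases h5 : j ∉ V ∧ B j = B i
    · rw [if_pos h5, if_pos (h4.1 h5)]
    · rw [if_neg h5, if_neg (fun h => h5 (h4.2 h))]
  have hsymm : ∑ i, ∑ j, (if B i = B j then (dd i j : ℤ) else 0) * (sg V j - sg V i) = 0 := by
    have e1 : ∑ i, ∑ j, (if B i = B j then (dd i j : ℤ) else 0) * sg V j =
        ∑ i, ∑ j, (if B i = B j then (dd i j : ℤ) else 0) * sg V i := by
      rw [Finset.sum_comm]
      apply Finset.sum_congr rfl
      intro i _
      apply Finset.sum_congr rfl
      intro j _
      rw [dd_comm]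
      simp only [eq_comm]
    simp only [mul_sub, Finset.sum_sub_distrib]
    rw [e1, sub_self]
  have h6 : 4 * (cut B V : ℤ) = 4 * (cut B V : ℤ) -
    ∑ i, ∑ j, (if B i = B j then (dd i j : ℤ) else 0) * (sg V j - sg V i) := by
    rw [hsymm, sub_zero]
  rw [h6, h1, Finset.mul_sum, ← Finset.sum_sub_distrib, ← Finset.sum_sub_distrib]
  apply Finset.sum_congr rfl
  intro i _
  rw [Finset.mul_sum, ← Finset.sum_sub_distrib, ← Finset.sum_sub_distrib]
  apply Finset.sum_congr rfl
  intro j _
  by_cases hB : B i = B j <;> by_cases hi : i ∈ V <;> by_cases hj : j ∈ V <;>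
    simp [hB, hi, hj, sg] <;> ring

theorem quad_id (B : Fin N → ℤ) (V : Finset (Fin N)) (hV : Bal B V) :
    ∑ i, ∑ j, (if B i = B j then (dd i j : ℤ) else 0) * (sg V i * sg V j) =
      2 * ∑ b ∈ univ.image B, ∑ r ∈ range (N + 1), PS B V b r * (1 - PS B V b r) := by
  have h1 : ∀ b ∈ univ.image B, ∀ r ∈ range (N + 1), PS B V b r * (1 - PS B V b r) =
      ∑ i, ∑ j, (if B i = b ∧ (i : ℕ) < r then sg V i else 0) *
        (if B j = b ∧ ¬ (j : ℕ) < r then sg V j else 0) := by
    intro b hb r _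
    obtain ⟨i₀, -, rfl⟩ := Finset.mem_image.1 hb
    have h2 : (1 - PS B V (B i₀) r) =
        ∑ j, (if B j = B i₀ ∧ ¬ (j : ℕ) < r then sg V j else 0) := by
      rw [← (bal_iff B V).1 hV i₀, PS, PS, ← Finset.sum_sub_distrib]
      apply Finset.sum_congr rfl
      intro j _
      have h3 : (j : ℕ) < N := j.2
      by_cases hB : B j = B i₀ <;> by_cases hj : (j : ℕ) < r <;> simp [hB, hj]
    rw [h2, PS, Finset.sum_mul_sum]
  have h4 : ∑ b ∈ univ.image B, ∑ r ∈ range (N + 1), PS B V b r * (1 - PS B V b r) =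
      ∑ i, ∑ j, (if B i = B j then (((j : ℕ) - (i : ℕ) : ℕ) : ℤ) else 0) * (sg V i * sg V j) := by
    rw [Finset.sum_congr rfl (fun b hb => Finset.sum_congr rfl (fun r hr => h1 b hb r hr))]
    have h5 : ∀ b, ∑ r ∈ range (N + 1), ∑ i, ∑ j,
        (if B i = b ∧ (i : ℕ) < r then sg V i else 0) *
        (if B j = b ∧ ¬ (j : ℕ) < r then sg V j else 0) =
        ∑ i, ∑ j, ∑ r ∈ range (N + 1), (if B i = b ∧ (i : ℕ) < r then sg V i else 0) *
        (if B j = b ∧ ¬ (j : ℕ) < r then sg V j else 0) := by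
      intro b
      rw [Finset.sum_comm]
      apply Finset.sum_congr rfl
      intro i _
      rw [Finset.sum_comm]
    rw [Finset.sum_congr rfl (fun b _ => h5 b), Finset.sum_comm]
    apply Finset.sum_congr rfl
    intro i _
    rw [Finset.sum_comm]
    apply Finset.sum_congr rfl
    intro j _
    rw [Finset.sum_eq_single (B i)]
    · have h6 : ∀ r ∈ range (N + 1), (if B i = B i ∧ (i : ℕ) < r then sg V i else 0) *
        (if B j = B i ∧ ¬ (j : ℕ) < r then sg V j else 0) =
          (if B i = B j then sg V i * sg V j else 0) *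
            (if (i : ℕ) < r ∧ r ≤ (j : ℕ) then 1 else 0) := by
        intro r _
        by_cases hB : B i = B j <;> by_cases hi : (i : ℕ) < r <;> by_cases hj : (j : ℕ) < r <;>
          simp [hB, hi, hj, eq_comm]
      rw [Finset.sum_congr rfl h6, ← Finset.mul_sum, ← Finset.sum_filter, Finset.sum_const]
      have h7 : ((range (N + 1)).filter (fun r => (i : ℕ) < r ∧ r ≤ (j : ℕ))) =
          Finset.Ioc (i : ℕ) (j : ℕ) := by
        ext r
        simp only [Finset.mem_filter, Finset.mem_range, Finset.mem_Ioc]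
        have := j.2
        omega
      rw [h7, Nat.card_Ioc]
      by_cases hB : B i = B j
      · simp [hB]; ring
      · simp [hB]
    · intro b _ hb
      apply Finset.sum_eq_zero
      intro r _
      rw [if_neg (fun h => hb h.1.symm), zero_mul]
    · intro h
      exact absurd (Finset.mem_image_of_mem _ (Finset.mem_univ _)) h
  rw [h4, two_mul]
  have h8 : ∑ i, ∑ j, (if B i = B j then (((j : ℕ) - (i : ℕ) : ℕ) : ℤ) else 0) *
      (sg V i * sg V j) = ∑ i, ∑ j, (if B i = B j then (((i : ℕ) - (j : ℕ) : ℕ) : ℤ) else 0) *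
      (sg V i * sg V j) := by
    rw [Finset.sum_comm]
    apply Finset.sum_congr rfl
    intro i _
    apply Finset.sum_congr rfl
    intro j _
    rw [mul_comm (sg V i)]
    simp only [eq_comm]
  nth_rewrite 1 [h8]
  rw [← Finset.sum_add_distrib]
  apply Finset.sum_congr rfl
  intro i _
  rw [← Finset.sum_add_distrib]
  apply Finset.sum_congr rfl
  intro j _
  rw [← add_mul]
  congr 1
  by_cases hB : B i = B j
  · simp [hB, dd]
  · simp [hB]

theorem cut_lt (B : Fin N → ℤ) (U V : Finset (Fin N)) (hU : Bal B U) (hV : Bal B V)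
    (hU' : ∀ i, ∀ r ≤ N, PS B U (B i) r = 0 ∨ PS B U (B i) r = 1) (hne : V ≠ U) :
    cut B U < cut B V := by
  have h1 := four_cut B U
  have h2 := four_cut B V
  rw [quad_id B U hU] at h1
  rw [quad_id B V hV] at h2
  have h3 : ∑ b ∈ univ.image B, ∑ r ∈ range (N + 1), PS B U b r * (1 - PS B U b r) = 0 := by
    apply Finset.sum_eq_zero
    intro b hb
    obtain ⟨i₀, -, rfl⟩ := Finset.mem_image.1 hb
    apply Finset.sum_eq_zero
    intro r hr
    rcases hU' i₀ r (by rw [Finset.mem_range] at hr; omega) with h | h <;> rw [h] <;> ring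
  rw [h3] at h1
  have hterm : ∀ x : ℤ, 0 ≤ x * (x - 1) := by
    intro x
    rcases le_or_gt x 0 with h | h
    · nlinarith
    · nlinarith
  have h4 : 0 < ∑ b ∈ univ.image B, ∑ r ∈ range (N + 1), PS B V b r * (PS B V b r - 1) := by
    by_contra hcon
    have h5 : ∀ b ∈ univ.image B, 0 ≤ ∑ r ∈ range (N + 1), PS B V b r * (PS B V b r - 1) :=
      fun b _ => Finset.sum_nonneg (fun r _ => hterm _)
    have h6 : ∑ b ∈ univ.image B, ∑ r ∈ range (N + 1), PS B V b r * (PS B V b r - 1) = 0 :=
      le_antisymm (not_lt.1 hcon) (Finset.sum_nonneg h5)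
    rw [Finset.sum_eq_zero_iff_of_nonneg h5] at h6
    have h7 : ∀ i, ∀ r ≤ N, PS B V (B i) r = 0 ∨ PS B V (B i) r = 1 := by
      intro i r hr
      have h8 := h6 (B i) (Finset.mem_image_of_mem _ (Finset.mem_univ _))
      rw [Finset.sum_eq_zero_iff_of_nonneg (fun r _ => hterm _)] at h8
      have h9 := h8 r (by rw [Finset.mem_range]; omega)
      rcases mul_eq_zero.1 h9 with h | h
      · exact Or.inl h
      · exact Or.inr (by omega)
    apply hne
    have key : ∀ r ≤ N, ∀ i, PS B V (B i) r = PS B U (B i) r := by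
      intro r
      induction r with
      | zero => intro _ i; rw [PS_zero, PS_zero]
      | succ r ih =>
        intro hr i
        have ih' := ih (by omega)
        have hs1 := PS_succ B V (B i) ⟨r, hr⟩
        have hs2 := PS_succ B U (B i) ⟨r, hr⟩
        simp only at hs1 hs2
        rw [hs1, hs2, ih']
        by_cases hB : B ⟨r, hr⟩ = B i
        · rw [if_pos hB, if_pos hB] at *
          have e1 := h7 i (r + 1) hr
          have e2 := hU' i (r + 1) hr
          rw [hs1, ih'] at e1
          rw [hs2] at e2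
          have e3 := hU' i r (by omega)
          by_cases hi : (⟨r, hr⟩ : Fin N) ∈ V <;> by_cases hj : (⟨r, hr⟩ : Fin N) ∈ U <;>
            simp only [sg, hi, hj, if_true, if_false] at e1 e2 ⊢ <;> omega
        · rw [if_neg hB, if_neg hB]
    ext i
    have hs1 := PS_succ B V (B i) i
    have hs2 := PS_succ B U (B i) i
    rw [if_pos rfl] at hs1 hs2
    have k1 := key (i + 1) i.2 i
    have k2 := key i i.2.le i
    have e : sg V i = sg U i := by omega
    by_cases hi : i ∈ V <;> by_cases hj : i ∈ U <;> simp_all [sg]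
  have h10 : ∑ b ∈ univ.image B, ∑ r ∈ range (N + 1), PS B V b r * (1 - PS B V b r) =
      - ∑ b ∈ univ.image B, ∑ r ∈ range (N + 1), PS B V b r * (PS B V b r - 1) := by
    rw [← Finset.sum_neg_distrib]
    apply Finset.sum_congr rfl
    intro b _
    rw [← Finset.sum_neg_distrib]
    apply Finset.sum_congr rfl
    intro r _
    ring
  rw [h10] at h2
  have h11 : (cut B U : ℤ) < cut B V := by linarith
  exact_mod_cast h11

/-- height of a path -/
def hgt (U : Finset (Fin N)) (r : ℕ) : ℤ := r - 2 * ((U.filter (fun i : Fin N => (i : ℕ) < r)).card : ℤ)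

theorem hgt_zero (U : Finset (Fin N)) : hgt U 0 = 0 := by simp [hgt]

theorem hgt_succ (U : Finset (Fin N)) (i : Fin N) : hgt U (i + 1) = hgt U i + sg U i := by
  rw [hgt, hgt, sg]
  by_cases hi : i ∈ U
  · have h1 : U.filter (fun j : Fin N => (j : ℕ) < i + 1)
        = insert i (U.filter (fun j : Fin N => (j : ℕ) < i)) := by
      ext j
      simp only [Finset.mem_filter, Finset.mem_insert]
      constructor
      · rintro ⟨h, h'⟩
        rcases Nat.lt_succ_iff_lt_or_eq.1 h' with h' | h'
        · right; exact ⟨h, h'⟩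
        · left; exact Fin.ext h'
      · rintro (rfl | ⟨h, h'⟩)
        · exact ⟨hi, by simp⟩
        · exact ⟨h, by omega⟩
    rw [h1, Finset.card_insert_of_notMem (by simp), if_pos hi]
    push_cast
    ring
  · have h1 : U.filter (fun j : Fin N => (j : ℕ) < i + 1)
        = U.filter (fun j : Fin N => (j : ℕ) < i) := by
      ext j
      simp only [Finset.mem_filter]
      constructor
      · rintro ⟨h, h'⟩
        rcases Nat.lt_succ_iff_lt_or_eq.1 h' with h' | h'
        · exact ⟨h, h'⟩
        · exact absurd h (by rw [show j = i from Fin.ext h']; exact hi)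
      · rintro ⟨h, h'⟩
        exact ⟨h, by omega⟩
    rw [h1, if_neg hi]
    push_cast
    ring

/-- the level of a step -/
def blk (U : Finset (Fin N)) (i : Fin N) : ℤ := if i ∈ U then hgt U i else hgt U i + 1

theorem PS_blk (U : Finset (Fin N)) (b : ℤ) (hb : 1 ≤ b) (r : ℕ) (hr : r ≤ N) :
    PS (blk U) U b r = if b ≤ hgt U r then 1 else 0 := by
  induction r with
  | zero =>
    rw [PS_zero, hgt_zero, if_neg (by omega)]
  | succ r ih =>
    have hs1 := PS_succ (blk U) U b ⟨r, hr⟩
    have hs2 := hgt_succ U ⟨r, hr⟩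
    simp only at hs1 hs2
    rw [hs1, hs2, ih (by omega)]
    by_cases hi : (⟨r, hr⟩ : Fin N) ∈ U
    · simp only [blk, sg, hi, if_true]
      split_ifs <;> omega
    · simp only [blk, sg, hi, if_false]
      split_ifs <;> omega

theorem blk_facts (U : Finset (Fin N)) (H : ℤ) (h : ∀ r ≤ N, 0 ≤ hgt U r ∧ hgt U r ≤ H)
    (hN : hgt U N = H) :
    Bal (blk U) U ∧ ∀ i, ∀ r ≤ N, PS (blk U) U (blk U i) r = 0 ∨ PS (blk U) U (blk U i) r = 1 := by
  have h1 : ∀ i, 1 ≤ blk U i ∧ blk U i ≤ H := by
    intro i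
    have h2 := h i i.2.le
    have h3 := h (i + 1) i.2
    have h4 := hgt_succ U i
    by_cases hi : i ∈ U
    · simp only [sg, blk, hi, if_true] at *
      omega
    · simp only [sg, blk, hi, if_false] at *
      omega
  constructor
  · rw [bal_iff]
    intro i
    rw [PS_blk U _ (h1 i).1 N le_rfl, if_pos (by rw [hN]; exact (h1 i).2)]
  · intro i r hr
    rw [PS_blk U _ (h1 i).1 r hr]
    split_ifs
    · exact Or.inr rfl
    · exact Or.inl rfl

end Pool.Agent.Helper58.Quad
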