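import Mathlib

set_option autoImplicit false

namespace Pool.Agent.Helper58.Quad

open Module

/-- The exterior algebra on `n` generators. -/
abbrev EA (n : ℕ) := ExteriorAlgebra ℂ (Fin n → ℂ)

/-- The degree `s` part of the exterior algebra. -/
abbrev gr (n s : ℕ) : Submodule ℂ (ExteriorAlgebra ℂ (Fin n → ℂ)) :=
  LinearMap.range (ExteriorAlgebra.ι ℂ : (Fin n → ℂ) →ₗ[ℂ] ExteriorAlgebra ℂ (Fin n → ℂ)) ^ s

/-- The monomial basis. -/
noncomputable def bE (n : ℕ) : Basis (Finset (Fin n)) ℂ (EA n) :=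
  (Pi.basisFun ℂ (Fin n)).ExteriorAlgebra

/-- generators -/
noncomputable def eι {n : ℕ} (i : Fin n) : EA n := ExteriorAlgebra.ι ℂ (Pi.single i (1 : ℂ))

variable {n : ℕ}

theorem bE_mul_of_not_disjoint {U V : Finset (Fin n)} (h : ¬ Disjoint U V) :
    bE n U * bE n V = 0 :=
  ExteriorAlgebra.basis_mul_of_not_disjoint (Pi.basisFun ℂ (Fin n))
    (Set.powersetCard.ofCard (rfl : U.card = _)) (Set.powersetCard.ofCard (rfl : V.card = _)) h

theorem bE_mul_of_disjoint {U V : Finset (Fin n)} (h : Disjoint U V) :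
    ∃ ε : ℂ, ε ≠ 0 ∧ bE n U * bE n V = ε • bE n (U ∪ V) := by
  have h1 := ExteriorAlgebra.basis_mul_of_disjoint (Pi.basisFun ℂ (Fin n))
    (Set.powersetCard.ofCard (rfl : U.card = U.card))
    (Set.powersetCard.ofCard (rfl : V.card = V.card)) h
  have h2 : ((Set.powersetCard.disjUnion
      (s := Set.powersetCard.ofCard (rfl : U.card = U.card))
      (t := Set.powersetCard.ofCard (rfl : V.card = V.card)) h :
      Set.powersetCard (Fin n) _).val) = U ∪ V := by
    ext i
    simp [Set.powersetCard.disjUnion]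
  rw [h2] at h1
  rcases Int.units_eq_one_or (Set.powersetCard.permOfDisjoint
      (s := Set.powersetCard.ofCard (rfl : U.card = U.card))
      (t := Set.powersetCard.ofCard (rfl : V.card = V.card)) h).sign with h3 | h3
  · refine ⟨1, one_ne_zero, ?_⟩
    rw [h3] at h1
    simpa [bE] using h1
  · refine ⟨-1, by norm_num, ?_⟩
    rw [h3] at h1
    simpa [bE, Units.neg_smul] using h1

theorem bE_apply_emb {s : ℕ} (U : Finset (Fin n)) (hU : U.card = s) :
    bE n U = ExteriorAlgebra.ιMulti ℂ s (fun j => Pi.single (U.orderEmbOfFin hU j) (1 : ℂ)) := by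
  have := ExteriorAlgebra.basis_apply_ofCard (Pi.basisFun ℂ (Fin n)) hU
  rw [bE, this]
  unfold ExteriorAlgebra.ιMulti_family
  congr 1
  funext j
  simp only [Function.comp_apply, Pi.basisFun_apply, Set.powersetCard.ofFinEmbEquiv_symm_apply,
    Set.powersetCard.val_ofCard]

theorem bE_singleton (i : Fin n) : bE n {i} = eι i := by
  rw [bE_apply_emb {i} (Finset.card_singleton i), ExteriorAlgebra.ιMulti_apply]
  simp [eι]

theorem bE_empty : bE n ∅ = 1 := by
  rw [bE_apply_emb ∅ Finset.card_empty, ExteriorAlgebra.ιMulti_apply]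
  simp

theorem span_bE_card (s : ℕ) :
    Submodule.span ℂ (bE n '' {U | U.card = s}) = gr n s := by
  have h := exteriorPower.ιMulti_family_span_fixedDegree_of_span (n := s) ℂ
    (v := (Pi.basisFun ℂ (Fin n))) (Pi.basisFun ℂ (Fin n)).span_eq
  change _ = ExteriorAlgebra.exteriorPower ℂ s (Fin n → ℂ)
  rw [← h]
  congr 1
  ext x
  constructor
  · rintro ⟨U, hU, rfl⟩
    exact ⟨Set.powersetCard.ofCard hU, (ExteriorAlgebra.basis_apply_ofCard _ hU).symm⟩
  · rintro ⟨U, rfl⟩
    exact ⟨U.val, U.2, ExteriorAlgebra.basis_apply_powersetCard _ U⟩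

/-- Span of the monomials whose index set satisfies a predicate. -/
noncomputable def Sp (p : Finset (Fin n) → Prop) : Submodule ℂ (EA n) :=
  Submodule.span ℂ (bE n '' {U | p U})

theorem bE_mem_Sp {p : Finset (Fin n) → Prop} {U : Finset (Fin n)} (h : p U) : bE n U ∈ Sp p :=
  Submodule.subset_span ⟨U, h, rfl⟩

theorem Sp_mono {p q : Finset (Fin n) → Prop} (h : ∀ U, p U → q U) : Sp p ≤ Sp q :=
  Submodule.span_mono (Set.image_mono h)

theorem Sp_mul {p q r : Finset (Fin n) → Prop}
    (h : ∀ U V, p U → q V → Disjoint U V → r (U ∪ V)) {x y : EA n} (hx : x ∈ Sp p)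
    (hy : y ∈ Sp q) : x * y ∈ Sp r := by
  have h1 : x * y ∈ Sp p * Sp q := Submodule.mul_mem_mul hx hy
  refine (Submodule.mul_le.2 ?_ : Sp p * Sp q ≤ Sp r) h1
  intro a ha b hb
  induction ha using Submodule.span_induction with
  | mem a ha =>
    obtain ⟨U, hU, rfl⟩ := ha
    induction hb using Submodule.span_induction with
    | mem b hb =>
      obtain ⟨V, hV, rfl⟩ := hb
      by_cases hd : Disjoint U V
      · obtain ⟨ε, -, hε⟩ := bE_mul_of_disjoint hd
        rw [hε]
        exact Submodule.smul_mem _ _ (bE_mem_Sp (h U V hU hV hd))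
      · rw [bE_mul_of_not_disjoint hd]; exact Submodule.zero_mem _
    | zero => rw [mul_zero]; exact Submodule.zero_mem _
    | add b c _ _ hb hc => rw [mul_add]; exact Submodule.add_mem _ hb hc
    | smul t b _ hb => rw [mul_smul_comm]; exact Submodule.smul_mem _ _ hb
  | zero => rw [zero_mul]; exact Submodule.zero_mem _
  | add b c _ _ hb hc => rw [add_mul]; exact Submodule.add_mem _ hb hc
  | smul t b _ hb => rw [smul_mul_assoc]; exact Submodule.smul_mem _ _ hb

theorem gr_eq_Sp (s : ℕ) : gr n s = Sp (fun U => U.card = s) := (span_bE_card s).symm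

theorem repr_eq_zero_of_mem_Sp {p : Finset (Fin n) → Prop} {x : EA n} (hx : x ∈ Sp p)
    {U : Finset (Fin n)} (hU : ¬ p U) : (bE n).repr x U = 0 := by
  induction hx using Submodule.span_induction with
  | mem a ha =>
    obtain ⟨V, hV, rfl⟩ := ha
    rw [Basis.repr_self, Finsupp.single_apply, if_neg]
    rintro rfl
    exact hU hV
  | zero => simp
  | add b c _ _ hb hc => simp [hb, hc]
  | smul t b _ hb => simp [hb]

theorem eι_mul_eι_comm (i j : Fin n) : eι i * eι j = - (eι j * eι i) := by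
  have := ExteriorAlgebra.ι_add_mul_swap (R := ℂ) (Pi.single i (1 : ℂ) : Fin n → ℂ)
    (Pi.single j (1 : ℂ))
  exact eq_neg_of_add_eq_zero_left this

theorem ι_comm_even (x y w : Fin n → ℂ) :
    ExteriorAlgebra.ι ℂ w * (ExteriorAlgebra.ι ℂ x * ExteriorAlgebra.ι ℂ y) =
      (ExteriorAlgebra.ι ℂ x * ExteriorAlgebra.ι ℂ y) * ExteriorAlgebra.ι ℂ w := by
  have h1 : ExteriorAlgebra.ι ℂ w * ExteriorAlgebra.ι ℂ x
      = - (ExteriorAlgebra.ι ℂ x * ExteriorAlgebra.ι ℂ w) :=
    eq_neg_of_add_eq_zero_left (ExteriorAlgebra.ι_add_mul_swap w x)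
  have h2 : ExteriorAlgebra.ι ℂ w * ExteriorAlgebra.ι ℂ y
      = - (ExteriorAlgebra.ι ℂ y * ExteriorAlgebra.ι ℂ w) :=
    eq_neg_of_add_eq_zero_left (ExteriorAlgebra.ι_add_mul_swap w y)
  rw [← mul_assoc, h1, neg_mul, mul_assoc, h2, mul_neg, neg_neg, mul_assoc]

/-- Elements of degree two are central. -/
theorem gr_two_comm {f : EA n} (hf : f ∈ gr n 2) (x : EA n) : f * x = x * f := by
  have key : ∀ a b : Fin n → ℂ, ∀ x : EA n,
      (ExteriorAlgebra.ι ℂ a * ExteriorAlgebra.ι ℂ b) * x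
        = x * (ExteriorAlgebra.ι ℂ a * ExteriorAlgebra.ι ℂ b) := by
    intro a b x
    induction x using ExteriorAlgebra.induction with
    | algebraMap r => exact (Algebra.commutes r _).symm
    | ι w => exact (ι_comm_even a b w).symm
    | mul x y hx hy => rw [← mul_assoc, hx, mul_assoc, hy, mul_assoc]
    | add x y hx hy => rw [mul_add, add_mul, hx, hy]
  rw [gr, pow_two] at hf
  induction hf using Submodule.mul_induction_on' with
  | mem_mul_mem a ha b hb =>
    obtain ⟨a, rfl⟩ := ha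
    obtain ⟨b, rfl⟩ := hb
    exact key a b x
  | add a _ b _ ha hb => rw [add_mul, mul_add, ha, hb]

theorem eι_mul_eι_mem (i j : Fin n) : eι i * eι j ∈ gr n 2 := by
  rw [gr, pow_two]
  exact Submodule.mul_mem_mul (LinearMap.mem_range_self _ _) (LinearMap.mem_range_self _ _)

end Pool.Agent.Helper58.Quad
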