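import Mathlib

set_option autoImplicit false

namespace Pool.Agent.Helper58.Quad

open Module Polynomial

/-- Semicontinuity of the rank in a polynomial one-parameter family of linear maps. -/
theorem finite_setOf_finrank_range_le {K V W : Type*} [Field K] [AddCommGroup V] [Module K V]
    [FiniteDimensional K V] [AddCommGroup W] [Module K W] (N : ℕ) (Φ : ℕ → (W →ₗ[K] V))
    (x₀ : K) (r : ℕ)
    (h : r < finrank K (LinearMap.range (∑ k ∈ Finset.range N, x₀ ^ k • Φ k))) :
    {x : K | finrank K (LinearMap.range (∑ k ∈ Finset.range N, x ^ k • Φ k)) ≤ r}.Finite := by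
  classical
  set T : K → (W →ₗ[K] V) := fun x => ∑ k ∈ Finset.range N, x ^ k • Φ k with hT
  have hrange : r + 1 ≤ finrank K (LinearMap.range (T x₀)) := h
  let b := Module.finBasis K (LinearMap.range (T x₀))
  let y : Fin (r + 1) → V := fun i => (b (Fin.castLE hrange i) : V)
  have hy : LinearIndependent K y := by
    have h1 : LinearIndependent K (fun i => (b i : V)) :=
      b.linearIndependent.map' (Submodule.subtype _) (Submodule.ker_subtype _)
    exact h1.comp (Fin.castLE hrange) (Fin.castLE_injective hrange)
  have hw : ∀ i, ∃ w, T x₀ w = y i := fun i => (b (Fin.castLE hrange i)).2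
  choose w hw using hw
  obtain ⟨g, hg⟩ : ∃ g : V →ₗ[K] (Fin (r + 1) → K), ∀ i, g (y i) = Pi.single i 1 := by
    have hinj : LinearMap.ker (Fintype.linearCombination K y) = ⊥ := by
      rw [LinearMap.ker_eq_bot']
      intro c hc
      rw [Fintype.linearCombination_apply] at hc
      funext i
      exact (Fintype.linearIndependent_iff.1 hy) c hc i
    obtain ⟨g, hg⟩ := LinearMap.exists_leftInverse_of_injective _ hinj
    refine ⟨g, fun i => ?_⟩
    have := LinearMap.congr_fun hg (Pi.single i 1)
    simpa [Fintype.linearCombination_apply_single] using this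
  let M : Matrix (Fin (r + 1)) (Fin (r + 1)) K[X] :=
    Matrix.of fun i j => ∑ k ∈ Finset.range N, C (g (Φ k (w j)) i) * X ^ k
  have hM : ∀ x, (M.det).eval x = (Matrix.of fun i j => g (T x (w j)) i).det := by
    intro x
    have h1 := RingHom.map_det (Polynomial.evalRingHom x) M
    rw [Polynomial.coe_evalRingHom] at h1
    rw [h1]
    congr 1
    ext i j
    simp only [RingHom.mapMatrix_apply, Matrix.map_apply, Matrix.of_apply, M, hT,
      Polynomial.coe_evalRingHom, Polynomial.eval_finsetSum, eval_mul, eval_C, eval_pow, eval_X,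
      LinearMap.sum_apply, LinearMap.smul_apply, map_sum, map_smul, Finset.sum_apply,
      Pi.smul_apply, smul_eq_mul]
    exact Finset.sum_congr rfl (fun k _ => mul_comm _ _)
  have hM0 : M.det ≠ 0 := by
    intro h0
    have h1 := hM x₀
    rw [h0, eval_zero] at h1
    have h2 : (Matrix.of fun i j => g (T x₀ (w j)) i) = (1 : Matrix (Fin (r+1)) (Fin (r+1)) K) := by
      ext i j
      rw [Matrix.of_apply, hw, hg, Matrix.one_apply, Pi.single_apply]
    rw [h2, Matrix.det_one] at h1
    exact zero_ne_one h1
  refine (M.det.roots.toFinset.finite_toSet).subset ?_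
  intro x hx
  change finrank K (LinearMap.range (T x)) ≤ r at hx
  simp only [Finset.mem_coe, Multiset.mem_toFinset]
  rw [Polynomial.mem_roots hM0, Polynomial.IsRoot]
  by_contra hne
  rw [hM x] at hne
  have hli : LinearIndependent K (fun j => T x (w j)) := by
    have h1 : LinearIndependent K (fun j => g (T x (w j))) := by
      have := Matrix.linearIndependent_cols_of_det_ne_zero hne
      exact this
    exact h1.of_comp g
  have hli' : LinearIndependent K
      (fun j => (⟨T x (w j), LinearMap.mem_range_self _ _⟩ : LinearMap.range (T x))) := by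
    apply LinearIndependent.of_comp (LinearMap.range (T x)).subtype
    exact hli
  have := hli'.fintype_card_le_finrank
  rw [Fintype.card_fin] at this
  exact absurd hx (not_le.2 this)

/-- Perturbation lemma: a family of relations which degenerates to a family of basis vectors. -/
theorem exists_span_le_sup {K V ι : Type*} [Field K] [Infinite K] [Fintype ι] [DecidableEq ι]
    [AddCommGroup V] [Module K V] (B : ι → V) (bad : ι → Prop) (p : ι → ι → K[X])
    (h0 : ∀ i j, bad i → bad j → (p i j).eval 0 = if i = j then 1 else 0) :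
    ∃ t : K, t ≠ 0 ∧ ∀ J : Submodule K V,
      (∀ i, bad i → ∑ j, (p i j).eval t • B j ∈ J) →
      Submodule.span K (Set.range B) ≤ J ⊔ Submodule.span K (B '' {i | ¬ bad i}) := by
  classical
  let M : Matrix {i // bad i} {i // bad i} K[X] := fun i j => p i j
  have hM : ∀ x, (M.det).eval x = (Matrix.of fun i j : {i // bad i} => (p i j).eval x).det := by
    intro x
    have h1 := RingHom.map_det (Polynomial.evalRingHom x) M
    rw [Polynomial.coe_evalRingHom] at h1
    rw [h1]
    rfl
  have hM0 : M.det ≠ 0 := by
    intro h0'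
    have h1 := hM 0
    rw [h0', eval_zero] at h1
    have h2 : (Matrix.of fun i j : {i // bad i} => (p i j).eval 0) = 1 := by
      ext i j
      rw [Matrix.of_apply, h0 _ _ i.2 j.2, Matrix.one_apply]
      simp [Subtype.ext_iff]
    rw [h2, Matrix.det_one] at h1
    exact zero_ne_one h1
  obtain ⟨t, ht⟩ : ∃ t, (X * M.det).eval t ≠ 0 := by
    by_contra hcon
    push Not at hcon
    exact (mul_ne_zero X_ne_zero hM0) (Polynomial.funext (fun x => by rw [hcon x, eval_zero]))
  rw [eval_mul, eval_X] at ht
  have ht0 : t ≠ 0 := left_ne_zero_of_mul ht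
  have htd : (Matrix.of fun i j : {i // bad i} => (p i j).eval t).det ≠ 0 := by
    rw [← hM]; exact right_ne_zero_of_mul ht
  refine ⟨t, ht0, fun J hJ => ?_⟩
  set A : Matrix {i // bad i} {i // bad i} K := Matrix.of fun i j => (p i j).eval t with hA
  have hAinv : A⁻¹ * A = 1 := Matrix.nonsing_inv_mul A (isUnit_iff_ne_zero.2 htd)
  rw [Submodule.span_le]
  rintro _ ⟨i, rfl⟩
  by_cases hi : bad i
  · have key : ∀ k : {i // bad i}, ∑ j : {i // bad i}, (p k j).eval t • B j ∈
        J ⊔ Submodule.span K (B '' {i | ¬ bad i}) := by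
      intro k
      have h1 : ∑ j, (p k j).eval t • B j = (∑ j : {i // bad i}, (p k j).eval t • B j)
          + ∑ j : {i // ¬ bad i}, (p k j).eval t • B j :=
        (Fintype.sum_subtype_add_sum_subtype bad (fun j => (p k j).eval t • B j)).symm
      have h2 : ∑ j : {i // ¬ bad i}, (p k j).eval t • B j ∈
          J ⊔ Submodule.span K (B '' {i | ¬ bad i}) := by
        refine Submodule.sum_mem _ (fun j _ => Submodule.smul_mem _ _ ?_)
        exact Submodule.mem_sup_right (Submodule.subset_span ⟨j, j.2, rfl⟩)
      have h3 : ∑ j : {i // bad i}, (p k j).eval t • B j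
          = (∑ j, (p k j).eval t • B j) - ∑ j : {i // ¬ bad i}, (p k j).eval t • B j := by
        rw [h1]; abel
      rw [h3]
      exact Submodule.sub_mem _ (Submodule.mem_sup_left (hJ k k.2)) h2
    have h4 : B i = ∑ k : {i // bad i}, (A⁻¹ ⟨i, hi⟩ k) •
        ∑ j : {i // bad i}, (p k j).eval t • B j := by
      simp_rw [Finset.smul_sum, smul_smul]
      rw [Finset.sum_comm]
      simp_rw [← Finset.sum_smul]
      have h5 : ∀ j : {i // bad i}, ∑ k : {i // bad i}, A⁻¹ ⟨i, hi⟩ k * (p k j).eval t
          = if (⟨i, hi⟩ : {i // bad i}) = j then 1 else 0 := by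
        intro j
        have := congrFun (congrFun hAinv ⟨i, hi⟩) j
        rw [Matrix.mul_apply, Matrix.one_apply] at this
        exact this
      simp_rw [h5]
      simp
    rw [h4]
    exact Submodule.sum_mem _ (fun k _ => Submodule.smul_mem _ _ (key k))
  · exact Submodule.mem_sup_right (Submodule.subset_span ⟨i, hi, rfl⟩)

theorem finrank_quotient_le {K V ι : Type*} [Field K] [AddCommGroup V] [Module K V] [Fintype ι]
    (A J : Submodule K V) (v : ι → V) (hv : ∀ i, v i ∈ A)
    (h : A ≤ J ⊔ Submodule.span K (Set.range v)) :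
    finrank K (↥A ⧸ Submodule.comap A.subtype J) ≤ Fintype.card ι := by
  apply finrank_le_of_span_eq_top
    (v := fun i => (Submodule.comap A.subtype J).mkQ (⟨v i, hv i⟩ : A))
  rw [eq_top_iff]
  rintro x -
  obtain ⟨⟨a, ha⟩, rfl⟩ := Submodule.mkQ_surjective _ x
  obtain ⟨j, hj, k, hk, hjk⟩ := Submodule.mem_sup.1 (h ha)
  have hkA : k ∈ A := by
    refine (Submodule.span_le.2 ?_ : Submodule.span K (Set.range v) ≤ A) hk
    rintro _ ⟨i, rfl⟩
    exact hv i
  have h1 : (Submodule.comap A.subtype J).mkQ (⟨a, ha⟩ : A)
      = (Submodule.comap A.subtype J).mkQ (⟨k, hkA⟩ : A) := by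
    rw [← sub_eq_zero, ← map_sub, Submodule.mkQ_apply, Submodule.Quotient.mk_eq_zero,
      Submodule.mem_comap]
    change a - k ∈ J
    rw [← hjk, add_sub_cancel_right]
    exact hj
  rw [h1]
  have h2 : (⟨k, hkA⟩ : A) ∈ Submodule.span K (Set.range (fun i => (⟨v i, hv i⟩ : A))) := by
    have h3 : Submodule.map A.subtype (Submodule.span K (Set.range (fun i => (⟨v i, hv i⟩ : A))))
        = Submodule.span K (Set.range v) := by
      rw [Submodule.map_span, ← Set.range_comp]
      rfl
    rw [← h3] at hk
    obtain ⟨y, hy, hyk⟩ := hk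
    have : y = (⟨k, hkA⟩ : A) := Subtype.ext hyk
    rwa [this] at hy
  have h4 := Submodule.mem_map_of_mem (f := (Submodule.comap A.subtype J).mkQ) h2
  rw [Submodule.map_span, ← Set.range_comp] at h4
  exact h4

/-- Lower bound for a quotient from independent functionals vanishing on the subspace. -/
theorem le_finrank_quotient {K V ι : Type*} [Field K] [AddCommGroup V] [Module K V] [Fintype ι]
    [DecidableEq ι] (A J : Submodule K V) [FiniteDimensional K A] (w : ι → V) (hw : ∀ i, w i ∈ A)
    (L : ι → (V →ₗ[K] K)) (hL : ∀ i, ∀ x ∈ J, x ∈ A → L i x = 0)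
    (hdet : IsUnit (Matrix.of fun i j => L i (w j))) :
    Fintype.card ι ≤ finrank K (↥A ⧸ Submodule.comap A.subtype J) := by
  classical
  have hli : LinearIndependent K
      (fun j => (Submodule.comap A.subtype J).mkQ (⟨w j, hw j⟩ : A)) := by
    rw [Fintype.linearIndependent_iff]
    intro c hc
    have h1 : ∑ j, c j • w j ∈ J := by
      have h2 : (Submodule.comap A.subtype J).mkQ (∑ j, c j • (⟨w j, hw j⟩ : A)) = 0 := by
        rw [map_sum, ← hc]
        exact Finset.sum_congr rfl (fun j _ => map_smul _ _ _)
      rw [Submodule.mkQ_apply, Submodule.Quotient.mk_eq_zero, Submodule.mem_comap] at h2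
      simpa using h2
    have h3 : (Matrix.of fun i j => L i (w j)).mulVec c = 0 := by
      funext i
      have h4 := hL i _ h1 (Submodule.sum_mem _ (fun j _ => Submodule.smul_mem _ _ (hw j)))
      rw [map_sum] at h4
      simp only [Matrix.mulVec, dotProduct, Matrix.of_apply, Pi.zero_apply]
      rw [← h4]
      exact Finset.sum_congr rfl (fun j _ => by rw [map_smul, smul_eq_mul, mul_comm])
    have h5 := Matrix.mulVec_injective_of_isUnit hdet
    have h6 : c = 0 := h5 (by rw [h3, Matrix.mulVec_zero])
    intro i
    rw [h6]; rfl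
  exact hli.fintype_card_le_finrank

end Pool.Agent.Helper58.Quad
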