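import Mathlib
import Pool.Agent.Helper58.Quad.ExtBasic
import Pool.Agent.Helper58.Quad.Semi

set_option autoImplicit false

namespace Pool.Agent.Helper58.Quad

open Module Finset

theorem add_pow_of_sq_zero {A : Type*} [CommRing A] (a b : A) (ha : a ^ 2 = 0) (k : ℕ) :
    (a + b) ^ (k + 1) = b ^ (k + 1) + ((k + 1 : ℕ) : A) * a * b ^ k := by
  induction k with
  | zero => simp [add_comm]
  | succ k ih =>
    rw [pow_succ, ih]
    push_cast
    linear_combination ((k : A) + 1) * b ^ k * ha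

theorem sum_pow_card {A ι : Type*} [CommRing A] [DecidableEq ι] (z : ι → A)
    (hz : ∀ i, z i ^ 2 = 0) (F : Finset ι) :
    (∑ i ∈ F, z i) ^ (F.card + 1) = 0 ∧
      (∑ i ∈ F, z i) ^ F.card = ((F.card.factorial : ℕ) : A) * ∏ i ∈ F, z i := by
  induction F using Finset.induction_on with
  | empty => simp
  | insert a F ha ih =>
    obtain ⟨ih1, ih2⟩ := ih
    rw [Finset.sum_insert ha, Finset.prod_insert ha, Finset.card_insert_of_notMem ha]
    constructor
    · rw [add_pow_of_sq_zero _ _ (hz a), ih1, pow_succ, ih1]; simp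
    · rw [add_pow_of_sq_zero _ _ (hz a), ih1, ih2, Nat.factorial_succ]
      push_cast
      ring

theorem factorial_mul_prod {A ι : Type*} [CommRing A] [DecidableEq ι] (z : ι → A)
    (hz : ∀ i, z i ^ 2 = 0) (F R : Finset ι) (h : R.card < F.card) :
    ((F.card.factorial : ℕ) : A) * ∏ i ∈ F, z i =
      (∑ i ∈ F, z i + ∑ i ∈ R, z i) *
        ∑ j ∈ range F.card, (∑ i ∈ F, z i) ^ j * (-∑ i ∈ R, z i) ^ (F.card - 1 - j) := by
  have h1 := (Commute.all (∑ i ∈ F, z i) (-∑ i ∈ R, z i)).mul_geom_sum₂ F.card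
  rw [sub_neg_eq_add] at h1
  rw [h1, (sum_pow_card z hz F).2]
  have h3 : (∑ i ∈ R, z i) ^ F.card = 0 := by
    obtain ⟨k, hk⟩ := Nat.exists_eq_add_of_le (Nat.succ_le_of_lt h)
    rw [hk, pow_add, Nat.succ_eq_add_one, (sum_pow_card z hz R).1, zero_mul]
  have h2 : (-∑ i ∈ R, z i) ^ F.card = 0 := by
    rw [neg_pow, h3, mul_zero]
  rw [h2, sub_zero]

section

variable {n : ℕ} (π : Equiv.Perm (Fin n))

/-- position of an index in the order given by `π` -/
def pos (j : Fin n) : ℕ := (π.symm j : ℕ)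

/-- weight of a set -/
def wt (U : Finset (Fin n)) : ℕ := ∑ j ∈ U, 2 ^ pos π j

theorem pos_injective : Function.Injective (pos π) := fun a b h =>
  π.symm.injective (Fin.ext h)

theorem wt_lt_of_pos_lt (P : Finset (Fin n)) (k : ℕ) (h : ∀ j ∈ P, pos π j < k) :
    wt π P < 2 ^ k := by
  have h1 : wt π P = ∑ i ∈ P.image (pos π), 2 ^ i := by
    rw [Finset.sum_image]
    · rfl
    · exact fun _ _ _ _ h => pos_injective π h
  rw [h1]
  apply Nat.geomSum_lt le_rfl
  intro i hi
  rw [Finset.mem_image] at hi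
  obtain ⟨j, hj, rfl⟩ := hi
  exact h j hj

theorem wt_union {U V : Finset (Fin n)} (h : Disjoint U V) :
    wt π (U ∪ V) = wt π U + wt π V := Finset.sum_union h

/-- first element of a pair -/
def fst (i : Fin (n / 2)) : Fin n := π ⟨2 * i, by have := i.2; omega⟩
/-- second element of a pair -/
def snd (i : Fin (n / 2)) : Fin n := π ⟨2 * i + 1, by have := i.2; omega⟩

@[simp] theorem pos_fst (i : Fin (n / 2)) : pos π (fst π i) = 2 * i := by simp [pos, fst]
@[simp] theorem pos_snd (i : Fin (n / 2)) : pos π (snd π i) = 2 * i + 1 := by simp [pos, snd]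

/-- a pair -/
def Pr (i : Fin (n / 2)) : Finset (Fin n) := {fst π i, snd π i}

theorem mem_Pr {i : Fin (n / 2)} {j : Fin n} : j ∈ Pr π i ↔ pos π j / 2 = i := by
  constructor
  · intro h
    rw [Pr, mem_insert, mem_singleton] at h
    rcases h with rfl | rfl
    · simp
    · rw [pos_snd]; omega
  · intro h
    rw [Pr, mem_insert, mem_singleton]
    have h2 : pos π j = 2 * i ∨ pos π j = 2 * i + 1 := by omega
    rcases h2 with h2 | h2
    · left; exact pos_injective π (by rw [h2, pos_fst])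
    · right; exact pos_injective π (by rw [h2, pos_snd])

theorem card_Pr (i : Fin (n / 2)) : (Pr π i).card = 2 := by
  rw [Pr, card_pair]
  intro h
  have := congrArg (pos π) h
  rw [pos_fst, pos_snd] at this
  omega

theorem Pr_disjoint {i k : Fin (n / 2)} (h : i ≠ k) : Disjoint (Pr π i) (Pr π k) := by
  rw [Finset.disjoint_left]
  intro j hi hk
  rw [mem_Pr] at hi hk
  exact h (Fin.ext (hi.symm.trans hk))

theorem wt_Pr (i : Fin (n / 2)) : wt π (Pr π i) = 2 ^ (2 * (i : ℕ)) + 2 ^ (2 * (i : ℕ) + 1) := by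
  rw [wt, Pr, sum_pair, pos_fst, pos_snd]
  intro h
  have := congrArg (pos π) h
  rw [pos_fst, pos_snd] at this
  omega

/-- the quadratic monomial attached to a pair -/
noncomputable def zz (i : Fin (n / 2)) : EA n := eι (fst π i) * eι (snd π i)

theorem zz_eq (i : Fin (n / 2)) : ∃ ε : ℂ, ε ≠ 0 ∧ zz π i = ε • bE n (Pr π i) := by
  have hd : Disjoint ({fst π i} : Finset (Fin n)) {snd π i} := by
    rw [Finset.disjoint_singleton]
    intro h
    have := congrArg (pos π) h
    rw [pos_fst, pos_snd] at this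
    omega
  obtain ⟨ε, hε, h⟩ := bE_mul_of_disjoint hd
  refine ⟨ε, hε, ?_⟩
  rw [zz, ← bE_singleton, ← bE_singleton, h]
  rfl

theorem zz_mem_Sp {p : Finset (Fin n) → Prop} {i : Fin (n / 2)} (h : p (Pr π i)) :
    zz π i ∈ Sp p := by
  obtain ⟨ε, -, h1⟩ := zz_eq π i
  rw [h1]
  exact Submodule.smul_mem _ _ (bE_mem_Sp h)

theorem zz_mul_eq_zero {i : Fin (n / 2)} {V : Finset (Fin n)} (h : ¬ Disjoint (Pr π i) V) :
    zz π i * bE n V = 0 := by
  obtain ⟨ε, -, h1⟩ := zz_eq π i
  rw [h1, smul_mul_assoc, bE_mul_of_not_disjoint h, smul_zero]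

theorem zz_mem_gr (i : Fin (n / 2)) : zz π i ∈ gr n 2 := eι_mul_eι_mem _ _

/-- `zz` in the centre -/
noncomputable def zc (i : Fin (n / 2)) : Subalgebra.center ℂ (EA n) :=
  ⟨zz π i, by
    rw [Subalgebra.mem_center_iff]
    intro b
    exact (gr_two_comm (zz_mem_gr π i) b).symm⟩

theorem zc_sq (i : Fin (n / 2)) : zc π i ^ 2 = 0 := by
  apply Subtype.ext
  rw [pow_two]
  change zz π i * zz π i = 0
  obtain ⟨ε, -, h1⟩ := zz_eq π i
  rw [h1, smul_mul_assoc, mul_smul_comm, bE_mul_of_not_disjoint, smul_zero, smul_zero]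
  rw [disjoint_self_iff_empty]
  intro h
  have := card_Pr π i
  rw [h] at this
  simp at this

theorem prod_zc (F : Finset (Fin (n / 2))) :
    ∃ ε : ℂ, ε ≠ 0 ∧ ((∏ i ∈ F, zc π i : Subalgebra.center ℂ (EA n)) : EA n)
      = ε • bE n (F.biUnion (Pr π)) := by
  induction F using Finset.induction_on with
  | empty => exact ⟨1, one_ne_zero, by simp [bE_empty]⟩
  | insert a F ha ih =>
    obtain ⟨ε, hε, h⟩ := ih
    obtain ⟨δ, hδ, hz⟩ := zz_eq π a
    have hd : Disjoint (Pr π a) (F.biUnion (Pr π)) := by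
      rw [Finset.disjoint_biUnion_right]
      intro i hi
      exact Pr_disjoint π (fun h => ha (h ▸ hi))
    obtain ⟨κ, hκ, hm⟩ := bE_mul_of_disjoint hd
    refine ⟨δ * ε * κ, mul_ne_zero (mul_ne_zero hδ hε) hκ, ?_⟩
    rw [Finset.prod_insert ha, Finset.biUnion_insert]
    change zz π a * ((∏ i ∈ F, zc π i : Subalgebra.center ℂ (EA n)) : EA n) = _
    rw [h, hz, smul_mul_assoc, mul_smul_comm, hm, smul_smul, smul_smul, mul_assoc]

/-- low sets of a given size -/
def lowk (m k : ℕ) (Q : Finset (Fin n)) : Prop := (∀ j ∈ Q, pos π j < 2 * m) ∧ Q.card = k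

theorem lowk_mul {m k l : ℕ} {x y : EA n} (hx : x ∈ Sp (lowk π m k)) (hy : y ∈ Sp (lowk π m l)) :
    x * y ∈ Sp (lowk π m (k + l)) := by
  refine Sp_mul ?_ hx hy
  rintro U V ⟨hU, hU'⟩ ⟨hV, hV'⟩ hd
  refine ⟨?_, ?_⟩
  · intro j hj
    rcases Finset.mem_union.1 hj with h | h
    · exact hU j h
    · exact hV j h
  · rw [Finset.card_union_of_disjoint hd, hU', hV']

theorem lowk_pow {m k : ℕ} {x : EA n} (hx : x ∈ Sp (lowk π m k)) (l : ℕ) :
    x ^ l ∈ Sp (lowk π m (k * l)) := by
  induction l with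
  | zero =>
    rw [pow_zero, mul_zero, ← bE_empty]
    exact bE_mem_Sp ⟨by simp, by simp⟩
  | succ l ih => rw [pow_succ, Nat.mul_succ]; exact lowk_mul π ih hx

theorem low_lemma (m : ℕ) (P : Finset (Fin n)) (hP : ∀ j ∈ P, pos π j < 2 * m)
    (hm : 2 * m ≤ n) (hcard : m + 1 ≤ P.card) :
    ∃ η : EA n, η ∈ Sp (fun Q => (∀ j ∈ Q, pos π j < 2 * m) ∧ Q.card + 2 = P.card) ∧
      bE n P = (∑ i ∈ univ.filter (fun i : Fin (n / 2) => (i : ℕ) < m), zz π i) * η := by
  classical
  set L := univ.filter (fun i : Fin (n / 2) => (i : ℕ) < m) with hL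
  set F := L.filter (fun i => Pr π i ⊆ P) with hF
  set R := L.filter (fun i => Disjoint (Pr π i) P) with hR
  have hLcard : L.card ≤ m := by
    have h1 : (L.image (fun i : Fin (n / 2) => (i : ℕ))).card ≤ (range m).card := by
      apply Finset.card_le_card
      intro x hx
      rw [Finset.mem_image] at hx
      obtain ⟨i, hi, rfl⟩ := hx
      rw [hL, Finset.mem_filter] at hi
      exact Finset.mem_range.2 hi.2
    rwa [Finset.card_image_of_injective _ Fin.val_injective, Finset.card_range] at h1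
  have hFL : F ⊆ L := Finset.filter_subset _ _
  have hRL : R ⊆ L := Finset.filter_subset _ _
  have hFR : Disjoint F R := by
    rw [Finset.disjoint_left]
    intro i hi hi'
    rw [hF, Finset.mem_filter] at hi
    rw [hR, Finset.mem_filter] at hi'
    have h1 : fst π i ∈ Pr π i := by simp [Pr]
    exact Finset.disjoint_left.1 hi'.2 h1 (hi.2 h1)
  -- counting
  have hPsub : P ⊆ L.biUnion (fun i => P ∩ Pr π i) := by
    intro j hj
    have h1 := hP j hj
    have h2 : pos π j / 2 < n / 2 := by omega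
    rw [Finset.mem_biUnion]
    refine ⟨⟨pos π j / 2, h2⟩, ?_, ?_⟩
    · rw [hL, Finset.mem_filter]
      exact ⟨Finset.mem_univ _, by change pos π j / 2 < m; omega⟩
    · rw [Finset.mem_inter]
      exact ⟨hj, (mem_Pr π).2 rfl⟩
  have hcount : P.card + R.card ≤ L.card + F.card := by
    have h1 : P.card ≤ ∑ i ∈ L, (P ∩ Pr π i).card :=
      (Finset.card_le_card hPsub).trans Finset.card_biUnion_le
    have h2 : R.card = ∑ i ∈ L, if Disjoint (Pr π i) P then 1 else 0 := by
      rw [hR, Finset.card_filter]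
    have h3 : F.card = ∑ i ∈ L, if Pr π i ⊆ P then 1 else 0 := by
      rw [hF, Finset.card_filter]
    have h4 : L.card = ∑ i ∈ L, 1 := by simp
    rw [h2, h3, h4]
    refine (Nat.add_le_add_right h1 _).trans ?_
    rw [← Finset.sum_add_distrib, ← Finset.sum_add_distrib]
    apply Finset.sum_le_sum
    intro i _
    by_cases hd : Disjoint (Pr π i) P
    · rw [if_pos hd]
      have : P ∩ Pr π i = ∅ := Finset.disjoint_iff_inter_eq_empty.1 hd.symm
      rw [this, Finset.card_empty]
      omega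
    · rw [if_neg hd]
      by_cases hs : Pr π i ⊆ P
      · rw [if_pos hs]
        have : (P ∩ Pr π i).card ≤ (Pr π i).card := Finset.card_le_card Finset.inter_subset_right
        rw [card_Pr] at this
        omega
      · rw [if_neg hs]
        have h5 : (P ∩ Pr π i) ⊂ Pr π i := by
          refine ⟨Finset.inter_subset_right, fun h => hs (fun x hx => ?_)⟩
          exact (Finset.mem_inter.1 (h hx)).1
        have := Finset.card_lt_card h5
        rw [card_Pr] at this
        omega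
  have hlt : R.card < F.card := by omega
  set PF := F.biUnion (Pr π) with hPF
  have hPFsub : PF ⊆ P := by
    rw [hPF, Finset.biUnion_subset]
    intro i hi
    rw [hF, Finset.mem_filter] at hi
    exact hi.2
  have hPFcard : PF.card = 2 * F.card := by
    rw [hPF, Finset.card_biUnion]
    · simp [card_Pr, mul_comm]
    · intro i _ j _ hij
      exact Pr_disjoint π hij
  set PT := P \ PF with hPT
  have hPTcard : PT.card + 2 * F.card = P.card := by
    rw [← hPFcard, hPT]
    exact Finset.card_sdiff_add_card_eq_card hPFsub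
  -- the sum acts through F and R
  have hzero : ∀ i ∈ L, i ∉ F ∪ R → zz π i * bE n PT = 0 := by
    intro i hi hn
    apply zz_mul_eq_zero
    rw [Finset.mem_union, not_or] at hn
    have hnF : ¬ Pr π i ⊆ P := fun h => hn.1 (Finset.mem_filter.2 ⟨hi, h⟩)
    have hnR : ¬ Disjoint (Pr π i) P := fun h => hn.2 (Finset.mem_filter.2 ⟨hi, h⟩)
    rw [Finset.not_disjoint_iff] at hnR ⊢
    obtain ⟨j, hj, hjP⟩ := hnR
    refine ⟨j, hj, ?_⟩
    rw [hPT, Finset.mem_sdiff]
    refine ⟨hjP, ?_⟩
    rw [hPF, Finset.mem_biUnion]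
    rintro ⟨k, hk, hjk⟩
    by_cases hik : i = k
    · subst hik; exact hn.1 hk
    · exact Finset.disjoint_left.1 (Pr_disjoint π hik) hj hjk
  set σF : Subalgebra.center ℂ (EA n) := ∑ i ∈ F, zc π i with hσF
  set σR : Subalgebra.center ℂ (EA n) := ∑ i ∈ R, zc π i with hσR
  set H : Subalgebra.center ℂ (EA n) :=
    ∑ j ∈ range F.card, σF ^ j * (-σR) ^ (F.card - 1 - j) with hH
  have hσFv : (σF : EA n) = ∑ i ∈ F, zz π i := by
    rw [hσF]; simp [zc]
  have hσRv : (σR : EA n) = ∑ i ∈ R, zz π i := by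
    rw [hσR]; simp [zc]
  have hsum : (∑ i ∈ L, zz π i) * bE n PT = ((σF + σR : Subalgebra.center ℂ (EA n)) : EA n)
      * bE n PT := by
    change _ = ((σF : EA n) + (σR : EA n)) * bE n PT
    rw [hσFv, hσRv, ← Finset.sum_union hFR, Finset.sum_mul, Finset.sum_mul]
    symm
    apply Finset.sum_subset (Finset.union_subset hFL hRL)
    intro i hi hn
    exact hzero i hi hn
  have hmain : ((F.card.factorial : ℕ) : Subalgebra.center ℂ (EA n)) * ∏ i ∈ F, zc π i
      = (σF + σR) * H := factorial_mul_prod (zc π) (zc_sq π) F R hlt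
  obtain ⟨ε, hε, hprod⟩ := prod_zc π F
  have hdisj : Disjoint PF PT := Finset.disjoint_sdiff
  obtain ⟨κ, hκ, hmul⟩ := bE_mul_of_disjoint hdisj
  have hunion : PF ∪ PT = P := Finset.union_sdiff_of_subset hPFsub
  rw [hunion] at hmul
  have hfac : ((F.card.factorial : ℕ) : ℂ) ≠ 0 := by exact_mod_cast Nat.factorial_ne_zero _
  set c : ℂ := κ⁻¹ * ε⁻¹ * ((F.card.factorial : ℕ) : ℂ)⁻¹ with hc
  refine ⟨c • ((H : EA n) * bE n PT), ?_, ?_⟩
  · apply Submodule.smul_mem
    have hx2 : ∀ S ⊆ L, (∑ i ∈ S, zz π i) ∈ Sp (lowk π m 2) := by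
      intro S hS
      apply Submodule.sum_mem
      intro i hi
      apply zz_mem_Sp
      refine ⟨?_, card_Pr π i⟩
      intro j hj
      rw [mem_Pr] at hj
      have h1 := hS hi
      rw [hL, Finset.mem_filter] at h1
      have h2 := h1.2
      omega
    have hHm : (H : EA n) ∈ Sp (lowk π m (2 * (F.card - 1))) := by
      have h1 : (H : EA n) = ∑ j ∈ range F.card,
          (σF : EA n) ^ j * (-(σR : EA n)) ^ (F.card - 1 - j) := by
        rw [hH]; simp
      rw [h1]
      apply Submodule.sum_mem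
      intro j hj
      rw [Finset.mem_range] at hj
      have h2 : (σF : EA n) ^ j ∈ Sp (lowk π m (2 * j)) := by
        apply lowk_pow
        rw [hσFv]; exact hx2 F hFL
      have h3 : (-(σR : EA n)) ^ (F.card - 1 - j) ∈ Sp (lowk π m (2 * (F.card - 1 - j))) := by
        apply lowk_pow
        apply Submodule.neg_mem
        rw [hσRv]; exact hx2 R hRL
      have h4 := lowk_mul π h2 h3
      have h5 : 2 * j + 2 * (F.card - 1 - j) = 2 * (F.card - 1) := by omega
      rwa [h5] at h4
    have hPTm : bE n PT ∈ Sp (lowk π m PT.card) := by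
      apply bE_mem_Sp
      refine ⟨fun j hj => hP j ?_, rfl⟩
      rw [hPT] at hj
      exact (Finset.mem_sdiff.1 hj).1
    have h6 := lowk_mul π hHm hPTm
    refine Sp_mono ?_ h6
    rintro Q ⟨hQ1, hQ2⟩
    refine ⟨hQ1, ?_⟩
    omega
  · have h7 : (∑ i ∈ L, zz π i) * ((H : EA n) * bE n PT)
        = ((F.card.factorial : ℕ) : ℂ) • (((∏ i ∈ F, zc π i : Subalgebra.center ℂ (EA n)) : EA n)
          * bE n PT) := by
      have hHc : ∀ x : EA n, x * (H : EA n) = (H : EA n) * x :=
        fun x => (Subalgebra.mem_center_iff.1 H.2 x)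
      rw [← mul_assoc, hHc, mul_assoc, hsum, ← mul_assoc, ← hHc]
      rw [← smul_mul_assoc]
      congr 1
      have h8 := congrArg (fun x : Subalgebra.center ℂ (EA n) => (x : EA n)) hmain
      simp only [Subalgebra.coe_mul] at h8
      rw [← h8]
      simp [Algebra.smul_def]
    rw [mul_smul_comm, h7, hprod, smul_mul_assoc, hmul, smul_smul, smul_smul, smul_smul, hc]
    have h9 : κ⁻¹ * ε⁻¹ * ((F.card.factorial : ℕ) : ℂ)⁻¹ *
        (((F.card.factorial : ℕ) : ℂ) * (ε * κ)) = 1 := by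
      field_simp
    rw [← mul_assoc, ← mul_assoc] at h9
    rw [h9, one_smul]

/-- the model quadratic form -/
noncomputable def f0 : EA n := ∑ i, zz π i

theorem f0_mem : f0 π ∈ gr n 2 := Submodule.sum_mem _ (fun i _ => zz_mem_gr π i)

theorem one_form (m : ℕ) (hm : 2 * m ≤ n) (U : Finset (Fin n))
    (hU : m + 1 ≤ (U.filter (fun j => pos π j < 2 * m)).card) :
    ∃ h : EA n, bE n U - f0 π * h ∈ Sp (fun U' => U'.card = U.card ∧ wt π U < wt π U') := by
  classical
  set P := U.filter (fun j => pos π j < 2 * m) with hPdef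
  have hP : ∀ j ∈ P, pos π j < 2 * m := fun j hj => (Finset.mem_filter.1 hj).2
  have hPU : P ⊆ U := Finset.filter_subset _ _
  set S := U \ P with hS
  have hdisj : Disjoint P S := Finset.disjoint_sdiff
  have hunion : P ∪ S = U := Finset.union_sdiff_of_subset hPU
  obtain ⟨κ, hκ, hmul⟩ := bE_mul_of_disjoint hdisj
  rw [hunion] at hmul
  obtain ⟨η, hη, hηeq⟩ := low_lemma π m P hP hm hU
  set L := univ.filter (fun i : Fin (n / 2) => (i : ℕ) < m) with hL
  have hcardU : P.card + S.card = U.card := by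
    rw [← Finset.card_union_of_disjoint hdisj, hunion]
  have hwtU : wt π U = wt π P + wt π S := by rw [← wt_union π hdisj, hunion]
  refine ⟨κ⁻¹ • (η * bE n S), ?_⟩
  have h1 : f0 π = (∑ i ∈ L, zz π i) + ∑ i ∈ Lᶜ, zz π i := by
    rw [f0, Finset.sum_add_sum_compl]
  have h2 : bE n U - f0 π * (κ⁻¹ • (η * bE n S))
      = -(κ⁻¹ • ∑ i ∈ Lᶜ, zz π i * (η * bE n S)) := by
    rw [h1, add_mul, mul_smul_comm, mul_smul_comm, ← mul_assoc, ← hηeq, hmul, smul_smul,
      inv_mul_cancel₀ hκ, one_smul, Finset.sum_mul]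
    abel
  rw [h2]
  apply Submodule.neg_mem
  apply Submodule.smul_mem
  apply Submodule.sum_mem
  intro i hi
  have him : m ≤ (i : ℕ) := by
    rw [Finset.mem_compl, hL, Finset.mem_filter] at hi
    by_contra hc
    exact hi ⟨Finset.mem_univ _, by omega⟩
  have h3 : η * bE n S ∈ Sp (fun V => V.card + 2 = U.card ∧ wt π S ≤ wt π V) := by
    refine Sp_mul (p := fun Q => (∀ j ∈ Q, pos π j < 2 * m) ∧ Q.card + 2 = P.card)
      (q := fun V => V = S) ?_ hη (bE_mem_Sp rfl)
    rintro Q V ⟨-, hQ⟩ rfl hd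
    refine ⟨?_, ?_⟩
    · rw [Finset.card_union_of_disjoint hd]; omega
    · rw [wt_union π hd]; omega
  have h4 : zz π i ∈ Sp (fun V => V = Pr π i) := zz_mem_Sp π rfl
  refine Sp_mul ?_ h4 h3
  rintro V W rfl ⟨hW1, hW2⟩ hd
  refine ⟨?_, ?_⟩
  · rw [Finset.card_union_of_disjoint hd, card_Pr]; omega
  · rw [wt_union π hd, wt_Pr, hwtU]
    have h5 := wt_lt_of_pos_lt π P (2 * m) hP
    have h6 : 2 ^ (2 * m) ≤ 2 ^ (2 * (i : ℕ)) := Nat.pow_le_pow_right (by norm_num) (by omega)
    omega

/-- scaling automorphism -/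
noncomputable def Dmap (t : ℂ) : (Fin n → ℂ) →ₗ[ℂ] (Fin n → ℂ) :=
  LinearMap.pi (fun j => (t ^ (2 ^ pos π j)) • LinearMap.proj j)

theorem Dmap_single (t : ℂ) (j : Fin n) :
    Dmap π t (Pi.single j 1) = (t ^ (2 ^ pos π j)) • (Pi.single j (1 : ℂ) : Fin n → ℂ) := by
  ext k
  by_cases h : k = j
  · subst h; simp [Dmap]
  · simp [Dmap, Pi.single_eq_of_ne h]

/-- scaling automorphism of the exterior algebra -/
noncomputable def DA (t : ℂ) : EA n →ₐ[ℂ] EA n := ExteriorAlgebra.map (Dmap π t)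

theorem DA_bE (t : ℂ) (U : Finset (Fin n)) : DA π t (bE n U) = t ^ wt π U • bE n U := by
  rw [bE_apply_emb U rfl, DA, ExteriorAlgebra.map_apply_ιMulti]
  have h1 : (⇑(Dmap π t) ∘ fun j => (Pi.single (U.orderEmbOfFin rfl j) (1 : ℂ) : Fin n → ℂ))
      = fun j => (t ^ (2 ^ pos π (U.orderEmbOfFin rfl j))) •
        (Pi.single (U.orderEmbOfFin rfl j) (1 : ℂ) : Fin n → ℂ) := by
    funext j
    rw [Function.comp_apply, Dmap_single]
  rw [h1]
  have h2 := MultilinearMap.map_smul_univ
    (ExteriorAlgebra.ιMulti ℂ U.card (M := Fin n → ℂ)).toMultilinearMap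
    (fun j => t ^ (2 ^ pos π (U.orderEmbOfFin rfl j)))
    (fun j => (Pi.single (U.orderEmbOfFin rfl j) (1 : ℂ) : Fin n → ℂ))
  have h3 : ∏ j, t ^ (2 ^ pos π (U.orderEmbOfFin rfl j)) = t ^ wt π U := by
    rw [Finset.prod_pow_eq_pow_sum]
    congr 1
    rw [wt]
    rw [← Finset.sum_coe_sort U]
    exact Fintype.sum_equiv (U.orderIsoOfFin rfl).toEquiv _ _ (fun j => rfl)
  rw [h3] at h2
  exact h2

theorem DA_gr (t : ℂ) {s : ℕ} {x : EA n} (hx : x ∈ gr n s) : DA π t x ∈ gr n s := by
  rw [gr_eq_Sp] at hx ⊢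
  induction hx using Submodule.span_induction with
  | mem a ha =>
    obtain ⟨U, hU, rfl⟩ := ha
    rw [DA_bE]
    exact Submodule.smul_mem _ _ (bE_mem_Sp hU)
  | zero => rw [map_zero]; exact Submodule.zero_mem _
  | add x y _ _ hx hy => rw [map_add]; exact Submodule.add_mem _ hx hy
  | smul c x _ hx => rw [map_smul]; exact Submodule.smul_mem _ _ hx

/-- initial segment condition fails for the order given by `π` -/
def PBad (U : Finset (Fin n)) : Prop :=
  ∃ m, 2 * m ≤ n ∧ m + 1 ≤ (U.filter (fun j => pos π j < 2 * m)).card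

/-- polynomial coefficients of the relation attached to a bad set -/
theorem exists_poly (U : Finset (Fin n)) (hU : PBad π U) :
    ∃ p : Finset (Fin n) → Polynomial ℂ,
      (∀ U', (p U').eval 0 = if U = U' then 1 else 0) ∧
      (∀ U', U'.card ≠ U.card → p U' = 0) ∧
      ∀ t : ℂ, t ≠ 0 → ∃ h : EA n,
        ∑ U', (p U').eval t • bE n U' = DA π t (f0 π) * h := by
  classical
  obtain ⟨m, hm, hcard⟩ := hU
  obtain ⟨h, hh⟩ := one_form π m hm U hcard
  set y := bE n U - f0 π * h with hy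
  set c : Finset (Fin n) → ℂ := fun U' => (bE n).repr y U' with hc
  have hc0 : ∀ U', ¬ (U'.card = U.card ∧ wt π U < wt π U') → c U' = 0 :=
    fun U' hU' => repr_eq_zero_of_mem_Sp hh hU'
  refine ⟨fun U' => (if U = U' then 1 else 0) -
    Polynomial.C (c U') * Polynomial.X ^ (wt π U' - wt π U), ?_, ?_, ?_⟩
  · intro U'
    by_cases h1 : U'.card = U.card ∧ wt π U < wt π U'
    · have h2 : wt π U' - wt π U ≠ 0 := by omega
      have h3 : U ≠ U' := by rintro rfl; omega
      simp [h2, h3]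
    · dsimp only
      rw [hc0 U' h1]
      split_ifs <;> simp
  · intro U' hne
    have h3 : U ≠ U' := by rintro rfl; exact hne rfl
    dsimp only
    rw [if_neg h3, hc0 U' (fun h => hne h.1)]
    simp
  · intro t ht
    have hsum : y = ∑ U', c U' • bE n U' := ((bE n).sum_repr y).symm
    have h4 : DA π t y = ∑ U', (c U' * t ^ wt π U') • bE n U' := by
      rw [hsum, map_sum]
      apply Finset.sum_congr rfl
      intro U' _
      rw [map_smul, DA_bE, smul_smul]
    refine ⟨(t ^ wt π U)⁻¹ • DA π t h, ?_⟩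
    have htw : t ^ wt π U ≠ 0 := pow_ne_zero _ ht
    have h5 : DA π t (f0 π) * DA π t h = t ^ wt π U • bE n U - DA π t y := by
      rw [← map_mul, hy, map_sub, DA_bE]
      abel
    rw [mul_smul_comm, h5, smul_sub, smul_smul, inv_mul_cancel₀ htw, one_smul, h4,
      Finset.smul_sum]
    have h6 : ∀ U', (Polynomial.eval t ((if U = U' then 1 else 0) -
        Polynomial.C (c U') * Polynomial.X ^ (wt π U' - wt π U))) • bE n U'
        = (if U = U' then (1 : ℂ) else 0) • bE n U' -
          ((t ^ wt π U)⁻¹ • ((c U' * t ^ wt π U') • bE n U')) := by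
      intro U'
      rw [Polynomial.eval_sub, sub_smul]
      congr 1
      · split_ifs <;> simp
      · rw [smul_smul]
        congr 1
        by_cases h1 : U'.card = U.card ∧ wt π U < wt π U'
        · have h7 : t ^ wt π U' = t ^ wt π U * t ^ (wt π U' - wt π U) := by
            rw [← pow_add]; congr 1; omega
          rw [h7]
          simp only [Polynomial.eval_mul, Polynomial.eval_C, Polynomial.eval_pow,
            Polynomial.eval_X]
          field_simp
        · rw [hc0 U' h1]; simp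
    rw [Finset.sum_congr rfl (fun U' _ => h6 U'), Finset.sum_sub_distrib]
    congr 1
    simp

end

/-- Upper bound for the exterior algebra: there are two quadratic forms such that the quotient in
degree `s` has dimension at most the number of good sets. -/
theorem ext_upper (n s : ℕ) :
    ∃ f ∈ gr n 2, ∃ g ∈ gr n 2,
      Module.finrank ℂ (↥(gr n s) ⧸ Submodule.comap (gr n s).subtype
        (Submodule.span ℂ {x : EA n | ∃ u v : EA n, x = u * f * v ∨ x = u * g * v})) ≤
      Set.ncard {U : Finset (Fin n) | U.card = s ∧ ¬ PBad 1 U ∧ ¬ PBad Fin.revPerm U} := by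
  classical
  let ι' := {U : Finset (Fin n) // U.card = s}
  let bad : ι' → Prop := fun U => PBad 1 U.1 ∨ PBad Fin.revPerm U.1
  have hex : ∀ U : ι', ∃ p : Finset (Fin n) → Polynomial ℂ,
      bad U → (∀ U', (p U').eval 0 = if U.1 = U' then 1 else 0) ∧
      (∀ U', U'.card ≠ s → p U' = 0) ∧
      ∀ t : ℂ, t ≠ 0 → ∃ h : EA n,
        ∑ U', (p U').eval t • bE n U' = DA 1 t (f0 1) * h ∨
        ∑ U', (p U').eval t • bE n U' = DA Fin.revPerm t (f0 Fin.revPerm) * h := by
    intro U
    by_cases hb : PBad 1 U.1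
    · obtain ⟨p, h1, h2, h3⟩ := exists_poly 1 U.1 hb
      refine ⟨p, fun _ => ⟨h1, fun U' hU' => h2 U' (by rw [U.2]; exact hU'), fun t ht => ?_⟩⟩
      obtain ⟨h, hh⟩ := h3 t ht
      exact ⟨h, Or.inl hh⟩
    · by_cases hb' : PBad Fin.revPerm U.1
      · obtain ⟨p, h1, h2, h3⟩ := exists_poly Fin.revPerm U.1 hb'
        refine ⟨p, fun _ => ⟨h1, fun U' hU' => h2 U' (by rw [U.2]; exact hU'), fun t ht => ?_⟩⟩
        obtain ⟨h, hh⟩ := h3 t ht
        exact ⟨h, Or.inr hh⟩
      · exact ⟨0, fun h => (h.elim hb hb').elim⟩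
  choose p hp using hex
  obtain ⟨t, ht0, ht⟩ := exists_span_le_sup (K := ℂ) (V := EA n) (fun U : ι' => bE n U.1) bad
    (fun U U' => p U U'.1) (by
      intro U U' hU _
      rw [(hp U hU).1]
      by_cases h : U = U'
      · rw [if_pos h, if_pos (congrArg Subtype.val h)]
      · rw [if_neg h, if_neg (fun h' => h (Subtype.ext h'))])
  set f := DA 1 t (f0 1 : EA n) with hf
  set g := DA Fin.revPerm t (f0 Fin.revPerm : EA n) with hg
  refine ⟨f, DA_gr 1 t (f0_mem 1), g, DA_gr _ t (f0_mem _), ?_⟩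
  set J : Submodule ℂ (EA n) :=
    Submodule.span ℂ {x : EA n | ∃ u v : EA n, x = u * f * v ∨ x = u * g * v} with hJ
  have h1 := ht J (by
    intro U hU
    obtain ⟨h, hh⟩ := (hp U hU).2.2 t ht0
    have h2 : ∑ U' : ι', (p U U'.1).eval t • bE n U'.1 = ∑ U', (p U U').eval t • bE n U' := by
      rw [← Finset.sum_subtype (Finset.univ.filter (fun U' : Finset (Fin n) => U'.card = s))
        (p := fun U' => U'.card = s) (by simp) (fun U' => (p U U').eval t • bE n U')]
      apply Finset.sum_subset (Finset.filter_subset _ _)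
      intro U' _ hU'
      have h3 : U'.card ≠ s := fun h => hU' (Finset.mem_filter.2 ⟨Finset.mem_univ _, h⟩)
      rw [(hp U hU).2.1 U' h3]
      simp
    rw [h2]
    apply Submodule.subset_span
    rcases hh with hh | hh
    · exact ⟨1, h, Or.inl (by rw [hh, one_mul])⟩
    · exact ⟨1, h, Or.inr (by rw [hh, one_mul])⟩)
  let G := {U : Finset (Fin n) | U.card = s ∧ ¬ PBad 1 U ∧ ¬ PBad Fin.revPerm U}
  have hG : Set.ncard G = Fintype.card G := by
    rw [Set.ncard_eq_toFinset_card', Set.toFinset_card]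
  change _ ≤ Set.ncard G
  rw [hG]
  refine finrank_quotient_le (gr n s) J (fun U : G => bE n U.1) ?_ ?_
  · intro U
    rw [gr_eq_Sp]
    exact bE_mem_Sp U.2.1
  · have h4 : gr n s = Submodule.span ℂ (Set.range (fun U : ι' => bE n U.1)) := by
      rw [gr_eq_Sp, Sp]
      congr 1
      ext x
      constructor
      · rintro ⟨U, hU, rfl⟩
        exact ⟨⟨U, hU⟩, rfl⟩
      · rintro ⟨U, rfl⟩
        exact ⟨U.1, U.2, rfl⟩
    rw [h4]
    refine h1.trans (sup_le_sup_left (Submodule.span_mono ?_) _)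
    rintro _ ⟨U, hU, rfl⟩
    rw [Set.mem_setOf_eq] at hU
    exact ⟨⟨U.1, U.2, fun h => hU (Or.inl h), fun h => hU (Or.inr h)⟩, rfl⟩

end Pool.Agent.Helper58.Quad
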