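import Mathlib

set_option autoImplicit false

namespace Pool.Agent.Helper58.Quad

open Module Finset

variable {n s : ℕ}

/-- bilinear form of a matrix -/
noncomputable abbrev bl (B : Matrix (Fin n) (Fin n) ℂ) : LinearMap.BilinForm ℂ (Fin n → ℂ) :=
  Matrix.toBilin' B

/-- nondegeneracy on all even coordinate subspaces -/
def ND (B : Matrix (Fin n) (Fin n) ℂ) : Prop :=
  ∀ W : Finset (Fin n), Even W.card → ∀ x : Fin n → ℂ, (∀ a, a ∉ W → x a = 0) →
    (∀ a ∈ W, bl B (Pi.single a 1) x = 0) → x = 0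

/-- partial isotropic system -/
structure Sys (B : Matrix (Fin n) (Fin n) ℂ) (u w : Fin s → Fin n) (k : ℕ)
    (v : Fin s → Fin n → ℂ) : Prop where
  one : ∀ j : Fin s, (j : ℕ) < k → v j (u j) = 1
  supp : ∀ j : Fin s, (j : ℕ) < k → ∀ a, v j a ≠ 0 → a = u j ∨ ∃ i : Fin s, i < j ∧ a = w i
  iso : ∀ j l : Fin s, (j : ℕ) < k → (l : ℕ) < k → bl B (v j) (v l) = 0

theorem eq_sum_single (x : Fin n → ℂ) : x = ∑ a, x a • (Pi.single a (1 : ℂ) : Fin n → ℂ) := by
  funext b
  simp [Finset.sum_apply, Pi.single_apply]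

theorem sys_solve {B : Matrix (Fin n) (Fin n) ℂ} (hND : ND B)
    {u w : Fin s → Fin n} (hu : Function.Injective u)
    (hw : ∀ i j : Fin s, (i : ℕ) + 1 < s → (j : ℕ) + 1 < s → w i = w j → i = j)
    (hwu : ∀ i j : Fin s, (i : ℕ) + 1 < s → w i ≠ u j)
    {k : ℕ} (hk : k < s) {v : Fin s → Fin n → ℂ} (hv : Sys B u w k v) (r : Fin s → ℂ) :
    ∃ y : Fin n → ℂ, (∀ a, y a ≠ 0 → ∃ i : Fin s, (i : ℕ) < k ∧ a = w i) ∧
      ∀ l : Fin s, (l : ℕ) < k → bl B y (v l) = r l := by
  classical
  let c : Fin k → Fin s := Fin.castLE hk.le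
  have hcv : ∀ i : Fin k, ((c i : Fin s) : ℕ) = i := fun i => rfl
  let N : Matrix (Fin k) (Fin k) ℂ :=
    Matrix.of fun i l => bl B (Pi.single (w (c i)) 1) (v (c l))
  have hinj : Function.Injective N.mulVec := by
    rw [← Matrix.coe_mulVecLin, ← LinearMap.ker_eq_bot, LinearMap.ker_eq_bot']
    intro d hd
    obtain ⟨x, hx⟩ : ∃ x : Fin n → ℂ, x = ∑ l : Fin k, d l • v (c l) := ⟨_, rfl⟩
    set W : Finset (Fin n) := univ.image (fun i : Fin k => w (c i)) ∪
      univ.image (fun i : Fin k => u (c i)) with hW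
    have hck : ∀ i : Fin k, ((c i : Fin s) : ℕ) + 1 < s := fun i => by
      rw [hcv]; have := i.2; omega
    have hcinj : Function.Injective c := Fin.castLE_injective hk.le
    have hcard : Even W.card := by
      rw [hW, Finset.card_union_of_disjoint, Finset.card_image_of_injective,
        Finset.card_image_of_injective]
      · exact ⟨k, by simp⟩
      · exact fun i j h => hcinj (hu h)
      · exact fun i j h => hcinj (hw _ _ (hck i) (hck j) h)
      · rw [Finset.disjoint_left]
        intro a ha ha'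
        rw [Finset.mem_image] at ha ha'
        obtain ⟨i, -, rfl⟩ := ha
        obtain ⟨j, -, hj⟩ := ha'
        exact hwu _ _ (hck i) hj.symm
    have hsupp : ∀ a, a ∉ W → x a = 0 := by
      intro a ha
      rw [hx, Finset.sum_apply]
      apply Finset.sum_eq_zero
      intro l _
      rw [Pi.smul_apply]
      by_contra hne
      have h1 : v (c l) a ≠ 0 := fun h => hne (by rw [h, smul_zero])
      apply ha
      rw [hW, Finset.mem_union, Finset.mem_image, Finset.mem_image]
      rcases hv.supp (c l) l.2 a h1 with h2 | ⟨i, hi, h2⟩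
      · right; exact ⟨l, Finset.mem_univ _, h2.symm⟩
      · left
        have hi' : (i : ℕ) < k := lt_trans (Fin.lt_def.1 hi) l.2
        exact ⟨⟨i, hi'⟩, Finset.mem_univ _, h2.symm⟩
    have hwx : ∀ i : Fin k, bl B (Pi.single (w (c i)) 1) x = 0 := by
      intro i
      have h1 := congrFun hd i
      rw [Matrix.mulVecLin_apply] at h1
      simp only [Matrix.mulVec, dotProduct, Pi.zero_apply] at h1
      rw [hx, map_sum, ← h1]
      apply Finset.sum_congr rfl
      intro l _
      rw [map_smul, smul_eq_mul, mul_comm]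
      rfl
    have hvx : ∀ j : Fin k, bl B (v (c j)) x = 0 := by
      intro j
      rw [hx, map_sum]
      apply Finset.sum_eq_zero
      intro l _
      rw [map_smul, hv.iso _ _ j.2 l.2, smul_zero]
    have hx0 : x = 0 := by
      apply hND W hcard x hsupp
      intro a ha
      rw [hW, Finset.mem_union, Finset.mem_image, Finset.mem_image] at ha
      rcases ha with ⟨i, -, rfl⟩ | ⟨j, -, rfl⟩
      · exact hwx i
      · have h1 := hvx j
        rw [eq_sum_single (v (c j)), map_sum, LinearMap.sum_apply,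
          Finset.sum_eq_single (u (c j))] at h1
        · rw [map_smul, LinearMap.smul_apply, hv.one _ j.2, one_smul] at h1
          exact h1
        · intro b _ hb
          rw [map_smul, LinearMap.smul_apply]
          by_cases hvb : v (c j) b = 0
          · rw [hvb, zero_smul]
          · rcases hv.supp (c j) j.2 b hvb with h2 | ⟨i, hi, h2⟩
            · exact absurd h2 hb
            · have hi' : (i : ℕ) < k := lt_trans (Fin.lt_def.1 hi) j.2
              have h3 := hwx ⟨i, hi'⟩
              have h4 : c ⟨i, hi'⟩ = i := Fin.ext rfl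
              rw [h4] at h3
              rw [h2, h3, smul_zero]
        · intro h; exact absurd (Finset.mem_univ _) h
    funext l
    have h5 := congrFun hx0 (u (c l))
    rw [hx, Finset.sum_apply, Finset.sum_eq_single l] at h5
    · rw [Pi.smul_apply, hv.one _ l.2] at h5
      simpa using h5
    · intro j _ hj
      rw [Pi.smul_apply]
      by_cases hvb : v (c j) (u (c l)) = 0
      · rw [hvb, smul_zero]
      · exfalso
        rcases hv.supp (c j) j.2 _ hvb with h2 | ⟨i, hi, h2⟩
        · exact hj (hcinj (hu h2)).symm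
        · have hi' : (i : ℕ) < k := lt_trans (Fin.lt_def.1 hi) j.2
          exact hwu i (c l) (by omega) h2.symm
    · intro h; exact absurd (Finset.mem_univ _) h
  have hunit : IsUnit N := by
    rw [← Matrix.mulVec_injective_iff_isUnit]; exact hinj
  obtain ⟨d, hd⟩ := (Matrix.vecMul_surjective_iff_isUnit.2 hunit) (fun l => r (c l))
  refine ⟨∑ i : Fin k, d i • (Pi.single (w (c i)) (1 : ℂ) : Fin n → ℂ), ?_, ?_⟩
  · intro a ha
    rw [Finset.sum_apply] at ha
    obtain ⟨i, -, hi⟩ := Finset.exists_ne_zero_of_sum_ne_zero ha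
    refine ⟨c i, i.2, ?_⟩
    by_contra hne
    apply hi
    rw [Pi.smul_apply, Pi.single_eq_of_ne hne, smul_zero]
  · intro l hl
    have h1 := congrFun hd ⟨l, hl⟩
    have h2 : c ⟨l, hl⟩ = l := Fin.ext rfl
    rw [h2] at h1
    rw [← h1, map_sum, LinearMap.sum_apply]
    simp only [Matrix.vecMul, dotProduct]
    apply Finset.sum_congr rfl
    intro i _
    rw [map_smul, LinearMap.smul_apply, smul_eq_mul]
    congr 1

theorem Sys.mono {B : Matrix (Fin n) (Fin n) ℂ} {u w : Fin s → Fin n} {k k' : ℕ}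
    {v : Fin s → Fin n → ℂ} (h : Sys B u w k v) (hk : k' ≤ k) : Sys B u w k' v where
  one := fun j hj => h.one j (lt_of_lt_of_le hj hk)
  supp := fun j hj => h.supp j (lt_of_lt_of_le hj hk)
  iso := fun j l hj hl => h.iso j l (lt_of_lt_of_le hj hk) (lt_of_lt_of_le hl hk)

theorem bl_skew {B : Matrix (Fin n) (Fin n) ℂ} (hB : ∀ a b, B a b = - B b a)
    (x y : Fin n → ℂ) : bl B x y = - bl B y x := by
  rw [bl, Matrix.toBilin'_apply, Matrix.toBilin'_apply, Finset.sum_comm, ← Finset.sum_neg_distrib]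
  apply Finset.sum_congr rfl
  intro a _
  rw [← Finset.sum_neg_distrib]
  apply Finset.sum_congr rfl
  intro b _
  rw [hB b a]
  ring

theorem bl_self {B : Matrix (Fin n) (Fin n) ℂ} (hB : ∀ a b, B a b = - B b a)
    (x : Fin n → ℂ) : bl B x x = 0 := by
  have h := bl_skew hB x x
  have h2 : (2 : ℂ) * bl B x x = 0 := by linear_combination h
  simpa using h2

theorem sys_exists {B : Matrix (Fin n) (Fin n) ℂ} (hB : ∀ a b, B a b = - B b a) (hND : ND B)
    {u w : Fin s → Fin n} (hu : Function.Injective u)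
    (hw : ∀ i j : Fin s, (i : ℕ) + 1 < s → (j : ℕ) + 1 < s → w i = w j → i = j)
    (hwu : ∀ i j : Fin s, (i : ℕ) + 1 < s → w i ≠ u j) (k : ℕ) (hk : k ≤ s) :
    ∃ v, Sys B u w k v := by
  induction k with
  | zero =>
    exact ⟨0, ⟨fun j hj => absurd hj (Nat.not_lt_zero _), fun j hj => absurd hj (Nat.not_lt_zero _),
      fun j _ hj => absurd hj (Nat.not_lt_zero _)⟩⟩
  | succ k ih =>
    obtain ⟨v, hv⟩ := ih (Nat.le_of_succ_le hk)
    have hks : k < s := hk
    obtain ⟨y, hy1, hy2⟩ := sys_solve hND hu hw hwu hks hv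
      (fun l => - bl B (Pi.single (u ⟨k, hks⟩) 1) (v l))
    have hyu : ∀ j, y (u j) = 0 := by
      intro j
      by_contra hne
      obtain ⟨i, hi, h⟩ := hy1 _ hne
      exact hwu i j (by omega) h.symm
    set e : Fin n → ℂ := Pi.single (u ⟨k, hks⟩) 1 + y with he
    have hold : ∀ j : Fin s, (j : ℕ) < k → Function.update v ⟨k, hks⟩ e j = v j := by
      intro j hj
      rw [Function.update_of_ne]
      intro h
      rw [h] at hj
      exact lt_irrefl _ hj
    have hnew : Function.update v ⟨k, hks⟩ e ⟨k, hks⟩ = e := Function.update_self _ _ _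
    have hel : ∀ l : Fin s, (l : ℕ) < k → bl B e (v l) = 0 := by
      intro l hl
      rw [he, map_add, LinearMap.add_apply, hy2 l hl, add_neg_cancel]
    refine ⟨Function.update v ⟨k, hks⟩ e, ⟨?_, ?_, ?_⟩⟩
    · intro j hj
      rcases Nat.lt_succ_iff_lt_or_eq.1 hj with hj | hj
      · rw [hold j hj]; exact hv.one j hj
      · have : j = ⟨k, hks⟩ := Fin.ext hj
        rw [this, hnew, he, Pi.add_apply, hyu]
        simp
    · intro j hj a ha
      rcases Nat.lt_succ_iff_lt_or_eq.1 hj with hj | hj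
      · rw [hold j hj] at ha; exact hv.supp j hj a ha
      · have : j = ⟨k, hks⟩ := Fin.ext hj
        subst this
        rw [hnew, he, Pi.add_apply] at ha
        by_cases hau : a = u ⟨k, hks⟩
        · left; exact hau
        · right
          rw [Pi.single_eq_of_ne hau, zero_add] at ha
          obtain ⟨i, hi, h⟩ := hy1 a ha
          exact ⟨i, hi, h⟩
    · intro j l hj hl
      rcases Nat.lt_succ_iff_lt_or_eq.1 hj with hj | hj
      · rcases Nat.lt_succ_iff_lt_or_eq.1 hl with hl | hl
        · rw [hold j hj, hold l hl]; exact hv.iso j l hj hl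
        · have : l = ⟨k, hks⟩ := Fin.ext hl
          rw [this, hold j hj, hnew, bl_skew hB, hel j hj, neg_zero]
      · have hj' : j = ⟨k, hks⟩ := Fin.ext hj
        rcases Nat.lt_succ_iff_lt_or_eq.1 hl with hl | hl
        · rw [hj', hold l hl, hnew]; exact hel l hl
        · have hl' : l = ⟨k, hks⟩ := Fin.ext hl
          rw [hj', hl', hnew]; exact bl_self hB e

theorem sys_rec {B : Matrix (Fin n) (Fin n) ℂ} (hND : ND B)
    {u w : Fin s → Fin n} (hu : Function.Injective u)
    (hw : ∀ i j : Fin s, (i : ℕ) + 1 < s → (j : ℕ) + 1 < s → w i = w j → i = j)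
    (hwu : ∀ i j : Fin s, (i : ℕ) + 1 < s → w i ≠ u j) {v : Fin s → Fin n → ℂ}
    (hv : Sys B u w s v) (r : Fin s → Fin s → ℂ) (k : ℕ) (hk : k ≤ s) :
    ∃ y : Fin s → Fin n → ℂ,
      (∀ j : Fin s, (j : ℕ) < k → ∀ a, y j a ≠ 0 → ∃ i : Fin s, i < j ∧ a = w i) ∧
      ∀ j l : Fin s, (j : ℕ) < k → l < j → bl B (y j) (v l) + bl B (v j) (y l) = r j l := by
  induction k with
  | zero => exact ⟨0, fun j hj => absurd hj (Nat.not_lt_zero _),
      fun j l hj => absurd hj (Nat.not_lt_zero _)⟩
  | succ k ih =>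
    obtain ⟨y, hy1, hy2⟩ := ih (Nat.le_of_succ_le hk)
    have hks : k < s := hk
    obtain ⟨z, hz1, hz2⟩ := sys_solve hND hu hw hwu hks (hv.mono hks.le)
      (fun l => r ⟨k, hks⟩ l - bl B (v ⟨k, hks⟩) (y l))
    have hold : ∀ j : Fin s, (j : ℕ) < k → Function.update y ⟨k, hks⟩ z j = y j := by
      intro j hj
      rw [Function.update_of_ne]
      intro h
      rw [h] at hj
      exact lt_irrefl _ hj
    have hnew : Function.update y ⟨k, hks⟩ z ⟨k, hks⟩ = z := Function.update_self _ _ _
    refine ⟨Function.update y ⟨k, hks⟩ z, ?_, ?_⟩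
    · intro j hj a ha
      rcases Nat.lt_succ_iff_lt_or_eq.1 hj with hj | hj
      · rw [hold j hj] at ha; exact hy1 j hj a ha
      · have : j = ⟨k, hks⟩ := Fin.ext hj
        subst this
        rw [hnew] at ha
        obtain ⟨i, hi, h⟩ := hz1 a ha
        exact ⟨i, hi, h⟩
    · intro j l hj hl
      rcases Nat.lt_succ_iff_lt_or_eq.1 hj with hj | hj
      · have hlk : (l : ℕ) < k := lt_trans (Fin.lt_def.1 hl) hj
        rw [hold j hj, hold l hlk]; exact hy2 j l hj hl
      · have : j = ⟨k, hks⟩ := Fin.ext hj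
        subst this
        have hlk : (l : ℕ) < k := Fin.lt_def.1 hl
        rw [hnew, hold l hlk, hz2 l hlk]
        ring

/-- Main output for a single skew form: an isotropic system in triangular position. -/
theorem one_form_sys {B : Matrix (Fin n) (Fin n) ℂ} (hB : ∀ a b, B a b = - B b a) (hND : ND B)
    (u : Fin s → Fin n) (hu : StrictMono u) (hpre : ∀ j : Fin s, 2 * (j : ℕ) ≤ (u j : ℕ)) :
    ∃ v : Fin s → Fin n → ℂ,
      (∀ j, v j (u j) = 1) ∧ (∀ j l, l ≠ j → v j (u l) = 0) ∧
      (∀ j a, u j < a → v j a = 0) ∧ (∀ j l, bl B (v j) (v l) = 0) ∧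
      ∀ r : Fin s → Fin s → ℂ, ∃ y : Fin s → Fin n → ℂ,
        (∀ j a, y j a ≠ 0 → a < u j ∧ ∀ l, a ≠ u l) ∧
        ∀ j l, l < j → bl B (y j) (v l) + bl B (v j) (y l) = r j l := by
  classical
  set C : Finset (Fin n) := (univ.image u)ᶜ with hC
  have hcount : ∀ j : Fin s, (j : ℕ) ≤ (C.filter (fun a => a < u j)).card := by
    intro j
    have h1 : (univ.filter (fun a : Fin n => a < u j)).card = (u j : ℕ) := by
      have : univ.filter (fun a : Fin n => a < u j) = Finset.Iio (u j) := by ext; simp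
      rw [this, Fin.card_Iio]
    have h2 : ((univ.image u).filter (fun a => a < u j)).card ≤ (j : ℕ) := by
      have h3 : (univ.image u).filter (fun a => a < u j) ⊆ (Finset.Iio j).image u := by
        intro a ha
        rw [Finset.mem_filter, Finset.mem_image] at ha
        obtain ⟨⟨l, -, rfl⟩, hl⟩ := ha
        exact Finset.mem_image_of_mem _ (Finset.mem_Iio.2 (hu.lt_iff_lt.1 hl))
      refine (Finset.card_le_card h3).trans (Finset.card_image_le.trans ?_)
      rw [Fin.card_Iio]
    have h4 : univ.filter (fun a : Fin n => a < u j)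
        = C.filter (fun a => a < u j) ∪ (univ.image u).filter (fun a => a < u j) := by
      rw [← Finset.filter_union, hC, Finset.union_comm, Finset.union_compl]
    have h5 : (univ.filter (fun a : Fin n => a < u j)).card ≤
        (C.filter (fun a => a < u j)).card + ((univ.image u).filter (fun a => a < u j)).card := by
      rw [h4]; exact Finset.card_union_le _ _
    have := hpre j
    omega
  have hCcard : ∀ i : Fin s, (i : ℕ) + 1 < s → (i : ℕ) < C.card := by
    intro i hi
    have h1 := hcount ⟨i + 1, hi⟩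
    have h2 : (C.filter (fun a => a < u ⟨i + 1, hi⟩)).card ≤ C.card :=
      Finset.card_le_card (Finset.filter_subset _ _)
    have h3 : ((⟨i + 1, hi⟩ : Fin s) : ℕ) = i + 1 := rfl
    omega
  set w : Fin s → Fin n := fun i =>
    if h : (i : ℕ) < C.card then C.orderEmbOfFin rfl ⟨i, h⟩ else u i with hw_def
  have hwi : ∀ (i : Fin s) (h : (i : ℕ) < C.card), w i = C.orderEmbOfFin rfl ⟨i, h⟩ := by
    intro i h
    rw [hw_def]; exact dif_pos h
  have hwC : ∀ i : Fin s, (i : ℕ) + 1 < s → w i ∈ C := by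
    intro i hi
    rw [hwi i (hCcard i hi)]
    exact Finset.orderEmbOfFin_mem _ _ _
  have hw : ∀ i j : Fin s, (i : ℕ) + 1 < s → (j : ℕ) + 1 < s → w i = w j → i = j := by
    intro i j hi hj h
    rw [hwi i (hCcard i hi), hwi j (hCcard j hj)] at h
    have := (C.orderEmbOfFin rfl).injective h
    exact Fin.ext (by simpa using this)
  have hwu : ∀ i j : Fin s, (i : ℕ) + 1 < s → w i ≠ u j := by
    intro i j hi h
    have h1 := hwC i hi
    rw [hC, Finset.mem_compl] at h1
    apply h1
    rw [h]
    exact Finset.mem_image_of_mem _ (Finset.mem_univ _)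
  have hwlt : ∀ i j : Fin s, i < j → w i < u j := by
    intro i j hij
    by_contra hcon
    rw [not_lt] at hcon
    have hi : (i : ℕ) + 1 < s := by
      have := Fin.lt_def.1 hij
      have := j.2
      omega
    have hiC := hCcard i hi
    have h1 : (C.filter (fun a => a < u j)).card ≤ (i : ℕ) := by
      have h2 : C.filter (fun a => a < u j) ⊆
          (Finset.Iio (⟨i, hiC⟩ : Fin C.card)).image (C.orderEmbOfFin rfl) := by
        intro a ha
        rw [Finset.mem_filter] at ha
        have h3 : a ∈ Set.range (C.orderEmbOfFin rfl) := by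
          rw [Finset.range_orderEmbOfFin]; exact ha.1
        obtain ⟨m, rfl⟩ := h3
        refine Finset.mem_image_of_mem _ (Finset.mem_Iio.2 ?_)
        have h4 : C.orderEmbOfFin rfl m < C.orderEmbOfFin rfl ⟨i, hiC⟩ := by
          rw [← hwi i hiC]
          exact lt_of_lt_of_le ha.2 hcon
        exact (C.orderEmbOfFin rfl).lt_iff_lt.1 h4
      refine (Finset.card_le_card h2).trans (Finset.card_image_le.trans ?_)
      rw [Fin.card_Iio]
    have h5 := hcount j
    have h6 := Fin.lt_def.1 hij
    omega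
  obtain ⟨v, hv⟩ := sys_exists hB hND hu.injective hw hwu s le_rfl
  refine ⟨v, fun j => hv.one j j.2, ?_, ?_, fun j l => hv.iso j l j.2 l.2, ?_⟩
  · intro j l hl
    by_contra hne
    rcases hv.supp j j.2 _ hne with h | ⟨i, hi, h⟩
    · exact hl (hu.injective h)
    · exact hwu i l (by have := Fin.lt_def.1 hi; have := j.2; omega) h.symm
  · intro j a ha
    by_contra hne
    rcases hv.supp j j.2 _ hne with h | ⟨i, hi, h⟩
    · rw [h] at ha; exact lt_irrefl _ ha
    · rw [h] at ha; exact lt_asymm ha (hwlt i j hi)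
  · intro r
    obtain ⟨y, hy1, hy2⟩ := sys_rec hND hu.injective hw hwu hv r s le_rfl
    refine ⟨y, ?_, fun j l hl => hy2 j l j.2 hl⟩
    intro j a ha
    obtain ⟨i, hi, h⟩ := hy1 j j.2 a ha
    refine ⟨?_, ?_⟩
    · rw [h]; exact hwlt i j hi
    · intro l hl
      exact hwu i l (by have := Fin.lt_def.1 hi; have := j.2; omega) (h.symm.trans hl)

end Pool.Agent.Helper58.Quad
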