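import Mathlib
import Pool.Agent.Helper58.Quad.OneForm

set_option autoImplicit false

namespace Pool.Agent.Helper58.Quad

open Module Finset Filter Topology

variable {n s : ℕ}

/-- scaled matrix preferring small indices -/
def Bt (B : Matrix (Fin n) (Fin n) ℂ) (t : ℂ) : Matrix (Fin n) (Fin n) ℂ :=
  Matrix.of fun a b => t ^ ((a : ℕ) + (b : ℕ)) * B a b

/-- scaled matrix preferring large indices -/
def Ct (C : Matrix (Fin n) (Fin n) ℂ) (t : ℂ) : Matrix (Fin n) (Fin n) ℂ :=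
  Matrix.of fun a b => t ^ (2 * n - ((a : ℕ) + (b : ℕ))) * C a b

/-- auxiliary scaled system -/
def vm (u : Fin s → Fin n) (x : Fin s → Fin n → ℂ) (t : ℂ) : Fin s → Fin n → ℂ :=
  fun j a => t ^ (2 * ((a : ℕ) - (u j : ℕ))) * x j a
/-- auxiliary scaled system -/
def vp (u : Fin s → Fin n) (x : Fin s → Fin n → ℂ) (t : ℂ) : Fin s → Fin n → ℂ :=
  fun j a => t ^ (2 * ((u j : ℕ) - (a : ℕ))) * x j a
/-- auxiliary scaled system -/
def wv (u : Fin s → Fin n) (x : Fin s → Fin n → ℂ) (t : ℂ) : Fin s → Fin n → ℂ :=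
  fun j a => t ^ (((a : ℕ) - (u j : ℕ)) + ((u j : ℕ) - (a : ℕ))) * x j a

theorem bl_Bt (B : Matrix (Fin n) (Fin n) ℂ) (u : Fin s → Fin n) (x : Fin s → Fin n → ℂ) (t : ℂ)
    (j l : Fin s) : bl (Bt B t) (wv u x t j) (wv u x t l)
      = t ^ ((u j : ℕ) + (u l : ℕ)) * bl B (vm u x t j) (vm u x t l) := by
  rw [bl, bl, Matrix.toBilin'_apply, Matrix.toBilin'_apply, Finset.mul_sum]
  apply Finset.sum_congr rfl
  intro a _
  rw [Finset.mul_sum]
  apply Finset.sum_congr rfl
  intro b _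
  simp only [Bt, wv, vm, Matrix.of_apply]
  have h : t ^ (((a : ℕ) - (u j : ℕ)) + ((u j : ℕ) - (a : ℕ))) * t ^ ((a : ℕ) + (b : ℕ)) *
      t ^ (((b : ℕ) - (u l : ℕ)) + ((u l : ℕ) - (b : ℕ)))
      = t ^ ((u j : ℕ) + (u l : ℕ)) * t ^ (2 * ((a : ℕ) - (u j : ℕ))) *
        t ^ (2 * ((b : ℕ) - (u l : ℕ))) := by
    rw [← pow_add, ← pow_add, ← pow_add, ← pow_add]
    congr 1
    omega
  linear_combination (x j a * x l b * B a b) * h

theorem bl_Ct (C : Matrix (Fin n) (Fin n) ℂ) (u : Fin s → Fin n) (x : Fin s → Fin n → ℂ) (t : ℂ)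
    (j l : Fin s) : bl (Ct C t) (wv u x t j) (wv u x t l)
      = t ^ (2 * n - ((u j : ℕ) + (u l : ℕ))) * bl C (vp u x t j) (vp u x t l) := by
  rw [bl, bl, Matrix.toBilin'_apply, Matrix.toBilin'_apply, Finset.mul_sum]
  apply Finset.sum_congr rfl
  intro a _
  rw [Finset.mul_sum]
  apply Finset.sum_congr rfl
  intro b _
  simp only [Ct, wv, vp, Matrix.of_apply]
  have h : t ^ (((a : ℕ) - (u j : ℕ)) + ((u j : ℕ) - (a : ℕ))) *
      t ^ (2 * n - ((a : ℕ) + (b : ℕ))) *
      t ^ (((b : ℕ) - (u l : ℕ)) + ((u l : ℕ) - (b : ℕ)))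
      = t ^ (2 * n - ((u j : ℕ) + (u l : ℕ))) * t ^ (2 * ((u j : ℕ) - (a : ℕ))) *
        t ^ (2 * ((u l : ℕ) - (b : ℕ))) := by
    rw [← pow_add, ← pow_add, ← pow_add, ← pow_add]
    congr 1
    have h1 := a.2
    have h2 := b.2
    have h3 := (u j).2
    have h4 := (u l).2
    omega
  linear_combination (x j a * x l b * C a b) * h

/-- index set of pairs -/
abbrev IP (s : ℕ) := {p : Fin s × Fin s // p.2 < p.1}

/-- the nonlinear map -/
noncomputable def Psi (B C : Matrix (Fin n) (Fin n) ℂ) (u : Fin s → Fin n)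
    (p : (Fin s → Fin n → ℂ) × ℂ) : ((IP s → ℂ) × (IP s → ℂ)) × ℂ :=
  ((fun q => bl B (vm u p.1 p.2 q.1.1) (vm u p.1 p.2 q.1.2),
    fun q => bl C (vp u p.1 p.2 q.1.1) (vp u p.1 p.2 q.1.2)), p.2)

theorem contDiff_Psi (B C : Matrix (Fin n) (Fin n) ℂ) (u : Fin s → Fin n) :
    ContDiff ℂ 1 (Psi B C u) := by
  unfold Psi
  simp only [bl, Matrix.toBilin'_apply, vm, vp]
  refine ContDiff.prodMk (ContDiff.prodMk ?_ ?_) contDiff_snd
  · rw [contDiff_pi]
    intro q
    apply ContDiff.sum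
    intro a _
    apply ContDiff.sum
    intro b _
    fun_prop
  · rw [contDiff_pi]
    intro q
    apply ContDiff.sum
    intro a _
    apply ContDiff.sum
    intro b _
    fun_prop

theorem vm_zero_add (u : Fin s → Fin n) (x y : Fin s → Fin n → ℂ) (ε : ℂ) (j : Fin s) :
    vm u (x + ε • y) 0 j = vm u x 0 j + ε • vm u y 0 j := by
  funext a
  simp only [vm, Pi.add_apply, Pi.smul_apply, smul_eq_mul]
  ring

theorem vp_zero_add (u : Fin s → Fin n) (x y : Fin s → Fin n → ℂ) (ε : ℂ) (j : Fin s) :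
    vp u (x + ε • y) 0 j = vp u x 0 j + ε • vp u y 0 j := by
  funext a
  simp only [vp, Pi.add_apply, Pi.smul_apply, smul_eq_mul]
  ring

theorem hasDerivAt_bl (B : Matrix (Fin n) (Fin n) ℂ) (a b c d : Fin n → ℂ) :
    HasDerivAt (fun ε : ℂ => bl B (a + ε • b) (c + ε • d)) (bl B b c + bl B a d) 0 := by
  have h : (fun ε : ℂ => bl B (a + ε • b) (c + ε • d)) =
      fun ε : ℂ => bl B a c + ε * (bl B b c + bl B a d) + ε ^ 2 * bl B b d := by
    funext ε
    simp only [map_add, map_smul, LinearMap.add_apply, LinearMap.smul_apply, smul_eq_mul]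
    ring
  rw [h]
  have h1 : HasDerivAt (fun ε : ℂ => bl B a c + ε * (bl B b c + bl B a d) + ε ^ 2 * bl B b d)
      (0 + 1 * (bl B b c + bl B a d) + (2 * (0 : ℂ) ^ 1 * 1) * bl B b d) 0 := by
    refine HasDerivAt.add (HasDerivAt.add (hasDerivAt_const _ _) ?_) ?_
    · exact (hasDerivAt_id' 0).mul_const _
    · refine HasDerivAt.mul_const ?_ _
      have := hasDerivAt_pow 2 (0 : ℂ)
      simpa using this
  simpa using h1

theorem ift_main {B C : Matrix (Fin n) (Fin n) ℂ} (hB : ∀ a b, B a b = - B b a)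
    (hC : ∀ a b, C a b = - C b a) (u : Fin s → Fin n) {vB vC : Fin s → Fin n → ℂ}
    (hB1 : ∀ j, vB j (u j) = 1)
    (hB3 : ∀ j a, u j < a → vB j a = 0) (hB4 : ∀ j l, bl B (vB j) (vB l) = 0)
    (hB5 : ∀ r : Fin s → Fin s → ℂ, ∃ y : Fin s → Fin n → ℂ,
        (∀ j a, y j a ≠ 0 → a < u j ∧ ∀ l, a ≠ u l) ∧
        ∀ j l, l < j → bl B (y j) (vB l) + bl B (vB j) (y l) = r j l)
    (hC1 : ∀ j, vC j (u j) = 1)
    (hC3 : ∀ j a, a < u j → vC j a = 0) (hC4 : ∀ j l, bl C (vC j) (vC l) = 0)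
    (hC5 : ∀ r : Fin s → Fin s → ℂ, ∃ y : Fin s → Fin n → ℂ,
        (∀ j a, y j a ≠ 0 → u j < a ∧ ∀ l, a ≠ u l) ∧
        ∀ j l, j < l → bl C (y j) (vC l) + bl C (vC j) (y l) = r j l)
    (V : Set (Fin s → Fin n → ℂ)) (hV : V ∈ 𝓝 (fun j => Pi.single (u j) (1 : ℂ))) :
    ∀ᶠ t : ℂ in 𝓝 0, ∃ w ∈ V, (∀ j l, bl (Bt B t) (w j) (w l) = 0) ∧
      (∀ j l, bl (Ct C t) (w j) (w l) = 0) := by
  classical
  set x0 : Fin s → Fin n → ℂ := fun j a => if a ≤ u j then vB j a else vC j a with hx0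
  have hvm0 : ∀ j, vm u x0 0 j = vB j := by
    intro j
    funext a
    simp only [vm, hx0]
    by_cases h : a ≤ u j
    · rw [if_pos h]
      have : (a : ℕ) - (u j : ℕ) = 0 := Nat.sub_eq_zero_of_le h
      rw [this]; simp
    · rw [if_neg h]
      have h2 : u j < a := not_le.1 h
      have h3 : 2 * ((a : ℕ) - (u j : ℕ)) ≠ 0 := by
        have := Fin.lt_def.1 h2
        omega
      rw [zero_pow h3, zero_mul, hB3 j a h2]
  have hvp0 : ∀ j, vp u x0 0 j = vC j := by
    intro j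
    funext a
    simp only [vp, hx0]
    rcases lt_trichotomy a (u j) with h | h | h
    · have h3 : 2 * ((u j : ℕ) - (a : ℕ)) ≠ 0 := by
        have := Fin.lt_def.1 h
        omega
      rw [zero_pow h3, zero_mul, hC3 j a h]
    · rw [if_pos h.le, h, hB1, hC1]; simp
    · rw [if_neg (not_le.2 h)]
      have : (u j : ℕ) - (a : ℕ) = 0 := Nat.sub_eq_zero_of_le h.le
      rw [this]; simp
  have hcd : ContDiffAt ℂ 1 (Psi B C u) (x0, 0) := (contDiff_Psi B C u).contDiffAt
  have hstrict := hcd.hasStrictFDerivAt one_ne_zero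
  set D := fderiv ℂ (Psi B C u) (x0, 0) with hD
  have hfd : HasFDerivAt (Psi B C u) D (x0, 0) := hstrict.hasFDerivAt
  have hsnd : ∀ v, (D v).2 = v.2 := by
    intro v
    have h1 : HasFDerivAt (fun p => (Psi B C u p).2)
        ((ContinuousLinearMap.snd ℂ _ _).comp D) (x0, 0) := hfd.snd
    have h2 : HasFDerivAt (fun p : (Fin s → Fin n → ℂ) × ℂ => p.2)
        (ContinuousLinearMap.snd ℂ (Fin s → Fin n → ℂ) ℂ) (x0, 0) := hasFDerivAt_snd
    have h3 := h1.unique h2
    exact congrArg (fun L => L v) h3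
  have hfst : ∀ y : Fin s → Fin n → ℂ, (D (y, 0)).1 =
      (fun q => bl B (vm u y 0 q.1.1) (vB q.1.2) + bl B (vB q.1.1) (vm u y 0 q.1.2),
       fun q => bl C (vp u y 0 q.1.1) (vC q.1.2) + bl C (vC q.1.1) (vp u y 0 q.1.2)) := by
    intro y
    have h1 : HasDerivAt (fun ε : ℂ => Psi B C u ((x0, 0) + ε • (y, 0))) (D (y, 0)) 0 := by
      have := hfd.hasLineDerivAt (y, 0)
      exact this
    have h2 : HasDerivAt (fun ε : ℂ => (Psi B C u ((x0, 0) + ε • (y, 0))).1)
        (D (y, 0)).1 0 := h1.fst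
    have h3 : HasDerivAt (fun ε : ℂ => (Psi B C u ((x0, 0) + ε • (y, 0))).1)
        (fun q => bl B (vm u y 0 q.1.1) (vB q.1.2) + bl B (vB q.1.1) (vm u y 0 q.1.2),
       fun q => bl C (vp u y 0 q.1.1) (vC q.1.2) + bl C (vC q.1.1) (vp u y 0 q.1.2)) 0 := by
      have h4 : (fun ε : ℂ => (Psi B C u ((x0, 0) + ε • (y, 0))).1) =
          fun ε : ℂ => ((fun q => bl B (vB q.1.1 + ε • vm u y 0 q.1.1)
              (vB q.1.2 + ε • vm u y 0 q.1.2)),
            (fun q => bl C (vC q.1.1 + ε • vp u y 0 q.1.1) (vC q.1.2 + ε • vp u y 0 q.1.2))) := by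
        funext ε
        simp only [Psi, Prod.smul_mk, Prod.mk_add_mk, smul_zero, add_zero]
        simp only [vm_zero_add, vp_zero_add, hvm0, hvp0]
      rw [h4]
      refine HasDerivAt.prodMk ?_ ?_
      · rw [hasDerivAt_pi]
        intro q
        exact hasDerivAt_bl B _ _ _ _
      · rw [hasDerivAt_pi]
        intro q
        exact hasDerivAt_bl C _ _ _ _
    exact h2.unique h3
  have hsurj : D.range = ⊤ := by
    rw [LinearMap.range_eq_top]
    rintro ⟨⟨r1, r2⟩, ρ⟩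
    set g := (D (0, ρ)).1 with hg
    obtain ⟨yB, hyB1, hyB2⟩ := hB5 (fun j l => if h : l < j then (r1 - g.1) ⟨(j, l), h⟩ else 0)
    obtain ⟨yC, hyC1, hyC2⟩ := hC5 (fun l j => if h : l < j then -(r2 - g.2) ⟨(j, l), h⟩ else 0)
    set y : Fin s → Fin n → ℂ :=
      fun j a => if a < u j then yB j a else if u j < a then yC j a else 0 with hy
    have hvm : ∀ j, vm u y 0 j = yB j := by
      intro j
      funext a
      simp only [vm, hy]
      rcases lt_trichotomy a (u j) with h | h | h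
      · rw [if_pos h]
        have : (a : ℕ) - (u j : ℕ) = 0 := Nat.sub_eq_zero_of_le h.le
        rw [this]; simp
      · have h0 : yB j a = 0 := by
          by_contra hne
          exact absurd (hyB1 j a hne).1 (by rw [h]; exact lt_irrefl _)
        rw [h0, if_neg (by rw [h]; exact lt_irrefl _), if_neg (by rw [h]; exact lt_irrefl _),
          mul_zero]
      · have h3 : 2 * ((a : ℕ) - (u j : ℕ)) ≠ 0 := by
          have := Fin.lt_def.1 h
          omega
        have h0 : yB j a = 0 := by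
          by_contra hne
          exact absurd (hyB1 j a hne).1 (not_lt.2 h.le)
        rw [zero_pow h3, zero_mul, h0]
    have hvp : ∀ j, vp u y 0 j = yC j := by
      intro j
      funext a
      simp only [vp, hy]
      rcases lt_trichotomy a (u j) with h | h | h
      · have h3 : 2 * ((u j : ℕ) - (a : ℕ)) ≠ 0 := by
          have := Fin.lt_def.1 h
          omega
        have h0 : yC j a = 0 := by
          by_contra hne
          exact absurd (hyC1 j a hne).1 (not_lt.2 h.le)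
        rw [zero_pow h3, zero_mul, h0]
      · have h0 : yC j a = 0 := by
          by_contra hne
          exact absurd (hyC1 j a hne).1 (by rw [h]; exact lt_irrefl _)
        rw [h0, if_neg (by rw [h]; exact lt_irrefl _), if_neg (by rw [h]; exact lt_irrefl _),
          mul_zero]
      · rw [if_neg (not_lt.2 h.le), if_pos h]
        have : (u j : ℕ) - (a : ℕ) = 0 := Nat.sub_eq_zero_of_le h.le
        rw [this]; simp
    refine ⟨(y, ρ), ?_⟩
    have hsplit : ((y, ρ) : (Fin s → Fin n → ℂ) × ℂ) = (y, 0) + (0, ρ) := by simp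
    have h1 : D (y, ρ) = D (y, 0) + D (0, ρ) := by rw [hsplit, map_add]
    have h2 : (D (y, ρ)).2 = ρ := hsnd _
    have h3 : (D (y, ρ)).1 = (r1, r2) := by
      rw [h1, Prod.fst_add, hfst, ← hg]
      simp only [hvm, hvp]
      refine Prod.ext ?_ ?_
      · funext q
        have h4 := hyB2 q.1.1 q.1.2 q.2
        rw [dif_pos q.2] at h4
        rw [Prod.fst_add, Pi.add_apply]
        dsimp only
        rw [h4, Pi.sub_apply]
        ring
      · funext q
        have h4 := hyC2 q.1.2 q.1.1 q.2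
        rw [dif_pos q.2] at h4
        rw [Prod.snd_add, Pi.add_apply]
        dsimp only
        rw [bl_skew hC (yC q.1.1), bl_skew hC (vC q.1.1)]
        have h5 : -(r2 - g.2) ⟨(q.1.1, q.1.2), q.2⟩ = -(r2 q - g.2 q) := rfl
        rw [h5] at h4
        linear_combination -h4
    exact Prod.ext h3 h2
  have hPsi0 : Psi B C u (x0, 0) = 0 := by
    simp only [Psi, hvm0, hvp0, hB4, hC4]
    rfl
  have hmap := hstrict.map_nhds_eq_of_surj hsurj
  rw [hPsi0] at hmap
  -- continuity of the frame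
  have hcont : Continuous (fun p : (Fin s → Fin n → ℂ) × ℂ => wv u p.1 p.2) := by
    unfold wv
    fun_prop
  have hw0 : wv u x0 0 = fun j => Pi.single (u j) (1 : ℂ) := by
    funext j a
    simp only [wv, hx0]
    rcases lt_trichotomy a (u j) with h | h | h
    · have h3 : ((a : ℕ) - (u j : ℕ)) + ((u j : ℕ) - (a : ℕ)) ≠ 0 := by
        have := Fin.lt_def.1 h
        omega
      rw [zero_pow h3, zero_mul, Pi.single_eq_of_ne h.ne]
    · rw [h, if_pos le_rfl, hB1, Pi.single_eq_same]; simp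
    · have h3 : ((a : ℕ) - (u j : ℕ)) + ((u j : ℕ) - (a : ℕ)) ≠ 0 := by
        have := Fin.lt_def.1 h
        omega
      rw [zero_pow h3, zero_mul, Pi.single_eq_of_ne h.ne']
  have hN : (fun p : (Fin s → Fin n → ℂ) × ℂ => wv u p.1 p.2) ⁻¹' V ∈ 𝓝 (x0, (0 : ℂ)) := by
    apply hcont.continuousAt.preimage_mem_nhds
    dsimp only
    rw [hw0]
    exact hV
  have hN2 : Psi B C u '' ((fun p : (Fin s → Fin n → ℂ) × ℂ => wv u p.1 p.2) ⁻¹' V) ∈
      𝓝 (0 : ((IP s → ℂ) × (IP s → ℂ)) × ℂ) := by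
    rw [← hmap]
    exact Filter.image_mem_map hN
  have hcont2 : ContinuousAt (fun t : ℂ => ((0, t) : ((IP s → ℂ) × (IP s → ℂ)) × ℂ)) 0 := by
    fun_prop
  have hN3 := hcont2.preimage_mem_nhds hN2
  filter_upwards [hN3] with t ht
  obtain ⟨⟨x, t'⟩, hx, hxt⟩ := ht
  have ht' : t' = t := congrArg Prod.snd hxt
  subst ht'
  have hx1 : (Psi B C u (x, t')).1 = 0 := congrArg Prod.fst hxt
  have hb : ∀ q : IP s, bl B (vm u x t' q.1.1) (vm u x t' q.1.2) = 0 := fun q =>
    congrFun (congrArg Prod.fst hx1) q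
  have hc : ∀ q : IP s, bl C (vp u x t' q.1.1) (vp u x t' q.1.2) = 0 := fun q =>
    congrFun (congrArg Prod.snd hx1) q
  refine ⟨wv u x t', hx, ?_, ?_⟩
  · intro j l
    rw [bl_Bt]
    rcases lt_trichotomy l j with h | h | h
    · rw [hb ⟨(j, l), h⟩, mul_zero]
    · rw [h, bl_self hB, mul_zero]
    · rw [bl_skew hB, hb ⟨(l, j), h⟩, neg_zero, mul_zero]
  · intro j l
    rw [bl_Ct]
    rcases lt_trichotomy l j with h | h | h
    · rw [hc ⟨(j, l), h⟩, mul_zero]
    · rw [h, bl_self hC, mul_zero]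
    · rw [bl_skew hC, hc ⟨(l, j), h⟩, neg_zero, mul_zero]

end Pool.Agent.Helper58.Quad
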