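import Mathlib
import Pool.Agent.Helper58.Quad.ExtBasic
import Pool.Agent.Helper58.Quad.ExtUpper
import Pool.Agent.Helper58.Quad.Semi
import Pool.Agent.Helper58.Quad.Ift

set_option autoImplicit false

namespace Pool.Agent.Helper58.Quad

open Module Finset Filter Topology

variable {n s : ℕ}

/-- top degree functional on the exterior algebra of `ℂ^s` -/
noncomputable def detFun (s : ℕ) : ExteriorAlgebra ℂ (Fin s → ℂ) →ₗ[ℂ] ℂ :=
  ExteriorAlgebra.liftAlternating (Function.update 0 s Matrix.detRowAlternating)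

/-- linear map given by the rows `w j` -/
noncomputable def phi (w : Fin s → Fin n → ℂ) : (Fin n → ℂ) →ₗ[ℂ] (Fin s → ℂ) :=
  Matrix.mulVecLin (Matrix.of w)

theorem phi_single (w : Fin s → Fin n → ℂ) (a : Fin n) :
    phi w (Pi.single a 1) = fun j => w j a := by
  funext j
  simp [phi]

/-- functional attached to a system of vectors -/
noncomputable def Lw (w : Fin s → Fin n → ℂ) : EA n →ₗ[ℂ] ℂ :=
  detFun s ∘ₗ (ExteriorAlgebra.map (phi w)).toLinearMap

theorem Lw_bE (w : Fin s → Fin n → ℂ) (U : Finset (Fin n)) (hU : U.card = s) :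
    Lw w (bE n U) = Matrix.det (Matrix.of fun i j => w j (U.orderEmbOfFin hU i)) := by
  rw [bE_apply_emb U hU, Lw, LinearMap.comp_apply, AlgHom.toLinearMap_apply,
    ExteriorAlgebra.map_apply_ιMulti, detFun, ExteriorAlgebra.liftAlternating_apply_ιMulti,
    Function.update_self]
  have h : (⇑(phi w) ∘ fun j => (Pi.single (U.orderEmbOfFin hU j) (1 : ℂ) : Fin n → ℂ))
      = (Matrix.of fun i j => w j (U.orderEmbOfFin hU i)) := by
    funext i
    rw [Function.comp_apply, phi_single]
    rfl
  rw [h]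
  rfl

/-- quadratic form element attached to a matrix -/
noncomputable def qf (B : Matrix (Fin n) (Fin n) ℂ) : EA n :=
  ∑ a, ∑ b, B a b • (eι a * eι b)

theorem qf_mem (B : Matrix (Fin n) (Fin n) ℂ) : qf B ∈ gr n 2 :=
  Submodule.sum_mem _ (fun a _ => Submodule.sum_mem _
    (fun b _ => Submodule.smul_mem _ _ (eι_mul_eι_mem a b)))

theorem map_phi_eι (w : Fin s → Fin n → ℂ) (a : Fin n) :
    ExteriorAlgebra.map (phi w) (eι a) = ∑ j, w j a • (eι j : EA s) := by
  rw [eι, ExteriorAlgebra.map_apply_ι, phi_single]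
  have h : (fun j => w j a) = ∑ j, w j a • (Pi.single j (1 : ℂ) : Fin s → ℂ) := by
    funext b
    simp [Finset.sum_apply, Pi.single_apply]
  rw [h, map_sum]
  simp only [map_smul]
  rfl

theorem bilin_expand {A : Type*} [Ring A] [Algebra ℂ A] {n s : ℕ} (B : Fin n → Fin n → ℂ)
    (w : Fin s → Fin n → ℂ) (e : Fin s → A) :
    ∑ a, ∑ b, B a b • ((∑ j, w j a • e j) * (∑ l, w l b • e l))
      = ∑ j, ∑ l, (∑ a, ∑ b, w j a * B a b * w l b) • (e j * e l) := by
  have h1 : ∀ a b, B a b • ((∑ j, w j a • e j) * (∑ l, w l b • e l))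
      = ∑ j, ∑ l, (w j a * B a b * w l b) • (e j * e l) := by
    intro a b
    rw [Finset.sum_mul, Finset.smul_sum]
    apply Finset.sum_congr rfl
    intro j _
    rw [Finset.mul_sum, Finset.smul_sum]
    apply Finset.sum_congr rfl
    intro l _
    rw [smul_mul_assoc, mul_smul_comm, smul_smul, smul_smul]
    congr 1
    ring
  simp only [h1, Finset.sum_smul]
  have h2 : ∀ a, ∑ b, ∑ j, ∑ l, (w j a * B a b * w l b) • (e j * e l)
      = ∑ j, ∑ l, ∑ b, (w j a * B a b * w l b) • (e j * e l) := by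
    intro a
    rw [Finset.sum_comm]
    apply Finset.sum_congr rfl
    intro j _
    rw [Finset.sum_comm]
  simp only [h2]
  rw [Finset.sum_comm]
  apply Finset.sum_congr rfl
  intro j _
  rw [Finset.sum_comm]

theorem map_phi_qf (w : Fin s → Fin n → ℂ) (B : Matrix (Fin n) (Fin n) ℂ)
    (h : ∀ j l, bl B (w j) (w l) = 0) : ExteriorAlgebra.map (phi w) (qf B) = 0 := by
  have h1 : ExteriorAlgebra.map (phi w) (qf B)
      = ∑ a, ∑ b, B a b • ((∑ j, w j a • (eι j : EA s)) * (∑ l, w l b • (eι l : EA s))) := by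
    rw [qf, map_sum]
    apply Finset.sum_congr rfl
    intro a _
    rw [map_sum]
    apply Finset.sum_congr rfl
    intro b _
    rw [map_smul, map_mul, map_phi_eι, map_phi_eι]
  rw [h1]
  refine (bilin_expand (fun a b => B a b) w (fun j => (eι j : EA s))).trans ?_
  refine Finset.sum_eq_zero (fun j _ => Finset.sum_eq_zero (fun l _ => ?_))
  have h2 := h j l
  rw [bl, Matrix.toBilin'_apply] at h2
  rw [h2, zero_smul]

/-- the two-sided ideal -/
noncomputable abbrev JJ (f g : EA n) : Submodule ℂ (EA n) :=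
  Submodule.span ℂ {x : EA n | ∃ u v : EA n, x = u * f * v ∨ x = u * g * v}

theorem Lw_eq_zero (w : Fin s → Fin n → ℂ) {f g : EA n}
    (hf : ExteriorAlgebra.map (phi w) f = 0) (hg : ExteriorAlgebra.map (phi w) g = 0)
    {x : EA n} (hx : x ∈ JJ f g) : Lw w x = 0 := by
  induction hx using Submodule.span_induction with
  | mem a ha =>
    obtain ⟨u, v, rfl | rfl⟩ := ha
    · rw [Lw, LinearMap.comp_apply, AlgHom.toLinearMap_apply, map_mul (ExteriorAlgebra.map (phi w)),
        map_mul (ExteriorAlgebra.map (phi w)), hf, mul_zero, zero_mul, map_zero]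
    · rw [Lw, LinearMap.comp_apply, AlgHom.toLinearMap_apply, map_mul (ExteriorAlgebra.map (phi w)),
        map_mul (ExteriorAlgebra.map (phi w)), hg, mul_zero, zero_mul, map_zero]
  | zero => exact map_zero _
  | add b c _ _ hb hc => rw [map_add, hb, hc, add_zero]
  | smul t b _ hb => rw [map_smul, hb, smul_zero]

/-- the good sets -/
def Good (n s : ℕ) : Set (Finset (Fin n)) :=
  {U : Finset (Fin n) | U.card = s ∧ ¬ PBad 1 U ∧ ¬ PBad Fin.revPerm U}

theorem pre_of_not_PBad {U : Finset (Fin n)} (hU : U.card = s) (h : ¬ PBad 1 U) (j : Fin s) :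
    2 * (j : ℕ) ≤ (U.orderEmbOfFin hU j : ℕ) := by
  by_contra hcon
  rw [not_le] at hcon
  apply h
  set u := U.orderEmbOfFin hU with hu
  have hpos : ∀ a : Fin n, pos 1 a = (a : ℕ) := fun a => rfl
  by_cases hj : 2 * (j : ℕ) ≤ n
  · refine ⟨j, hj, ?_⟩
    have h1 : (Finset.Iic j).image u ⊆ U.filter (fun a => pos 1 a < 2 * (j : ℕ)) := by
      intro a ha
      rw [Finset.mem_image] at ha
      obtain ⟨i, hi, rfl⟩ := ha
      rw [Finset.mem_filter, hpos]
      refine ⟨Finset.orderEmbOfFin_mem _ _ _, ?_⟩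
      have h2 : u i ≤ u j := u.monotone (Finset.mem_Iic.1 hi)
      have h3 := Fin.le_def.1 h2
      omega
    have h4 := Finset.card_le_card h1
    rw [Finset.card_image_of_injective _ u.injective, Fin.card_Iic] at h4
    exact h4
  · have h5 := (u j).2
    refine ⟨n / 2, by omega, ?_⟩
    have h1 : (Finset.Iio j).image u ⊆ U.filter (fun a => pos 1 a < 2 * (n / 2)) := by
      intro a ha
      rw [Finset.mem_image] at ha
      obtain ⟨i, hi, rfl⟩ := ha
      rw [Finset.mem_filter, hpos]
      refine ⟨Finset.orderEmbOfFin_mem _ _ _, ?_⟩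
      have h2 : u i < u j := u.strictMono (Finset.mem_Iio.1 hi)
      have h3 := Fin.lt_def.1 h2
      omega
    have h4 := Finset.card_le_card h1
    rw [Finset.card_image_of_injective _ u.injective, Fin.card_Iio] at h4
    omega

theorem orderEmb_rev (U : Finset (Fin n)) (hU : U.card = s)
    (hU' : (U.image Fin.rev).card = s) (j : Fin s) :
    (U.image Fin.rev).orderEmbOfFin hU' j = Fin.rev (U.orderEmbOfFin hU (Fin.rev j)) := by
  have h : (fun j : Fin s => Fin.rev (U.orderEmbOfFin hU (Fin.rev j)))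
      = ⇑((U.image Fin.rev).orderEmbOfFin hU') := by
    apply Finset.orderEmbOfFin_unique hU'
    · intro x
      exact Finset.mem_image_of_mem _ (Finset.orderEmbOfFin_mem _ _ _)
    · intro a b hab
      apply Fin.rev_lt_rev.2
      apply (U.orderEmbOfFin hU).strictMono
      exact Fin.rev_lt_rev.2 hab
  exact (congrFun h j).symm

theorem suf_of_not_PBad {U : Finset (Fin n)} (hU : U.card = s) (h : ¬ PBad Fin.revPerm U)
    (j : Fin s) :
    2 * (j : ℕ) ≤ (Fin.rev (U.orderEmbOfFin hU (Fin.rev j)) : ℕ) := by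
  have hU' : (U.image Fin.rev).card = s := by
    rw [Finset.card_image_of_injective _ Fin.rev_injective, hU]
  have h' : ¬ PBad 1 (U.image Fin.rev) := by
    rintro ⟨m, hm, hc⟩
    apply h
    refine ⟨m, hm, ?_⟩
    refine hc.trans ?_
    have h1 : (U.image Fin.rev).filter (fun j => pos 1 j < 2 * m) =
        (U.filter (fun j => pos Fin.revPerm j < 2 * m)).image Fin.rev := by
      rw [Finset.filter_image]
      rfl
    rw [h1, Finset.card_image_of_injective _ Fin.rev_injective]
  have := pre_of_not_PBad hU' h' j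
  rwa [orderEmb_rev U hU hU' j] at this

theorem bl_rev (C : Matrix (Fin n) (Fin n) ℂ) (x y : Fin n → ℂ) :
    bl (C.submatrix Fin.rev Fin.rev) (fun a => x (Fin.rev a)) (fun a => y (Fin.rev a))
      = bl C x y := by
  rw [bl, bl, Matrix.toBilin'_apply, Matrix.toBilin'_apply]
  simp only [Matrix.submatrix_apply]
  rw [← Equiv.sum_comp Fin.revPerm (fun a => ∑ b, x a * C a b * y b)]
  apply Finset.sum_congr rfl
  intro a _
  rw [← Equiv.sum_comp Fin.revPerm (fun b => x (Fin.revPerm a) * C (Fin.revPerm a) b * y b)]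
  rfl

theorem ND_rev {C : Matrix (Fin n) (Fin n) ℂ} (h : ND C) : ND (C.submatrix Fin.rev Fin.rev) := by
  classical
  intro W hW x hx hWx
  have h1 : (fun a => x (Fin.rev a)) = (0 : Fin n → ℂ) := by
    apply h (W.image Fin.rev)
    · rwa [Finset.card_image_of_injective _ Fin.rev_injective]
    · intro a ha
      apply hx
      intro hmem
      apply ha
      have := Finset.mem_image_of_mem Fin.rev hmem
      rwa [Fin.rev_rev] at this
    · intro a ha
      rw [Finset.mem_image] at ha
      obtain ⟨b, hb, rfl⟩ := ha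
      have h2 := hWx b hb
      rw [← bl_rev]
      have e1 : (fun a => (Pi.single (Fin.rev b) (1 : ℂ) : Fin n → ℂ) (Fin.rev a))
          = Pi.single b (1 : ℂ) := by
        funext a
        by_cases hab : a = b
        · subst hab; simp
        · rw [Pi.single_eq_of_ne hab, Pi.single_eq_of_ne]
          exact fun h => hab (Fin.rev_injective h)
      have e2 : (fun a => x (Fin.rev (Fin.rev a))) = x := by
        funext a; rw [Fin.rev_rev]
      rw [e1, e2]
      exact h2
  funext a
  have := congrFun h1 (Fin.rev a)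
  simpa using this

/-- reversed version of `one_form_sys` -/
theorem one_form_sys_rev {C : Matrix (Fin n) (Fin n) ℂ} (hC : ∀ a b, C a b = - C b a)
    (hND : ND C) (u : Fin s → Fin n) (hu : StrictMono u)
    (hsuf : ∀ j : Fin s, 2 * (j : ℕ) ≤ (Fin.rev (u (Fin.rev j)) : ℕ)) :
    ∃ v : Fin s → Fin n → ℂ,
      (∀ j, v j (u j) = 1) ∧ 
      (∀ j a, a < u j → v j a = 0) ∧ (∀ j l, bl C (v j) (v l) = 0) ∧
      ∀ r : Fin s → Fin s → ℂ, ∃ y : Fin s → Fin n → ℂ,
        (∀ j a, y j a ≠ 0 → u j < a ∧ ∀ l, a ≠ u l) ∧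
        ∀ j l, j < l → bl C (y j) (v l) + bl C (v j) (y l) = r j l := by
  have hu' : StrictMono (fun j : Fin s => Fin.rev (u (Fin.rev j))) := by
    intro a b hab
    exact Fin.rev_lt_rev.2 (hu (Fin.rev_lt_rev.2 hab))
  obtain ⟨v, h1, -, h3, h4, h5⟩ := one_form_sys (B := C.submatrix Fin.rev Fin.rev)
    (fun a b => hC _ _) (ND_rev hND) (fun j : Fin s => Fin.rev (u (Fin.rev j))) hu' hsuf
  have hbl : ∀ x y : Fin n → ℂ, bl C (fun a => x (Fin.rev a)) (fun a => y (Fin.rev a))
      = bl (C.submatrix Fin.rev Fin.rev) x y := by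
    intro x y
    rw [← bl_rev]
    simp only [Fin.rev_rev]
  refine ⟨fun j a => v (Fin.rev j) (Fin.rev a), ?_, ?_, ?_, ?_⟩
  · intro j
    have := h1 (Fin.rev j)
    simpa using this
  · intro j a ha
    apply h3
    rw [Fin.rev_rev]
    exact Fin.rev_lt_rev.2 ha
  · intro j l
    rw [hbl]
    exact h4 _ _
  · intro r
    obtain ⟨y, hy1, hy2⟩ := h5 (fun j l => r (Fin.rev j) (Fin.rev l))
    refine ⟨fun j a => y (Fin.rev j) (Fin.rev a), ?_, ?_⟩
    · intro j a ha
      obtain ⟨h6, h7⟩ := hy1 _ _ ha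
      rw [Fin.rev_rev] at h6
      refine ⟨Fin.rev_lt_rev.1 h6, ?_⟩
      intro l hl
      apply h7 (Fin.rev l)
      rw [Fin.rev_rev, hl]
    · intro j l hjl
      rw [hbl, hbl]
      have := hy2 (Fin.rev j) (Fin.rev l) (Fin.rev_lt_rev.2 hjl)
      rw [this, Fin.rev_rev, Fin.rev_rev]

noncomputable instance : FiniteDimensional ℂ (EA n) := Module.Finite.of_basis (bE n)

/-- Lower bound for the special family. -/
theorem special_lower {B C : Matrix (Fin n) (Fin n) ℂ} (hB : ∀ a b, B a b = - B b a)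
    (hC : ∀ a b, C a b = - C b a) (hBN : ND B) (hCN : ND C) (s : ℕ) :
    ∀ᶠ t : ℂ in 𝓝 0, Set.ncard (Good n s) ≤
      finrank ℂ (↥(gr n s) ⧸ Submodule.comap (gr n s).subtype
        (JJ (qf (Bt B t)) (qf (Ct C t)))) := by
  classical
  let G := {U : Finset (Fin n) // U ∈ Good n s}
  let em : ∀ U : G, Fin s → Fin n := fun U => U.1.orderEmbOfFin U.2.1
  let F : (G → Fin s → Fin n → ℂ) → ℂ := fun W =>
    Matrix.det (Matrix.of fun U U' : G => Matrix.det (Matrix.of fun i j => W U j (em U' i)))
  have hF : Continuous F := by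
    apply Continuous.matrix_det
    apply continuous_matrix
    intro U U'
    apply Continuous.matrix_det
    apply continuous_matrix
    intro i j
    simp only [Matrix.of_apply]
    fun_prop
  let W0 : G → Fin s → Fin n → ℂ := fun U j => Pi.single (em U j) 1
  have hF0 : F W0 = 1 := by
    have h1 : (Matrix.of fun U U' : G => Matrix.det (Matrix.of fun i j => W0 U j (em U' i)))
        = 1 := by
      ext U U'
      rw [Matrix.of_apply, Matrix.one_apply]
      by_cases h : U = U'
      · subst h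
        rw [if_pos rfl]
        have h2 : (Matrix.of fun i j => W0 U j (em U i)) = (1 : Matrix (Fin s) (Fin s) ℂ) := by
          ext i j
          rw [Matrix.of_apply, Matrix.one_apply]
          simp only [W0]
          by_cases hij : i = j
          · subst hij; simp
          · rw [if_neg hij, Pi.single_eq_of_ne]
            exact fun h => hij ((U.1.orderEmbOfFin U.2.1).injective h)
        rw [h2, Matrix.det_one]
      · rw [if_neg h]
        obtain ⟨a, ha, ha'⟩ : ∃ a ∈ U.1, a ∉ U'.1 := by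
          by_contra hcon
          push Not at hcon
          apply h
          apply Subtype.ext
          apply Finset.eq_of_subset_of_card_le hcon
          rw [U.2.1, U'.2.1]
        have ha2 : a ∈ Set.range (U.1.orderEmbOfFin U.2.1) := by
          rw [Finset.range_orderEmbOfFin]; exact ha
        obtain ⟨j, rfl⟩ := ha2
        apply Matrix.det_eq_zero_of_column_eq_zero j
        intro i
        rw [Matrix.of_apply]
        apply Pi.single_eq_of_ne
        intro h3
        apply ha'
        change em U j ∈ U'.1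
        rw [← h3]
        exact Finset.orderEmbOfFin_mem _ _ _
    simp only [F]
    rw [h1, Matrix.det_one]
  have hnhds : F ⁻¹' {0}ᶜ ∈ 𝓝 W0 := by
    apply hF.continuousAt.preimage_mem_nhds
    rw [hF0]
    exact isOpen_compl_singleton.mem_nhds (by simp)
  rw [nhds_pi, Filter.mem_pi] at hnhds
  obtain ⟨I, -, V, hV, hVsub⟩ := hnhds
  have hev : ∀ U : G, ∀ᶠ t : ℂ in 𝓝 0, ∃ w ∈ V U, (∀ j l, bl (Bt B t) (w j) (w l) = 0) ∧
      (∀ j l, bl (Ct C t) (w j) (w l) = 0) := by
    intro U
    obtain ⟨vB, hB1, -, hB3, hB4, hB5⟩ := one_form_sys hB hBN (em U)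
      (U.1.orderEmbOfFin U.2.1).strictMono (pre_of_not_PBad U.2.1 U.2.2.1)
    obtain ⟨vC, hC1, hC3, hC4, hC5⟩ := one_form_sys_rev hC hCN (em U)
      (U.1.orderEmbOfFin U.2.1).strictMono (suf_of_not_PBad U.2.1 U.2.2.2)
    exact ift_main hB hC (em U) hB1 hB3 hB4 hB5 hC1 hC3 hC4 hC5 (V U) (hV U)
  rw [← Filter.eventually_all] at hev
  filter_upwards [hev] with t ht
  choose w hwV hw1 hw2 using ht
  have hdet : F w ≠ 0 := by
    have : w ∈ F ⁻¹' {0}ᶜ := hVsub (fun U _ => hwV U)
    exact this
  have hcard : Set.ncard (Good n s) = Fintype.card G := by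
    rw [← Nat.card_coe_set_eq, Nat.card_eq_fintype_card]
  rw [hcard]
  apply le_finrank_quotient (gr n s) _ (fun U : G => bE n U.1) (fun U => by
    rw [gr_eq_Sp]; exact bE_mem_Sp U.2.1) (fun U => Lw (w U))
  · intro U x hx _
    exact Lw_eq_zero (w U) (map_phi_qf _ _ (hw1 U)) (map_phi_qf _ _ (hw2 U)) hx
  · rw [Matrix.isUnit_iff_isUnit_det, isUnit_iff_ne_zero]
    convert! hdet using 1
    simp only [F]
    congr 1
    ext U U'
    rw [Matrix.of_apply, Matrix.of_apply, Lw_bE _ _ U'.2.1]

end Pool.Agent.Helper58.Quad
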