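import Mathlib
import Pool.Agent.Helper58.Quad.ExtUpper
import Pool.Agent.Helper58.Quad.Semi

set_option autoImplicit false

namespace Pool.Agent.Helper58.Quad

open Module Finset MvPolynomial

/-- polynomial ring -/
abbrev MP (n : ℕ) := MvPolynomial (Fin n) ℂ

variable {n : ℕ}

/-- squarefree monomial -/
noncomputable def mon (U : Finset (Fin n)) : MP n := ∏ i ∈ U, X i

/-- ideal of squares -/
noncomputable def I0 (n : ℕ) : Ideal (MP n) := Ideal.span (Set.range fun i : Fin n => (X i : MP n) ^ 2)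

/-- squares together with a span of monomials -/
noncomputable def SpS (p : Finset (Fin n) → Prop) : Submodule ℂ (MP n) :=
  Submodule.restrictScalars ℂ (I0 n) ⊔ Submodule.span ℂ (mon '' {U | p U})

theorem mon_mem_SpS {p : Finset (Fin n) → Prop} {U : Finset (Fin n)} (h : p U) :
    mon U ∈ SpS p := Submodule.mem_sup_right (Submodule.subset_span ⟨U, h, rfl⟩)

theorem I0_mem_SpS {p : Finset (Fin n) → Prop} {x : MP n} (h : x ∈ I0 n) : x ∈ SpS p :=
  Submodule.mem_sup_left h

theorem SpS_mono {p q : Finset (Fin n) → Prop} (h : ∀ U, p U → q U) : SpS p ≤ SpS q :=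
  sup_le_sup_left (Submodule.span_mono (Set.image_mono h)) _

theorem mon_mul_of_disjoint {U V : Finset (Fin n)} (h : Disjoint U V) :
    mon U * mon V = mon (U ∪ V) := (Finset.prod_union h).symm

theorem mon_mul_of_not_disjoint {U V : Finset (Fin n)} (h : ¬ Disjoint U V) :
    mon U * mon V ∈ I0 n := by
  rw [Finset.not_disjoint_iff] at h
  obtain ⟨i, hU, hV⟩ := h
  have h1 : (X i : MP n) ∣ mon U := Finset.dvd_prod_of_mem _ hU
  have h2 : (X i : MP n) ∣ mon V := Finset.dvd_prod_of_mem _ hV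
  have h3 : (X i : MP n) ^ 2 ∣ mon U * mon V := by
    rw [pow_two]; exact mul_dvd_mul h1 h2
  exact Ideal.mem_of_dvd _ h3 (Ideal.subset_span ⟨i, rfl⟩)

theorem span_mon_mul {p q r : Finset (Fin n) → Prop}
    (h : ∀ U V, p U → q V → Disjoint U V → r (U ∪ V)) {x y : MP n}
    (hx : x ∈ Submodule.span ℂ (mon '' {U | p U})) (hy : y ∈ Submodule.span ℂ (mon '' {U | q U})) :
    x * y ∈ SpS r := by
  induction hx using Submodule.span_induction with
  | mem a ha =>
    obtain ⟨U, hU, rfl⟩ := ha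
    induction hy using Submodule.span_induction with
    | mem b hb =>
      obtain ⟨V, hV, rfl⟩ := hb
      by_cases hd : Disjoint U V
      · rw [mon_mul_of_disjoint hd]
        exact mon_mem_SpS (h U V hU hV hd)
      · exact I0_mem_SpS (mon_mul_of_not_disjoint hd)
    | zero => rw [mul_zero]; exact Submodule.zero_mem _
    | add b c _ _ hb hc => rw [mul_add]; exact Submodule.add_mem _ hb hc
    | smul t b _ hb => rw [mul_smul_comm]; exact Submodule.smul_mem _ _ hb
  | zero => rw [zero_mul]; exact Submodule.zero_mem _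
  | add b c _ _ hb hc => rw [add_mul]; exact Submodule.add_mem _ hb hc
  | smul t b _ hb => rw [smul_mul_assoc]; exact Submodule.smul_mem _ _ hb

theorem SpS_mul {p q r : Finset (Fin n) → Prop}
    (h : ∀ U V, p U → q V → Disjoint U V → r (U ∪ V)) {x y : MP n} (hx : x ∈ SpS p)
    (hy : y ∈ SpS q) : x * y ∈ SpS r := by
  obtain ⟨i1, hi1, a, ha, rfl⟩ := Submodule.mem_sup.1 hx
  obtain ⟨i2, hi2, b, hb, rfl⟩ := Submodule.mem_sup.1 hy
  have h1 : i1 ∈ I0 n := hi1
  have h2 : i2 ∈ I0 n := hi2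
  have e : (i1 + a) * (i2 + b) = (i1 * (i2 + b) + a * i2) + a * b := by ring
  rw [e]
  apply Submodule.add_mem _ _ (span_mon_mul h ha hb)
  apply I0_mem_SpS
  exact Ideal.add_mem _ (Ideal.mul_mem_right _ _ h1) (Ideal.mul_mem_left _ _ h2)

theorem geom_sq {A : Type*} [CommRing A] (a b : A) (k : ℕ) :
    (a + b) ^ 2 * ∑ i ∈ range (k + 1), (-1) ^ i * ((i + 1 : ℕ) : A) * a ^ (k - i) * b ^ i
      = a ^ (k + 2) + (-1) ^ k * (((k + 2 : ℕ) : A) * a * b ^ (k + 1) +
        ((k + 1 : ℕ) : A) * b ^ (k + 2)) := by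
  induction k with
  | zero => simp; ring
  | succ k ih =>
    have h1 : ∑ i ∈ range (k + 1 + 1), (-1) ^ i * ((i + 1 : ℕ) : A) * a ^ (k + 1 - i) * b ^ i
        = a * (∑ i ∈ range (k + 1), (-1) ^ i * ((i + 1 : ℕ) : A) * a ^ (k - i) * b ^ i) +
          (-1) ^ (k + 1) * ((k + 2 : ℕ) : A) * b ^ (k + 1) := by
      rw [Finset.sum_range_succ, Finset.mul_sum]
      congr 1
      · apply Finset.sum_congr rfl
        intro i hi
        rw [Finset.mem_range] at hi
        have : k + 1 - i = (k - i) + 1 := by omega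
        rw [this, pow_succ]
        ring
      · push_cast
        rw [Nat.sub_self, pow_zero]
        ring
    rw [h1, mul_add]
    have h2 : (a + b) ^ 2 * (a * ∑ i ∈ range (k + 1), (-1) ^ i * ((i + 1 : ℕ) : A) *
        a ^ (k - i) * b ^ i) = a * (a ^ (k + 2) + (-1) ^ k * (((k + 2 : ℕ) : A) * a * b ^ (k + 1) +
        ((k + 1 : ℕ) : A) * b ^ (k + 2))) := by
      rw [← ih]; ring
    rw [h2]
    push_cast
    ring

theorem sq_factor {A ι : Type*} [CommRing A] [DecidableEq ι] (z : ι → A)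
    (hz : ∀ i, z i ^ 2 = 0) (P R : Finset ι) (h : R.card + 2 ≤ P.card) :
    ((P.card.factorial : ℕ) : A) * ∏ i ∈ P, z i =
      (∑ i ∈ P, z i + ∑ i ∈ R, z i) ^ 2 *
        ∑ i ∈ range (P.card - 2 + 1), (-1) ^ i * ((i + 1 : ℕ) : A) *
          (∑ i ∈ P, z i) ^ (P.card - 2 - i) * (∑ i ∈ R, z i) ^ i := by
  rw [geom_sq]
  have h3 : (∑ i ∈ R, z i) ^ (P.card - 2 + 1) = 0 := by
    obtain ⟨k, hk⟩ := Nat.exists_eq_add_of_le (show R.card + 1 ≤ P.card - 2 + 1 by omega)
    rw [hk, pow_add, (sum_pow_card z hz R).1, zero_mul]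
  have h4 : (∑ i ∈ R, z i) ^ (P.card - 2 + 2) = 0 := by
    rw [show P.card - 2 + 2 = P.card - 2 + 1 + 1 by ring, pow_succ, h3, zero_mul]
  have h5 : P.card - 2 + 2 = P.card := by omega
  rw [h3, h4, h5, (sum_pow_card z hz P).2]
  simp

section

variable (π : Equiv.Perm (Fin n))

theorem lowkS_mul {m k l : ℕ} {x y : MP n} (hx : x ∈ SpS (lowk π m k))
    (hy : y ∈ SpS (lowk π m l)) : x * y ∈ SpS (lowk π m (k + l)) := by
  refine SpS_mul ?_ hx hy
  rintro U V ⟨hU, hU'⟩ ⟨hV, hV'⟩ hd
  refine ⟨?_, ?_⟩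
  · intro j hj
    rcases Finset.mem_union.1 hj with h | h
    · exact hU j h
    · exact hV j h
  · rw [Finset.card_union_of_disjoint hd, hU', hV']

theorem mon_empty : mon (∅ : Finset (Fin n)) = 1 := Finset.prod_empty

theorem mon_singleton (i : Fin n) : mon {i} = X i := Finset.prod_singleton _ _

theorem lowkS_pow {m k : ℕ} {x : MP n} (hx : x ∈ SpS (lowk π m k)) (l : ℕ) :
    x ^ l ∈ SpS (lowk π m (k * l)) := by
  induction l with
  | zero =>
    rw [pow_zero, mul_zero, ← mon_empty]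
    exact mon_mem_SpS ⟨by simp, by simp⟩
  | succ l ih => rw [pow_succ, Nat.mul_succ]; exact lowkS_mul π ih hx

theorem low_lemmaS (m : ℕ) (P : Finset (Fin n)) (hP : ∀ j ∈ P, pos π j < 2 * m)
    (hcard : m + 1 ≤ P.card) :
    ∃ η : MP n, η ∈ SpS (fun Q => (∀ j ∈ Q, pos π j < 2 * m) ∧ Q.card + 2 = P.card) ∧
      mon P - (∑ j ∈ univ.filter (fun j : Fin n => pos π j < 2 * m), X j) ^ 2 * η ∈ I0 n := by
  classical
  set L := univ.filter (fun j : Fin n => pos π j < 2 * m) with hL
  have hPL : P ⊆ L := fun j hj => Finset.mem_filter.2 ⟨Finset.mem_univ _, hP j hj⟩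
  have hLcard : L.card ≤ 2 * m := by
    have h1 : (L.image (pos π)).card ≤ (range (2 * m)).card := by
      apply Finset.card_le_card
      intro x hx
      rw [Finset.mem_image] at hx
      obtain ⟨i, hi, rfl⟩ := hx
      rw [hL, Finset.mem_filter] at hi
      exact Finset.mem_range.2 hi.2
    rwa [Finset.card_image_of_injective _ (pos_injective π), Finset.card_range] at h1
  set R := L \ P with hR
  have hRcard : R.card + 2 ≤ P.card := by
    have := Finset.card_sdiff_add_card_eq_card hPL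
    rw [← hR] at this
    omega
  have hdisj : Disjoint P R := Finset.disjoint_sdiff
  have hunion : P ∪ R = L := Finset.union_sdiff_of_subset hPL
  set σP : MP n := ∑ i ∈ P, X i with hσP
  set σR : MP n := ∑ i ∈ R, X i with hσR
  set H : MP n := ∑ i ∈ range (P.card - 2 + 1), (-1) ^ i * ((i + 1 : ℕ) : MP n) *
          σP ^ (P.card - 2 - i) * σR ^ i with hH
  have hfac : ((P.card.factorial : ℕ) : ℂ) ≠ 0 := by exact_mod_cast Nat.factorial_ne_zero _
  refine ⟨((P.card.factorial : ℕ) : ℂ)⁻¹ • H, ?_, ?_⟩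
  · apply Submodule.smul_mem
    rw [hH]
    apply Submodule.sum_mem
    intro i hi
    rw [Finset.mem_range] at hi
    have hx1 : ∀ S ⊆ L, (∑ i ∈ S, (X i : MP n)) ∈ SpS (lowk π m 1) := by
      intro S hS
      apply Submodule.sum_mem
      intro j hj
      rw [← mon_singleton]
      apply mon_mem_SpS
      refine ⟨?_, Finset.card_singleton _⟩
      intro k hk
      rw [Finset.mem_singleton] at hk
      rw [hk]
      exact (Finset.mem_filter.1 (hS hj)).2
    have h2 : σP ^ (P.card - 2 - i) ∈ SpS (lowk π m (1 * (P.card - 2 - i))) :=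
      lowkS_pow π (hx1 P hPL) _
    have h3 : σR ^ i ∈ SpS (lowk π m (1 * i)) := lowkS_pow π (hx1 R Finset.sdiff_subset) _
    have h4 := lowkS_mul π h2 h3
    have h5 : (-1 : MP n) ^ i * ((i + 1 : ℕ) : MP n) * σP ^ (P.card - 2 - i) * σR ^ i
        = ((-1 : ℂ) ^ i * ((i + 1 : ℕ) : ℂ)) • (σP ^ (P.card - 2 - i) * σR ^ i) := by
      rw [smul_eq_C_mul]
      simp
      ring
    rw [h5]
    apply Submodule.smul_mem
    refine SpS_mono ?_ h4
    rintro Q ⟨hQ1, hQ2⟩
    exact ⟨hQ1, by omega⟩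
  · have hsum : ∑ j ∈ L, (X j : MP n) = σP + σR := by
      rw [hσP, hσR, ← Finset.sum_union hdisj, hunion]
    rw [hsum]
    rw [← Ideal.Quotient.eq_zero_iff_mem]
    have hz : ∀ i : Fin n, (Ideal.Quotient.mk (I0 n) (X i)) ^ 2 = 0 := by
      intro i
      rw [← map_pow, Ideal.Quotient.eq_zero_iff_mem]
      exact Ideal.subset_span ⟨i, rfl⟩
    have hmain := sq_factor (fun i => Ideal.Quotient.mk (I0 n) (X i)) hz P R hRcard
    have hmain' : Ideal.Quotient.mk (I0 n) (((P.card.factorial : ℕ) : MP n) * mon P)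
        = Ideal.Quotient.mk (I0 n) ((σP + σR) ^ 2 * H) := by
      rw [hH]
      simp only [map_mul, map_sum, map_pow, map_add, map_natCast, map_neg, map_one, mon, map_prod,
        hσP, hσR]
      exact hmain
    have h6 : mon P = ((P.card.factorial : ℕ) : ℂ)⁻¹ • (((P.card.factorial : ℕ) : MP n) * mon P) := by
      have : (((P.card.factorial : ℕ) : MP n) * mon P)
          = ((P.card.factorial : ℕ) : ℂ) • mon P := by
        rw [smul_eq_C_mul]; simp
      rw [this, smul_smul, inv_mul_cancel₀ hfac, one_smul]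
    rw [h6, mul_smul_comm, ← smul_sub, smul_eq_C_mul, map_mul, map_sub, hmain', sub_self,
      mul_zero]

/-- sum of the variables -/
noncomputable def l0 (n : ℕ) : MP n := ∑ j, X j

theorem one_formS (m : ℕ) (U : Finset (Fin n))
    (hU : m + 1 ≤ (U.filter (fun j => pos π j < 2 * m)).card) :
    ∃ h : MP n, mon U - l0 n ^ 2 * h ∈
      SpS (fun U' => U'.card = U.card ∧ wt π U < wt π U') := by
  classical
  set P := U.filter (fun j => pos π j < 2 * m) with hPdef
  have hP : ∀ j ∈ P, pos π j < 2 * m := fun j hj => (Finset.mem_filter.1 hj).2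
  have hPU : P ⊆ U := Finset.filter_subset _ _
  set S := U \ P with hS
  have hdisj : Disjoint P S := Finset.disjoint_sdiff
  have hunion : P ∪ S = U := Finset.union_sdiff_of_subset hPU
  have hmul : mon P * mon S = mon U := by rw [mon_mul_of_disjoint hdisj, hunion]
  obtain ⟨η, hη, hηeq⟩ := low_lemmaS π m P hP hU
  set L := univ.filter (fun j : Fin n => pos π j < 2 * m) with hL
  have hcardU : P.card + S.card = U.card := by
    rw [← Finset.card_union_of_disjoint hdisj, hunion]
  have hwtU : wt π U = wt π P + wt π S := by rw [← wt_union π hdisj, hunion]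
  set lm : MP n := ∑ j ∈ L, X j with hlm
  set lg : MP n := ∑ j ∈ Lᶜ, X j with hlg
  have hl0 : l0 n = lm + lg := by rw [l0, hlm, hlg, Finset.sum_add_sum_compl]
  refine ⟨η * mon S, ?_⟩
  have e : mon U - l0 n ^ 2 * (η * mon S) = (mon P - lm ^ 2 * η) * mon S
      - lg * ((2 * lm + lg) * (η * mon S)) := by
    rw [← hmul, hl0]; ring
  rw [e]
  apply Submodule.sub_mem
  · exact I0_mem_SpS (Ideal.mul_mem_right _ _ hηeq)
  · have h3 : η * mon S ∈ SpS (fun V => V.card + 2 = U.card ∧ wt π S ≤ wt π V) := by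
      refine SpS_mul (p := fun Q => (∀ j ∈ Q, pos π j < 2 * m) ∧ Q.card + 2 = P.card)
        (q := fun V => V = S) ?_ hη (mon_mem_SpS rfl)
      rintro Q V ⟨-, hQ⟩ rfl hd
      refine ⟨?_, ?_⟩
      · rw [Finset.card_union_of_disjoint hd]; omega
      · rw [wt_union π hd]; omega
    have hlin : ∀ T : Finset (Fin n), (∑ j ∈ T, (X j : MP n)) ∈
        SpS (fun V => ∃ j ∈ T, V = {j}) := by
      intro T
      apply Submodule.sum_mem
      intro j hj
      rw [← mon_singleton]
      exact mon_mem_SpS ⟨j, hj, rfl⟩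
    have h4 : (2 * lm + lg) ∈ SpS (fun V : Finset (Fin n) => V.card = 1) := by
      apply Submodule.add_mem
      · rw [two_mul]
        have h5 : lm ∈ SpS (fun V : Finset (Fin n) => V.card = 1) := by
          refine SpS_mono ?_ (hlin L)
          rintro V ⟨j, -, rfl⟩
          exact Finset.card_singleton _
        exact Submodule.add_mem _ h5 h5
      · refine SpS_mono ?_ (hlin Lᶜ)
        rintro V ⟨j, -, rfl⟩
        exact Finset.card_singleton _
    have h6 : (2 * lm + lg) * (η * mon S) ∈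
        SpS (fun V => V.card + 1 = U.card ∧ wt π S ≤ wt π V) := by
      refine SpS_mul ?_ h4 h3
      rintro V W hV ⟨hW1, hW2⟩ hd
      refine ⟨?_, ?_⟩
      · rw [Finset.card_union_of_disjoint hd, hV]; omega
      · rw [wt_union π hd]; omega
    refine SpS_mul ?_ (hlin Lᶜ) h6
    rintro V W ⟨j, hj, rfl⟩ ⟨hW1, hW2⟩ hd
    have hjm : 2 * m ≤ pos π j := by
      rw [Finset.mem_compl, hL, Finset.mem_filter] at hj
      by_contra hc
      exact hj ⟨Finset.mem_univ _, by omega⟩
    refine ⟨?_, ?_⟩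
    · rw [Finset.card_union_of_disjoint hd, Finset.card_singleton]; omega
    · rw [wt_union π hd, hwtU]
      have h5 := wt_lt_of_pos_lt π P (2 * m) hP
      have h6 : 2 ^ (2 * m) ≤ 2 ^ (pos π j) := Nat.pow_le_pow_right (by norm_num) hjm
      have h7 : wt π {j} = 2 ^ (pos π j) := by rw [wt, Finset.sum_singleton]
      omega

/-- scaling -/
noncomputable def DS (t : ℂ) : MP n →ₐ[ℂ] MP n := aeval (fun j => (t ^ (2 ^ pos π j)) • (X j : MP n))

theorem DS_X (t : ℂ) (j : Fin n) : DS π t (X j) = (t ^ (2 ^ pos π j)) • (X j : MP n) := by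
  rw [DS, aeval_X]

theorem DS_mon (t : ℂ) (U : Finset (Fin n)) : DS π t (mon U) = t ^ wt π U • mon U := by
  rw [mon, map_prod, wt, ← Finset.prod_pow_eq_pow_sum]
  simp only [DS_X]
  rw [Finset.prod_smul]

theorem DS_I0 (t : ℂ) {x : MP n} (hx : x ∈ I0 n) : DS π t x ∈ I0 n := by
  have h : I0 n ≤ Ideal.comap (DS π t).toRingHom (I0 n) := by
    rw [I0, Ideal.span_le]
    rintro _ ⟨i, rfl⟩
    rw [SetLike.mem_coe, Ideal.mem_comap]
    change DS π t (X i ^ 2) ∈ I0 n
    rw [map_pow, DS_X, smul_pow, smul_eq_C_mul]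
    exact Ideal.mul_mem_left _ _ (Ideal.subset_span ⟨i, rfl⟩)
  exact h hx

theorem exists_coeff {p : Finset (Fin n) → Prop} {x : MP n}
    (hx : x ∈ Submodule.span ℂ (mon '' {U | p U})) :
    ∃ c : Finset (Fin n) → ℂ, (∀ U, ¬ p U → c U = 0) ∧ x = ∑ U, c U • mon U := by
  classical
  induction hx using Submodule.span_induction with
  | mem a ha =>
    obtain ⟨U, hU, rfl⟩ := ha
    refine ⟨fun V => if V = U then 1 else 0, ?_, ?_⟩
    · intro V hV
      dsimp only
      rw [if_neg]
      rintro rfl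
      exact hV hU
    · simp
  | zero => exact ⟨0, fun _ _ => rfl, by simp⟩
  | add b c _ _ hb hc =>
    obtain ⟨c1, h1, rfl⟩ := hb
    obtain ⟨c2, h2, rfl⟩ := hc
    refine ⟨c1 + c2, ?_, ?_⟩
    · intro U hU
      rw [Pi.add_apply, h1 U hU, h2 U hU, add_zero]
    · rw [← Finset.sum_add_distrib]
      exact Finset.sum_congr rfl (fun U _ => by rw [Pi.add_apply, add_smul])
  | smul t b _ hb =>
    obtain ⟨c1, h1, rfl⟩ := hb
    refine ⟨t • c1, ?_, ?_⟩
    · intro U hU
      rw [Pi.smul_apply, h1 U hU, smul_zero]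
    · rw [Finset.smul_sum]
      exact Finset.sum_congr rfl (fun U _ => by rw [Pi.smul_apply, smul_eq_mul, smul_smul])

theorem exists_polyS (U : Finset (Fin n)) (hU : PBad π U) :
    ∃ p : Finset (Fin n) → Polynomial ℂ,
      (∀ U', (p U').eval 0 = if U = U' then 1 else 0) ∧
      (∀ U', U'.card ≠ U.card → p U' = 0) ∧
      ∀ t : ℂ, t ≠ 0 → ∃ h : MP n, ∃ i ∈ I0 n,
        ∑ U', (p U').eval t • mon U' = (DS π t (l0 n)) ^ 2 * h + i := by
  classical
  obtain ⟨m, -, hcard⟩ := hU
  obtain ⟨h, hh⟩ := one_formS π m U hcard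
  obtain ⟨i0, hi0, x, hx, hxy⟩ := Submodule.mem_sup.1 hh
  obtain ⟨c, hc0, rfl⟩ := exists_coeff hx
  refine ⟨fun U' => (if U = U' then 1 else 0) -
    Polynomial.C (c U') * Polynomial.X ^ (wt π U' - wt π U), ?_, ?_, ?_⟩
  · intro U'
    by_cases h1 : U'.card = U.card ∧ wt π U < wt π U'
    · have h2 : wt π U' - wt π U ≠ 0 := by omega
      have h3 : U ≠ U' := by rintro rfl; omega
      simp [h2, h3]
    · dsimp only
      rw [hc0 U' h1]
      split_ifs <;> simp
  · intro U' hne
    have h3 : U ≠ U' := by rintro rfl; exact hne rfl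
    dsimp only
    rw [if_neg h3, hc0 U' (fun h => hne h.1)]
    simp
  · intro t ht
    have htw : t ^ wt π U ≠ 0 := pow_ne_zero _ ht
    have h4 : DS π t (∑ U', c U' • mon U') = ∑ U', (c U' * t ^ wt π U') • mon U' := by
      rw [map_sum]
      apply Finset.sum_congr rfl
      intro U' _
      rw [map_smul, DS_mon, smul_smul]
    have h5 : t ^ wt π U • mon U - ∑ U', (c U' * t ^ wt π U') • mon U'
        = (DS π t (l0 n)) ^ 2 * DS π t h + DS π t i0 := by
      rw [← h4, ← DS_mon, ← map_pow, ← map_mul, ← map_sub, ← map_add]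
      congr 1
      rw [sub_eq_iff_eq_add]
      rw [eq_sub_iff_add_eq] at hxy
      rw [← hxy]
      ring
    refine ⟨(t ^ wt π U)⁻¹ • DS π t h, (t ^ wt π U)⁻¹ • DS π t i0, ?_, ?_⟩
    · rw [smul_eq_C_mul]
      exact Ideal.mul_mem_left _ _ (DS_I0 π t hi0)
    rw [mul_smul_comm, ← smul_add, ← h5, smul_sub, smul_smul, inv_mul_cancel₀ htw, one_smul,
      Finset.smul_sum]
    have h6 : ∀ U', (Polynomial.eval t ((if U = U' then 1 else 0) -
        Polynomial.C (c U') * Polynomial.X ^ (wt π U' - wt π U))) • mon U'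
        = (if U = U' then (1 : ℂ) else 0) • mon U' -
          ((t ^ wt π U)⁻¹ • ((c U' * t ^ wt π U') • mon U')) := by
      intro U'
      rw [Polynomial.eval_sub, sub_smul]
      congr 1
      · split_ifs <;> simp
      · rw [smul_smul]
        congr 1
        by_cases h1 : U'.card = U.card ∧ wt π U < wt π U'
        · have h7 : t ^ wt π U' = t ^ wt π U * t ^ (wt π U' - wt π U) := by
            rw [← pow_add]; congr 1; omega
          rw [h7]
          simp only [Polynomial.eval_mul, Polynomial.eval_C, Polynomial.eval_pow,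
            Polynomial.eval_X]
          field_simp
        · rw [hc0 U' h1]; simp
    rw [Finset.sum_congr rfl (fun U' _ => h6 U'), Finset.sum_sub_distrib]
    congr 1
    simp

end

theorem homogeneous_le (n s : ℕ) :
    homogeneousSubmodule (Fin n) ℂ s ≤ SpS (fun U => U.card = s) := by
  classical
  intro p hp
  rw [mem_homogeneousSubmodule] at hp
  rw [MvPolynomial.as_sum p]
  apply Submodule.sum_mem
  intro d hd
  have hdeg := hp (MvPolynomial.mem_support_iff.1 hd)
  by_cases h : ∃ i, 2 ≤ d i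
  · obtain ⟨i, hi⟩ := h
    apply I0_mem_SpS
    have h1 : (X i : MP n) ^ 2 ∣ monomial d (coeff d p) := by
      refine ⟨monomial (d - Finsupp.single i 2) (coeff d p), ?_⟩
      rw [X_pow_eq_monomial, monomial_mul, one_mul]
      have h2 : Finsupp.single i 2 + (d - Finsupp.single i 2) = d := by
        rw [add_comm]
        exact tsub_add_cancel_of_le (Finsupp.single_le_iff.2 hi)
      rw [h2]
    exact Ideal.mem_of_dvd _ h1 (Ideal.subset_span ⟨i, rfl⟩)
  · push Not at h
    have h1 : ∀ i ∈ d.support, d i = 1 := by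
      intro i hi
      have h2 := h i
      have h3 := Finsupp.mem_support_iff.1 hi
      omega
    have h2 : monomial d (coeff d p) = coeff d p • mon d.support := by
      rw [monomial_eq, smul_eq_C_mul, mon]
      congr 1
      apply Finset.prod_congr rfl
      intro i hi
      dsimp only
      rw [h1 i hi, pow_one]
    rw [h2]
    apply Submodule.smul_mem
    apply mon_mem_SpS
    rw [← hdeg]
    have h3 : Finsupp.weight (1 : Fin n → ℕ) d = ∑ i ∈ d.support, d i := by
      rw [Finsupp.weight_apply, Finsupp.sum]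
      simp
    rw [h3, Finset.sum_congr rfl h1]
    simp

/-- the ideal as a `ℂ`-submodule -/
noncomputable abbrev JS (l₁ l₂ : MP n) : Submodule ℂ (MP n) :=
  Submodule.restrictScalars ℂ
    (Ideal.span (Set.range (fun i : Fin n => (MvPolynomial.X i : MvPolynomial (Fin n) ℂ) ^ 2)
                      ∪ {l₁ ^ 2, l₂ ^ 2}))

theorem sym_upper (n s : ℕ) :
    ∃ l₁ ∈ homogeneousSubmodule (Fin n) ℂ 1, ∃ l₂ ∈ homogeneousSubmodule (Fin n) ℂ 1,
      Module.finrank ℂ (↥(homogeneousSubmodule (Fin n) ℂ s) ⧸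
        Submodule.comap (homogeneousSubmodule (Fin n) ℂ s).subtype (JS l₁ l₂)) ≤
      Set.ncard {U : Finset (Fin n) | U.card = s ∧ ¬ PBad 1 U ∧ ¬ PBad Fin.revPerm U} := by
  classical
  let ι' := {U : Finset (Fin n) // U.card = s}
  let bad : ι' → Prop := fun U => PBad 1 U.1 ∨ PBad Fin.revPerm U.1
  have hex : ∀ U : ι', ∃ p : Finset (Fin n) → Polynomial ℂ,
      bad U → (∀ U', (p U').eval 0 = if U.1 = U' then 1 else 0) ∧
      (∀ U', U'.card ≠ s → p U' = 0) ∧
      ∀ t : ℂ, t ≠ 0 → ∃ h : MP n, ∃ i ∈ I0 n,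
        ∑ U', (p U').eval t • mon U' = (DS 1 t (l0 n)) ^ 2 * h + i ∨
        ∑ U', (p U').eval t • mon U' = (DS Fin.revPerm t (l0 n)) ^ 2 * h + i := by
    intro U
    by_cases hb : PBad 1 U.1
    · obtain ⟨p, h1, h2, h3⟩ := exists_polyS 1 U.1 hb
      refine ⟨p, fun _ => ⟨h1, fun U' hU' => h2 U' (by rw [U.2]; exact hU'), fun t ht => ?_⟩⟩
      obtain ⟨h, i, hi, hh⟩ := h3 t ht
      exact ⟨h, i, hi, Or.inl hh⟩
    · by_cases hb' : PBad Fin.revPerm U.1
      · obtain ⟨p, h1, h2, h3⟩ := exists_polyS Fin.revPerm U.1 hb'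
        refine ⟨p, fun _ => ⟨h1, fun U' hU' => h2 U' (by rw [U.2]; exact hU'), fun t ht => ?_⟩⟩
        obtain ⟨h, i, hi, hh⟩ := h3 t ht
        exact ⟨h, i, hi, Or.inr hh⟩
      · exact ⟨0, fun h => (h.elim hb hb').elim⟩
  choose p hp using hex
  obtain ⟨t, ht0, ht⟩ := exists_span_le_sup (K := ℂ) (V := MP n) (fun U : ι' => mon U.1) bad
    (fun U U' => p U U'.1) (by
      intro U U' hU _
      rw [(hp U hU).1]
      by_cases h : U = U'
      · rw [if_pos h, if_pos (congrArg Subtype.val h)]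
      · rw [if_neg h, if_neg (fun h' => h (Subtype.ext h'))])
  have hlin : ∀ π : Equiv.Perm (Fin n), DS π t (l0 n) ∈ homogeneousSubmodule (Fin n) ℂ 1 := by
    intro π
    rw [l0, map_sum]
    apply Submodule.sum_mem
    intro j _
    rw [DS_X]
    apply Submodule.smul_mem
    rw [mem_homogeneousSubmodule]
    exact isHomogeneous_X _ _
  set f := DS 1 t (l0 n) with hf
  set g := DS Fin.revPerm t (l0 n) with hg
  refine ⟨f, hlin 1, g, hlin _, ?_⟩
  set J : Submodule ℂ (MP n) := JS f g with hJ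
  have hI0 : ∀ x ∈ I0 n, x ∈ J := by
    intro x hx
    exact Ideal.span_mono Set.subset_union_left hx
  have h1 := ht J (by
    intro U hU
    obtain ⟨h, i, hi, hh⟩ := (hp U hU).2.2 t ht0
    have h2 : ∑ U' : ι', (p U U'.1).eval t • mon U'.1 = ∑ U', (p U U').eval t • mon U' := by
      rw [← Finset.sum_subtype (Finset.univ.filter (fun U' : Finset (Fin n) => U'.card = s))
        (p := fun U' => U'.card = s) (by simp) (fun U' => (p U U').eval t • mon U')]
      apply Finset.sum_subset (Finset.filter_subset _ _)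
      intro U' _ hU'
      have h3 : U'.card ≠ s := fun h => hU' (Finset.mem_filter.2 ⟨Finset.mem_univ _, h⟩)
      rw [(hp U hU).2.1 U' h3]
      simp
    rw [h2]
    rcases hh with hh | hh
    · rw [hh]
      apply Submodule.add_mem _ _ (hI0 i hi)
      exact Ideal.mul_mem_right _ _ (Ideal.subset_span (Or.inr (Or.inl rfl)))
    · rw [hh]
      apply Submodule.add_mem _ _ (hI0 i hi)
      exact Ideal.mul_mem_right _ _ (Ideal.subset_span (Or.inr (Or.inr rfl))))
  let G := {U : Finset (Fin n) | U.card = s ∧ ¬ PBad 1 U ∧ ¬ PBad Fin.revPerm U}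
  have hG : Set.ncard G = Fintype.card G := by
    rw [Set.ncard_eq_toFinset_card', Set.toFinset_card]
  change _ ≤ Set.ncard G
  rw [hG]
  refine finrank_quotient_le (homogeneousSubmodule (Fin n) ℂ s) J (fun U : G => mon U.1) ?_ ?_
  · intro U
    rw [mem_homogeneousSubmodule, mon, ← U.2.1, Finset.card_eq_sum_ones]
    exact IsHomogeneous.prod _ _ _ (fun i _ => isHomogeneous_X _ _)
  · refine (homogeneous_le n s).trans ?_
    apply sup_le
    · exact fun x hx => Submodule.mem_sup_left (hI0 x hx)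
    · have h4 : Submodule.span ℂ (mon '' {U : Finset (Fin n) | U.card = s})
          = Submodule.span ℂ (Set.range (fun U : ι' => mon U.1)) := by
        congr 1
        ext x
        constructor
        · rintro ⟨U, hU, rfl⟩
          exact ⟨⟨U, hU⟩, rfl⟩
        · rintro ⟨U, rfl⟩
          exact ⟨U.1, U.2, rfl⟩
      rw [h4]
      refine h1.trans (sup_le_sup_left (Submodule.span_mono ?_) _)
      rintro _ ⟨U, hU, rfl⟩
      have hU' : ¬ bad U := hU
      exact ⟨⟨U.1, U.2, fun h => hU' (Or.inl h), fun h => hU' (Or.inr h)⟩, rfl⟩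

end Pool.Agent.Helper58.Quad
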