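import Mathlib
import Pool.Agent.Helper58.Quad.SymUpper
import Pool.Agent.Helper58.Quad.Kernel

set_option autoImplicit false

namespace Pool.Agent.Helper58.Quad

open Module Finset MvPolynomial

variable {n : ℕ}

/-- exponent vector of a squarefree monomial -/
noncomputable def ind (V : Finset (Fin n)) : Fin n →₀ ℕ := ∑ i ∈ V, Finsupp.single i 1

theorem ind_apply (V : Finset (Fin n)) (i : Fin n) : ind V i = if i ∈ V then 1 else 0 := by
  classical
  rw [ind, Finsupp.finsetSum_apply]
  simp [Finsupp.single_apply]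

theorem ind_injective : Function.Injective (ind : Finset (Fin n) → Fin n →₀ ℕ) := by
  intro U V h
  ext i
  have h1 := DFunLike.congr_fun h i
  rw [ind_apply, ind_apply] at h1
  by_cases hU : i ∈ U <;> by_cases hV : i ∈ V <;> simp_all

theorem ind_insert {i : Fin n} {V : Finset (Fin n)} (h : i ∉ V) :
    ind (insert i V) = Finsupp.single i 1 + ind V := by
  rw [ind, Finset.sum_insert h]
  rfl

theorem mon_eq (V : Finset (Fin n)) : mon V = monomial (ind V) (1 : ℂ) := by
  classical
  induction V using Finset.induction_on with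
  | empty => simp [mon, ind]
  | insert i V hi ih =>
    rw [mon, Finset.prod_insert hi]
    rw [mon] at ih
    rw [ih, ind_insert hi, X, monomial_mul, one_mul]

/-- the functional with weights `F` on squarefree monomials -/
noncomputable def LF (F : Finset (Fin n) → ℂ) : MP n →ₗ[ℂ] ℂ :=
  ∑ V, F V • MvPolynomial.lcoeff ℂ (ind V)

theorem LF_apply (F : Finset (Fin n) → ℂ) (p : MP n) : LF F p = ∑ V, F V * coeff (ind V) p := by
  rw [LF, LinearMap.sum_apply]
  rfl

theorem LF_mon (F : Finset (Fin n) → ℂ) (V : Finset (Fin n)) : LF F (mon V) = F V := by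
  classical
  rw [LF_apply, Finset.sum_eq_single V]
  · rw [mon_eq, coeff_monomial, if_pos rfl, mul_one]
  · intro U _ hU
    rw [mon_eq, coeff_monomial, if_neg (fun h => hU (ind_injective h).symm), mul_zero]
  · intro h
    exact absurd (Finset.mem_univ _) h

theorem LF_mul_X (F : Finset (Fin n) → ℂ) (p : MP n) (i : Fin n) :
    LF F (p * X i) = ∑ V, (if i ∈ V then 0 else F (insert i V)) * coeff (ind V) p := by
  classical
  rw [LF_apply]
  have h1 : ∀ V : Finset (Fin n), F V * coeff (ind V) (p * X i) =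
      if i ∈ V then F V * coeff (ind (V.erase i)) p else 0 := by
    intro V
    rw [coeff_mul_X']
    have h2 : i ∈ (ind V).support ↔ i ∈ V := by
      rw [Finsupp.mem_support_iff, ind_apply]
      split_ifs <;> simp_all
    by_cases hV : i ∈ V
    · rw [if_pos (h2.2 hV), if_pos hV]
      congr 2
      have h3 : ind V = Finsupp.single i 1 + ind (V.erase i) := by
        rw [← ind_insert (Finset.notMem_erase i V), Finset.insert_erase hV]
      rw [h3, add_tsub_cancel_left]
    · rw [if_neg (fun h => hV (h2.1 h)), if_neg hV, mul_zero]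
  rw [Finset.sum_congr rfl (fun V _ => h1 V), ← Finset.sum_filter]
  have h4 : ∑ V : Finset (Fin n), (if i ∈ V then 0 else F (insert i V)) * coeff (ind V) p =
      ∑ V ∈ univ.filter (fun V : Finset (Fin n) => i ∉ V), F (insert i V) * coeff (ind V) p := by
    rw [Finset.sum_filter]
    apply Finset.sum_congr rfl
    intro V _
    split_ifs <;> simp_all
  rw [h4]
  refine Finset.sum_nbij' (fun V => V.erase i) (fun V => insert i V) ?_ ?_ ?_ ?_ ?_
  · intro V hV
    simp
  · intro V hV
    simp
  · intro V hV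
    exact Finset.insert_erase (Finset.mem_filter.1 hV).2
  · intro V hV
    exact Finset.erase_insert (Finset.mem_filter.1 hV).2
  · intro V hV
    rw [Finset.insert_erase (Finset.mem_filter.1 hV).2]

/-- contraction by a linear form -/
noncomputable def ctr (α : Fin n → ℂ) (F : Finset (Fin n) → ℂ) (V : Finset (Fin n)) : ℂ :=
  ∑ i, α i * (if i ∈ V then 0 else F (insert i V))

theorem LF_mul_lin (F : Finset (Fin n) → ℂ) (p : MP n) (α : Fin n → ℂ) :
    LF F (p * ∑ i, α i • X i) = LF (ctr α F) p := by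
  rw [Finset.mul_sum, map_sum, LF_apply]
  have h1 : ∀ i : Fin n, LF F (p * α i • X i) =
      ∑ V, α i * (if i ∈ V then 0 else F (insert i V)) * coeff (ind V) p := by
    intro i
    rw [mul_smul_comm, map_smul, LF_mul_X, smul_eq_mul, Finset.mul_sum]
    exact Finset.sum_congr rfl (fun V _ => by rw [mul_assoc])
  rw [Finset.sum_congr rfl (fun i _ => h1 i), Finset.sum_comm]
  apply Finset.sum_congr rfl
  intro V _
  rw [ctr, Finset.sum_mul]

theorem LF_mul_X_sq (F : Finset (Fin n) → ℂ) (p : MP n) (i : Fin n) :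
    LF F (p * X i ^ 2) = 0 := by
  classical
  rw [pow_two, ← mul_assoc, LF_mul_X]
  have h1 : ∀ V : Finset (Fin n), (if i ∈ V then 0 else F (insert i V)) * coeff (ind V) (p * X i)
      = 0 := by
    intro V
    by_cases hV : i ∈ V
    · rw [if_pos hV, zero_mul]
    · rw [if_neg hV, coeff_mul_X', if_neg, mul_zero]
      rw [Finsupp.mem_support_iff, ind_apply, if_neg hV]
      simp
  exact Finset.sum_eq_zero (fun V _ => h1 V)

theorem LF_vanish (F : Finset (Fin n) → ℂ) (α β : Fin n → ℂ) (hα : ctr α (ctr α F) = 0)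
    (hβ : ctr β (ctr β F) = 0) {x : MP n} (hx : x ∈ JS (∑ i, α i • X i) (∑ i, β i • X i)) :
    LF F x = 0 := by
  have key : ∀ p : MP n, LF F (p * x) = 0 := by
    have hx' : x ∈ Ideal.span (Set.range (fun i : Fin n =>
      (MvPolynomial.X i : MvPolynomial (Fin n) ℂ) ^ 2)
      ∪ {(∑ i, α i • X i) ^ 2, (∑ i, β i • X i) ^ 2}) := hx
    have h0 : ∀ p : MP n, LF (0 : Finset (Fin n) → ℂ) p = 0 := by
      intro p
      rw [LF_apply]
      simp
    clear hx
    induction hx' using Submodule.span_induction with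
    | mem a ha =>
      intro p
      rcases ha with ⟨i, rfl⟩ | rfl | rfl
      · exact LF_mul_X_sq F p i
      · rw [pow_two, ← mul_assoc, LF_mul_lin, LF_mul_lin, hα, h0]
      · rw [pow_two, ← mul_assoc, LF_mul_lin, LF_mul_lin, hβ, h0]
    | zero => intro p; rw [mul_zero, map_zero]
    | add a b _ _ ha hb => intro p; rw [mul_add, map_add, ha, hb, add_zero]
    | smul c a _ ha => intro p; rw [smul_eq_mul, ← mul_assoc, ha]
  have := key 1
  rwa [one_mul] at this

/-- embedding of positions -/
def eF (n : ℕ) : Fin n ↪ Fin (n + 2) :=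
  ⟨fun i => i.castSucc.succ, fun i j h => by
    simpa using h⟩

@[simp] theorem eF_val (i : Fin n) : ((eF n i : Fin (n + 2)) : ℕ) = i + 1 := by
  rfl

theorem sum_eF (g : Fin (n + 2) → ℂ) :
    ∑ i, g i = g 0 + (∑ i, g (eF n i)) + g (Fin.last (n + 1)) := by
  rw [Fin.sum_univ_succ, Fin.sum_univ_castSucc, ← add_assoc]
  rfl

theorem ctr_ctr_eq_zero (w : Fin (n + 2) → ℂ) (G : Finset (Fin (n + 2)) → ℂ) (z z' : Fin (n + 2))
    (hz : ∀ i, eF n i ≠ z)
    (hsum : ∀ g : Fin (n + 2) → ℂ, g z' = 0 → ∑ i, g i = g z + ∑ i, g (eF n i))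
    (hw : w z' = 0)
    (hker : ∀ W : Finset (Fin (n + 2)), ∑ i ∈ univ.filter (fun i => i ∉ W), w i * G (insert i W) = 0) :
    ctr (fun i => w (eF n i)) (ctr (fun i => w (eF n i)) (fun V => G (V.map (eF n)))) = 0 := by
  classical
  have hz' : ∀ V : Finset (Fin n), z ∉ V.map (eF n) := by
    intro V h
    obtain ⟨i, -, hi⟩ := Finset.mem_map.1 h
    exact hz i hi
  have hmem : ∀ (V : Finset (Fin n)) (i : Fin n), eF n i ∈ V.map (eF n) ↔ i ∈ V := by
    intro V i
    exact Finset.mem_map' _
  have h1 : ∀ W : Finset (Fin n), ctr (fun i => w (eF n i)) (fun V => G (V.map (eF n))) W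
      = - (w z * G (insert z (W.map (eF n)))) := by
    intro W
    have h2 := hker (W.map (eF n))
    rw [Finset.sum_filter, hsum _ (by rw [hw, zero_mul]; simp), if_pos (hz' W)] at h2
    rw [ctr, eq_neg_iff_add_eq_zero, add_comm]
    refine Eq.trans ?_ h2
    congr 1
    apply Finset.sum_congr rfl
    intro i _
    by_cases hi : i ∈ W
    · rw [if_pos hi, if_neg (not_not.2 ((hmem W i).2 hi)), mul_zero]
    · rw [if_neg hi, if_pos (fun h => hi ((hmem W i).1 h)), Finset.map_insert]
  funext V
  have h2 := hker (insert z (V.map (eF n)))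
  rw [Finset.sum_filter, hsum _ (by rw [hw, zero_mul]; simp),
    if_neg (not_not.2 (Finset.mem_insert_self _ _)), zero_add] at h2
  rw [ctr, Pi.zero_apply]
  have h3 : ∀ i : Fin n, (w (eF n i) * if i ∈ V then 0 else
      ctr (fun i => w (eF n i)) (fun V => G (V.map (eF n))) (insert i V)) =
      - w z * (if eF n i ∉ insert z (V.map (eF n)) then
        w (eF n i) * G (insert (eF n i) (insert z (V.map (eF n)))) else 0) := by
    intro i
    by_cases hi : i ∈ V
    · rw [if_pos hi, if_neg (not_not.2 (Finset.mem_insert_of_mem ((hmem V i).2 hi))), mul_zero,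
        mul_zero]
    · have hi' : eF n i ∉ insert z (V.map (eF n)) := by
        rw [Finset.mem_insert, not_or]
        exact ⟨hz i, fun h => hi ((hmem V i).1 h)⟩
      rw [if_neg hi, if_pos hi', h1, Finset.map_insert, Finset.insert_comm]
      ring
  rw [Finset.sum_congr rfl (fun i _ => h3 i), ← Finset.mul_sum, h2, mul_zero]

/-- extended parameters -/
noncomputable def aE (n : ℕ) (a : Fin n → ℂ) : Fin (n + 2) → ℂ :=
  Fin.cons 1 (Fin.snoc a 0)

noncomputable def bE' (n : ℕ) (b : Fin n → ℂ) : Fin (n + 2) → ℂ :=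
  Fin.cons 0 (Fin.snoc b 1)

@[simp] theorem aE_zero (a : Fin n → ℂ) : aE n a 0 = 1 := rfl
@[simp] theorem bE'_zero (b : Fin n → ℂ) : bE' n b 0 = 0 := rfl
@[simp] theorem aE_last (a : Fin n → ℂ) : aE n a (Fin.last (n + 1)) = 0 := by
  rw [aE, ← Fin.succ_last, Fin.cons_succ, Fin.snoc_last]
@[simp] theorem bE'_last (b : Fin n → ℂ) : bE' n b (Fin.last (n + 1)) = 1 := by
  rw [bE', ← Fin.succ_last, Fin.cons_succ, Fin.snoc_last]
@[simp] theorem aE_eF (a : Fin n → ℂ) (i : Fin n) : aE n a (eF n i) = a i := by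
  change (Fin.cons 1 (Fin.snoc a 0) : Fin (n + 2) → ℂ) i.castSucc.succ = a i
  rw [Fin.cons_succ, Fin.snoc_castSucc]
@[simp] theorem bE'_eF (b : Fin n → ℂ) (i : Fin n) : bE' n b (eF n i) = b i := by
  change (Fin.cons 0 (Fin.snoc b 1) : Fin (n + 2) → ℂ) i.castSucc.succ = b i
  rw [Fin.cons_succ, Fin.snoc_castSucc]

theorem eF_ne_zero (i : Fin n) : eF n i ≠ 0 := by
  intro h
  have := congrArg Fin.val h
  simp at this

theorem eF_ne_last (i : Fin n) : eF n i ≠ Fin.last (n + 1) := by
  intro h
  have := congrArg Fin.val h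
  simp at this
  omega

theorem LF_FF_vanish {β' : Type*} [DecidableEq β'] (B : Fin (n + 2) → β') (a b : Fin n → ℂ)
    (hab : ∀ i j, i ≠ j → brk (aE n a) (bE' n b) i j ≠ 0) {x : MP n}
    (hx : x ∈ JS (∑ i, a i • X i) (∑ i, b i • X i)) :
    LF (fun V => FF B (aE n a) (bE' n b) (V.map (eF n))) x = 0 := by
  refine LF_vanish _ a b ?_ ?_ hx
  · have h1 := ctr_ctr_eq_zero (aE n a) (FF B (aE n a) (bE' n b)) 0 (Fin.last (n + 1))
      eF_ne_zero (fun g hg => by rw [sum_eF, hg, add_zero]) (aE_last a) (by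
        intro W
        have h2 := FF_kernel B (aE n a) (bE' n b) hab W (0, 1)
        rw [← neg_eq_zero, ← h2, ← Finset.sum_neg_distrib]
        apply Finset.sum_congr rfl
        intro i _
        ring)
    simpa only [aE_eF] using h1
  · have h1 := ctr_ctr_eq_zero (bE' n b) (FF B (aE n a) (bE' n b)) (Fin.last (n + 1)) 0
      eF_ne_last (fun g hg => by rw [sum_eF, hg, zero_add, add_comm]) (bE'_zero b) (by
        intro W
        have h2 := FF_kernel B (aE n a) (bE' n b) hab W (1, 0)
        rw [← h2]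
        apply Finset.sum_congr rfl
        intro i _
        ring)
    simpa only [bE'_eF] using h1

end Pool.Agent.Helper58.Quad
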