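import Mathlib
import Pool.Agent.Helper58.Quad.Cut
import Pool.Agent.Helper58.Quad.Functional
import Pool.Agent.Helper58.Quad.ExtLower

set_option autoImplicit false

namespace Pool.Agent.Helper58.Quad

open Finset

variable {n s : ℕ}

/-- number of elements below `k` -/
def cb (U : Finset (Fin n)) (k : ℕ) : ℕ := (U.filter (fun j : Fin n => (j : ℕ) < k)).card

theorem cb_mono (U : Finset (Fin n)) {k l : ℕ} (h : k ≤ l) : cb U k ≤ cb U l := by
  apply Finset.card_le_card
  intro j hj
  rw [Finset.mem_filter] at hj ⊢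
  exact ⟨hj.1, by omega⟩

theorem cb_succ_le (U : Finset (Fin n)) (k : ℕ) : cb U (k + 1) ≤ cb U k + 1 := by
  have h1 : U.filter (fun j : Fin n => (j : ℕ) < k + 1) ⊆
      U.filter (fun j : Fin n => (j : ℕ) < k) ∪ U.filter (fun j : Fin n => (j : ℕ) = k) := by
    intro j hj
    rw [Finset.mem_filter] at hj
    rw [Finset.mem_union, Finset.mem_filter, Finset.mem_filter]
    rcases Nat.lt_succ_iff_lt_or_eq.1 hj.2 with h | h
    · exact Or.inl ⟨hj.1, h⟩
    · exact Or.inr ⟨hj.1, h⟩
  have h2 : (U.filter (fun j : Fin n => (j : ℕ) = k)).card ≤ 1 := by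
    rw [Finset.card_le_one]
    intro a ha b hb
    rw [Finset.mem_filter] at ha hb
    exact Fin.ext (by rw [ha.2, hb.2])
  calc cb U (k + 1) ≤ _ := Finset.card_le_card h1
    _ ≤ _ := Finset.card_union_le _ _
    _ ≤ _ := by rw [cb]; omega

theorem cb_top (U : Finset (Fin n)) {k : ℕ} (h : n ≤ k) : cb U k = U.card := by
  rw [cb, Finset.filter_true_of_mem]
  intro j _
  exact lt_of_lt_of_le j.2 h

theorem cb_zero (U : Finset (Fin n)) : cb U 0 = 0 := by simp [cb]

theorem good_iff (U : Finset (Fin n)) :
    U ∈ Good n s ↔ U.card = s ∧ ∀ k ≤ n, 2 * cb U k ≤ k + 1 ∧ 2 * s ≤ 2 * cb U k + (n - k) + 1 := by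
  have hrev : ∀ m, 2 * m ≤ n → (U.filter (fun j => pos Fin.revPerm j < 2 * m)).card
      = U.card - cb U (n - 2 * m) := by
    intro m hm
    have h1 : U.filter (fun j => pos Fin.revPerm j < 2 * m) =
        U \ U.filter (fun j : Fin n => (j : ℕ) < n - 2 * m) := by
      ext j
      have h2 : pos (Fin.revPerm : Equiv.Perm (Fin n)) j = n - (j + 1) := by
        simp [pos, Fin.val_rev]
      rw [Finset.mem_sdiff, Finset.mem_filter, Finset.mem_filter, h2]
      have := j.2
      constructor
      · rintro ⟨h, h'⟩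
        exact ⟨h, fun h'' => by omega⟩
      · rintro ⟨h, h'⟩
        refine ⟨h, ?_⟩
        by_contra hcon
        exact h' ⟨h, by omega⟩
    rw [h1, Finset.card_sdiff_of_subset (Finset.filter_subset _ _)]
    rfl
  have hpre : ∀ m, (U.filter (fun j => pos 1 j < 2 * m)).card = cb U (2 * m) := by
    intro m
    rfl
  have hle : ∀ k, cb U k ≤ U.card := fun k => Finset.card_le_card (Finset.filter_subset _ _)
  constructor
  · rintro ⟨hs, h1, h2⟩
    refine ⟨hs, ?_⟩
    have h1' : ∀ m, 2 * m ≤ n → cb U (2 * m) ≤ m := by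
      intro m hm
      by_contra hcon
      exact h1 ⟨m, hm, by rw [hpre]; omega⟩
    have h2' : ∀ m, 2 * m ≤ n → s ≤ cb U (n - 2 * m) + m := by
      intro m hm
      by_contra hcon
      exact h2 ⟨m, hm, by rw [hrev m hm]; omega⟩
    intro k hk
    constructor
    · rcases Nat.even_or_odd' k with ⟨m, rfl | rfl⟩
      · have := h1' m hk; omega
      · have := h1' m (by omega)
        have := cb_succ_le U (2 * m)
        omega
    · rcases Nat.even_or_odd' (n - k) with ⟨m, hm | hm⟩
      · have h3 := h2' m (by omega)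
        rw [show n - 2 * m = k by omega] at h3
        omega
      · have h3 := h2' m (by omega)
        have h4 := cb_succ_le U k
        rw [show n - 2 * m = k + 1 by omega] at h3
        omega
  · rintro ⟨hs, h⟩
    refine ⟨hs, ?_, ?_⟩
    · rintro ⟨m, hm, h1⟩
      rw [hpre] at h1
      have := (h _ hm).1
      omega
    · rintro ⟨m, hm, h1⟩
      rw [hrev m hm] at h1
      have := (h (n - 2 * m) (by omega)).2
      omega

theorem hgt_map (U : Finset (Fin n)) (r : ℕ) : hgt (U.map (eF n)) r = r - 2 * (cb U (r - 1) : ℤ) := by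
  rw [hgt, cb, Finset.filter_map, Finset.card_map]
  congr 4
  apply Finset.filter_congr
  intro j _
  simp only [Function.comp_apply, eF_val]
  omega

theorem good_hgt {U : Finset (Fin n)} (hU : U ∈ Good n s) :
    (∀ r ≤ n + 2, 0 ≤ hgt (U.map (eF n)) r ∧ hgt (U.map (eF n)) r ≤ (n : ℤ) + 2 - 2 * s) ∧
      hgt (U.map (eF n)) (n + 2) = (n : ℤ) + 2 - 2 * s := by
  rw [good_iff] at hU
  obtain ⟨hs, h⟩ := hU
  have h0 := h 0 (Nat.zero_le _)
  have hn := h n le_rfl
  rw [cb_zero] at h0
  rw [cb_top U le_rfl, hs] at hn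
  constructor
  · intro r hr
    rw [hgt_map]
    rcases Nat.eq_zero_or_pos r with rfl | hr0
    · rw [Nat.zero_sub, cb_zero]
      simp only [Nat.cast_zero, mul_zero, sub_zero]
      constructor
      · exact le_refl _
      · omega
    · rcases Nat.lt_or_ge (n + 1) r with h1 | h1
      · have : r = n + 2 := by omega
        subst this
        rw [cb_top U (by omega), hs]
        push_cast
        constructor
        · omega
        · exact le_refl _
      · have := h (r - 1) (by omega)
        omega
  · rw [hgt_map, cb_top U (by omega), hs]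
    push_cast
    ring

end Pool.Agent.Helper58.Quad
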