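import Mathlib
import Pool.Agent.Helper58.Quad.GoodIff

set_option autoImplicit false

namespace Pool.Agent.Helper58.Quad

open Finset

variable {n s N : ℕ}

theorem sum_eq_hgt (V : Finset (Fin N)) (k : ℕ) (hk : k ≤ N) :
    ∑ i ∈ univ.filter (fun i : Fin N => i.val < k),
      (if (decide (i ∉ V)) = true then (1 : ℤ) else -1) = hgt V k := by
  classical
  induction k with
  | zero => simp [hgt]
  | succ k ih =>
    have h1 : univ.filter (fun i : Fin N => i.val < k + 1) =
        insert ⟨k, hk⟩ (univ.filter (fun i : Fin N => i.val < k)) := by
      ext i
      simp only [Finset.mem_filter, Finset.mem_univ, true_and, Finset.mem_insert]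
      constructor
      · intro h
        rcases Nat.lt_succ_iff_lt_or_eq.1 h with h' | h'
        · exact Or.inr h'
        · exact Or.inl (Fin.ext h')
      · rintro (rfl | h)
        · exact Nat.lt_succ_self _
        · omega
    have h2 := hgt_succ V ⟨k, hk⟩
    simp only at h2
    rw [h1, Finset.sum_insert (by simp), ih (by omega), h2, add_comm]
    congr 1
    simp only [sg, decide_eq_true_eq]
    split_ifs <;> simp_all

theorem count (n s : ℕ) :
    {c : Fin (n + 2) → Bool |
              (∀ k : Fin (n + 3),
                0 ≤ (∑ i ∈ Finset.univ.filter (fun i : Fin (n + 2) => i.val < k.val),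
                      (if c i then (1 : ℤ) else -1)) ∧
                (∑ i ∈ Finset.univ.filter (fun i : Fin (n + 2) => i.val < k.val),
                      (if c i then (1 : ℤ) else -1)) ≤ (n : ℤ) + 2 - 2 * (s : ℤ)) ∧
              (∑ i : Fin (n + 2), (if c i then (1 : ℤ) else -1)) = (n : ℤ) + 2 - 2 * (s : ℤ)}.ncard
      = Set.ncard (Good n s) := by
  classical
  have htot : ∀ V : Finset (Fin (n + 2)),
      (∑ i : Fin (n + 2), (if (decide (i ∉ V)) = true then (1 : ℤ) else -1)) = hgt V (n + 2) := by
    intro V
    rw [← sum_eq_hgt V (n + 2) le_rfl, Finset.filter_true_of_mem (fun i _ => i.2)]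
  have himg : {c : Fin (n + 2) → Bool |
              (∀ k : Fin (n + 3),
                0 ≤ (∑ i ∈ Finset.univ.filter (fun i : Fin (n + 2) => i.val < k.val),
                      (if c i then (1 : ℤ) else -1)) ∧
                (∑ i ∈ Finset.univ.filter (fun i : Fin (n + 2) => i.val < k.val),
                      (if c i then (1 : ℤ) else -1)) ≤ (n : ℤ) + 2 - 2 * (s : ℤ)) ∧
              (∑ i : Fin (n + 2), (if c i then (1 : ℤ) else -1)) = (n : ℤ) + 2 - 2 * (s : ℤ)}
      = (fun U : Finset (Fin n) => (fun i : Fin (n + 2) => decide (i ∉ U.map (eF n)))) ''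
        (Good n s) := by
    ext c
    constructor
    · rintro ⟨h1, h2⟩
      set V : Finset (Fin (n + 2)) := univ.filter (fun i => c i = false) with hV
      have hc : c = fun i => decide (i ∉ V) := by
        funext i
        rw [hV]
        cases h : c i <;> simp [h]
      rw [hc] at h1 h2
      rw [htot] at h2
      have h1' : ∀ k ≤ n + 2, 0 ≤ hgt V k ∧ hgt V k ≤ (n : ℤ) + 2 - 2 * (s : ℤ) := by
        intro k hk
        have := h1 ⟨k, by omega⟩
        simp only at this
        rw [sum_eq_hgt V k hk] at this
        exact this
      have h0V : (0 : Fin (n + 2)) ∉ V := by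
        intro h
        have e1 := hgt_succ V 0
        have e2 := (h1' 1 (by omega)).1
        rw [sg, if_pos h] at e1
        simp only [Fin.val_zero, hgt_zero, zero_add] at e1
        omega
      have hlV : (Fin.last (n + 1)) ∉ V := by
        intro h
        have e1 := hgt_succ V (Fin.last (n + 1))
        have e2 := (h1' (n + 1) (by omega)).2
        rw [sg, if_pos h] at e1
        simp only [Fin.val_last] at e1
        have e3 : hgt V (n + 2) = hgt V (n + 1 + 1) := rfl
        omega
      set U : Finset (Fin n) := univ.filter (fun i => eF n i ∈ V) with hU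
      have hUV : U.map (eF n) = V := by
        ext i
        rw [Finset.mem_map]
        constructor
        · rintro ⟨j, hj, rfl⟩
          exact (Finset.mem_filter.1 hj).2
        · intro hi
          revert hi
          refine Fin.cases ?_ (fun j => ?_) i
          · intro h; exact absurd h h0V
          · refine Fin.lastCases ?_ (fun k => ?_) j
            · intro h
              rw [Fin.succ_last] at h
              exact absurd h hlV
            · intro h
              exact ⟨k, Finset.mem_filter.2 ⟨Finset.mem_univ _, h⟩, rfl⟩
      refine ⟨U, ?_, ?_⟩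
      · rw [good_iff]
        have hcard : U.card = s := by
          rw [← hUV, hgt_map, cb_top U (by omega)] at h2
          push_cast at h2
          omega
        refine ⟨hcard, ?_⟩
        intro k hk
        have h3 := h1' (k + 1) (by omega)
        rw [← hUV, hgt_map, Nat.add_sub_cancel] at h3
        push_cast at h3
        omega
      · dsimp only
        rw [hUV, hc]
    · rintro ⟨U, hU, rfl⟩
      obtain ⟨h1, h2⟩ := good_hgt hU
      refine ⟨?_, ?_⟩
      · intro k
        have h3 := sum_eq_hgt (U.map (eF n)) k.val (by have := k.2; omega)
        dsimp only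
        rw [h3]
        exact h1 k.val (by have := k.2; omega)
      · dsimp only
        rw [htot, h2]
  rw [himg, Set.ncard_image_of_injective]
  intro U V h
  apply Finset.map_injective (eF n)
  ext i
  have h1 := congrFun h i
  exact not_iff_not.1 (decide_eq_decide.1 h1)

end Pool.Agent.Helper58.Quad
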