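import Mathlib
import Pool.Agent.Helper58.Quad.ExtLower

set_option autoImplicit false

namespace Pool.Agent.Helper58.Quad

open Module Finset Filter Topology

variable {n s : ℕ}

theorem mem_JJ {f g : EA n} (hf : f ∈ gr n 2) (hg : g ∈ gr n 2) {x : EA n} :
    x ∈ JJ f g ↔ ∃ η η', x = f * η + g * η' := by
  constructor
  · intro hx
    induction hx using Submodule.span_induction with
    | mem a ha =>
      obtain ⟨u, v, rfl | rfl⟩ := ha
      · exact ⟨u * v, 0, by rw [mul_zero, add_zero, ← gr_two_comm hf u, mul_assoc]⟩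
      · exact ⟨0, u * v, by rw [mul_zero, zero_add, ← gr_two_comm hg u, mul_assoc]⟩
    | zero => exact ⟨0, 0, by simp⟩
    | add b c _ _ hb hc =>
      obtain ⟨η1, η1', rfl⟩ := hb
      obtain ⟨η2, η2', rfl⟩ := hc
      exact ⟨η1 + η2, η1' + η2', by rw [mul_add, mul_add]; abel⟩
    | smul t b _ hb =>
      obtain ⟨η1, η1', rfl⟩ := hb
      exact ⟨t • η1, t • η1', by rw [mul_smul_comm, mul_smul_comm, smul_add]⟩
  · rintro ⟨η, η', rfl⟩
    apply Submodule.add_mem
    · exact Submodule.subset_span ⟨1, η, Or.inl (by rw [one_mul])⟩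
    · exact Submodule.subset_span ⟨1, η', Or.inr (by rw [one_mul])⟩

/-- projection to degree `s` -/
noncomputable def PP (n s : ℕ) : EA n →ₗ[ℂ] EA n :=
  GradedAlgebra.proj (fun i : ℕ ↦ ExteriorAlgebra.exteriorPower ℂ i (Fin n → ℂ)) s

theorem PP_mem (x : EA n) : PP n s x ∈ gr n s := by
  rw [PP, GradedAlgebra.proj_apply]
  exact Submodule.coe_mem _

theorem PP_eq_self {x : EA n} (hx : x ∈ gr n s) : PP n s x = x := by
  rw [PP, GradedAlgebra.proj_apply]
  exact DirectSum.decompose_of_mem_same _ hx

theorem PP_mul {f : EA n} (hf : f ∈ gr n 2) (η : EA n) : ∃ ζ, PP n s (f * η) = f * ζ := by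
  classical
  rw [PP, GradedAlgebra.proj_apply]
  rw [DirectSum.coe_decompose_mul_of_left_mem
    (fun i : ℕ ↦ ExteriorAlgebra.exteriorPower ℂ i (Fin n → ℂ)) (i := 2) (b := η) s hf]
  split_ifs
  · exact ⟨_, rfl⟩
  · exact ⟨0, by rw [mul_zero]⟩

/-- the map whose range is the degree `s` part of the ideal -/
noncomputable def Phi (s : ℕ) (f g : EA n) : (EA n × EA n) →ₗ[ℂ] EA n :=
  PP n s ∘ₗ ((LinearMap.mulLeft ℂ f).coprod (LinearMap.mulLeft ℂ g))

theorem Phi_apply (f g : EA n) (p : EA n × EA n) :
    Phi s f g p = PP n s (f * p.1 + g * p.2) := rfl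

theorem range_Phi {f g : EA n} (hf : f ∈ gr n 2) (hg : g ∈ gr n 2) :
    LinearMap.range (Phi s f g) = gr n s ⊓ JJ f g := by
  ext x
  rw [LinearMap.mem_range, Submodule.mem_inf, mem_JJ hf hg]
  constructor
  · rintro ⟨⟨η, η'⟩, rfl⟩
    rw [Phi_apply]
    refine ⟨PP_mem _, ?_⟩
    obtain ⟨ζ, hζ⟩ := PP_mul (s := s) hf η
    obtain ⟨ζ', hζ'⟩ := PP_mul (s := s) hg η'
    exact ⟨ζ, ζ', by rw [map_add, hζ, hζ']⟩
  · rintro ⟨hx, η, η', rfl⟩
    exact ⟨(η, η'), by rw [Phi_apply, PP_eq_self hx]⟩

theorem finrank_add_range {f g : EA n} (hf : f ∈ gr n 2) (hg : g ∈ gr n 2) :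
    finrank ℂ (↥(gr n s) ⧸ Submodule.comap (gr n s).subtype (JJ f g)) +
      finrank ℂ (LinearMap.range (Phi s f g)) = finrank ℂ (gr n s) := by
  rw [range_Phi hf hg, ← Submodule.finrank_quotient_add_finrank
    (Submodule.comap (gr n s).subtype (JJ f g))]
  congr 1
  rw [← Submodule.map_comap_subtype]
  exact (Submodule.equivMapOfInjective _ (Submodule.subtype_injective _) _).finrank_eq.symm

theorem Phi_sum (s N : ℕ) (f g : ℕ → EA n) (t : ℂ) :
    Phi s (∑ k ∈ range N, t ^ k • f k) (∑ k ∈ range N, t ^ k • g k)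
      = ∑ k ∈ range N, t ^ k • Phi s (f k) (g k) := by
  apply LinearMap.ext
  intro p
  rw [Phi_apply, Finset.sum_mul, Finset.sum_mul, ← Finset.sum_add_distrib, map_sum,
    LinearMap.sum_apply]
  apply Finset.sum_congr rfl
  intro k _
  rw [LinearMap.smul_apply, Phi_apply, smul_mul_assoc, smul_mul_assoc, ← smul_add, map_smul]

theorem qf_add (B C : Matrix (Fin n) (Fin n) ℂ) : qf (B + C) = qf B + qf C := by
  simp only [qf, Matrix.add_apply, add_smul, Finset.sum_add_distrib]

theorem qf_smul (c : ℂ) (B : Matrix (Fin n) (Fin n) ℂ) : qf (c • B) = c • qf B := by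
  simp only [qf, Matrix.smul_apply, smul_eq_mul, mul_smul, Finset.smul_sum]

theorem qf_sum (N : ℕ) (B : ℕ → Matrix (Fin n) (Fin n) ℂ) (t : ℂ) :
    qf (∑ k ∈ range N, t ^ k • B k) = ∑ k ∈ range N, t ^ k • qf (B k) := by
  induction N with
  | zero => simp [qf]
  | succ N ih => rw [Finset.sum_range_succ, Finset.sum_range_succ, qf_add, qf_smul, ih]

/-- skew quadratic forms exhaust degree two -/
theorem exists_skew {f : EA n} (hf : f ∈ gr n 2) :
    ∃ B : Matrix (Fin n) (Fin n) ℂ, (∀ a b, B a b = - B b a) ∧ f = qf B := by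
  classical
  rw [gr_eq_Sp] at hf
  induction hf using Submodule.span_induction with
  | mem a ha =>
    obtain ⟨U, hU, rfl⟩ := ha
    obtain ⟨i, j, hij, rfl⟩ := Finset.card_eq_two.1 hU
    have hd : Disjoint ({i} : Finset (Fin n)) {j} := by
      rw [Finset.disjoint_singleton]; exact hij
    obtain ⟨ε, hε, h⟩ := bE_mul_of_disjoint hd
    rw [bE_singleton, bE_singleton] at h
    have h2 : bE n {i, j} = ε⁻¹ • (eι i * eι j) := by
      rw [h, smul_smul, inv_mul_cancel₀ hε, one_smul]
      rfl
    refine ⟨Matrix.single i j (ε⁻¹ / 2) - Matrix.single j i (ε⁻¹ / 2), ?_, ?_⟩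
    · intro a b
      rw [Matrix.sub_apply, Matrix.sub_apply]
      simp only [Matrix.single_apply]
      rw [neg_sub]
      congr 1 <;> · congr 1; rw [and_comm]
    · have h3 : ∀ (i j : Fin n) (c : ℂ), qf (Matrix.single i j c) = c • (eι i * eι j) := by
        intro i j c
        rw [qf, Finset.sum_eq_single i, Finset.sum_eq_single j]
        · simp
        · intro b _ hb
          rw [Matrix.single_apply, if_neg (fun h => hb h.2.symm), zero_smul]
        · intro h; exact absurd (Finset.mem_univ _) h
        · intro a _ ha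
          apply Finset.sum_eq_zero
          intro b _
          rw [Matrix.single_apply, if_neg (fun h => ha h.1.symm), zero_smul]
        · intro h; exact absurd (Finset.mem_univ _) h
      have h4 : Matrix.single i j (ε⁻¹ / 2) - Matrix.single j i (ε⁻¹ / 2)
          = Matrix.single i j (ε⁻¹ / 2) + (-1 : ℂ) • Matrix.single j i (ε⁻¹ / 2) := by
        rw [neg_one_smul, sub_eq_add_neg]
      rw [h4, qf_add, qf_smul, h3, h3, h2, eι_mul_eι_comm j i, smul_neg, smul_neg, neg_smul,
        one_smul, neg_neg, ← add_smul]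
      congr 1
      ring
  | zero => exact ⟨0, by simp, by simp [qf]⟩
  | add b c _ _ hb hc =>
    obtain ⟨B1, h1, rfl⟩ := hb
    obtain ⟨B2, h2, rfl⟩ := hc
    refine ⟨B1 + B2, ?_, (qf_add _ _).symm⟩
    intro a b
    rw [Matrix.add_apply, Matrix.add_apply, h1, h2]
    ring
  | smul t b _ hb =>
    obtain ⟨B1, h1, rfl⟩ := hb
    refine ⟨t • B1, ?_, (qf_smul _ _).symm⟩
    intro a b
    rw [Matrix.smul_apply, Matrix.smul_apply, h1]
    simp

/-- the reference skew matrix -/
def OO (n : ℕ) : Matrix (Fin n) (Fin n) ℂ :=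
  Matrix.of fun a b => if a < b then 1 else if b < a then -1 else 0

theorem OO_skew (a b : Fin n) : OO n a b = - OO n b a := by
  simp only [OO, Matrix.of_apply]
  rcases lt_trichotomy a b with h | h | h
  · rw [if_pos h, if_neg (not_lt.2 h.le), if_pos h, neg_neg]
  · rw [h]; simp
  · rw [if_neg (not_lt.2 h.le), if_pos h, if_pos h]

theorem bl_single_left (B : Matrix (Fin n) (Fin n) ℂ) (a : Fin n) (x : Fin n → ℂ) :
    bl B (Pi.single a 1) x = ∑ b, B a b * x b := by
  rw [bl, Matrix.toBilin'_apply, Finset.sum_eq_single a]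
  · apply Finset.sum_congr rfl
    intro b _
    rw [Pi.single_eq_same, one_mul]
  · intro b _ hb
    apply Finset.sum_eq_zero
    intro c _
    rw [Pi.single_eq_of_ne hb, zero_mul, zero_mul]
  · intro h; exact absurd (Finset.mem_univ _) h

theorem ND_OO : ND (OO n) := by
  classical
  intro W hW x hx hWx
  set S : ℕ → ℂ := fun k => ∑ b ∈ univ.filter (fun b : Fin n => (b : ℕ) < k), x b with hS
  set T : ℂ := ∑ b, x b with hT
  have hstep : ∀ a : Fin n, S ((a : ℕ) + 1) = S a + x a := by
    intro a
    simp only [hS]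
    have h1 : univ.filter (fun b : Fin n => (b : ℕ) < (a : ℕ) + 1)
        = insert a (univ.filter (fun b : Fin n => (b : ℕ) < (a : ℕ))) := by
      ext b
      simp only [Finset.mem_filter, Finset.mem_univ, true_and, Finset.mem_insert]
      constructor
      · intro h
        rcases Nat.lt_succ_iff_lt_or_eq.1 h with h | h
        · right; exact h
        · left; exact Fin.ext h
      · rintro (rfl | h)
        · omega
        · omega
    rw [h1, Finset.sum_insert (by simp), add_comm]
  have hSn : S n = T := by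
    simp only [hS, hT]
    congr 1
    ext b
    simp
  have hkey : ∀ a ∈ W, S ((a : ℕ) + 1) + S a = T := by
    intro a ha
    have h1 := hWx a ha
    rw [bl_single_left] at h1
    have h2 : ∑ b, OO n a b * x b = (T - S ((a : ℕ) + 1)) - S a := by
      have h3 : ∀ b, OO n a b * x b = (if (a : ℕ) + 1 ≤ (b : ℕ) then x b else 0) -
          (if (b : ℕ) < (a : ℕ) then x b else 0) := by
        intro b
        simp only [OO, Matrix.of_apply, Fin.lt_def]
        rcases lt_trichotomy (a : ℕ) (b : ℕ) with h | h | h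
        · rw [if_pos h, if_pos (show (a : ℕ) + 1 ≤ (b : ℕ) by omega), if_neg (not_lt.2 h.le)]; ring
        · rw [if_neg (by omega), if_neg (by omega), if_neg (by omega), if_neg (by omega)]; ring
        · rw [if_neg (by omega), if_pos h, if_neg (by omega), if_pos h]; ring
      rw [Finset.sum_congr rfl (fun b _ => h3 b), Finset.sum_sub_distrib, ← Finset.sum_filter,
        ← Finset.sum_filter]
      congr 1
      rw [eq_sub_iff_add_eq]
      simp only [hS, hT]
      rw [← Finset.sum_filter_add_sum_filter_not univ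
        (fun b : Fin n => (a : ℕ) + 1 ≤ (b : ℕ)) x]
      congr 1
      apply Finset.sum_congr _ (fun _ _ => rfl)
      ext b
      simp
    rw [h2] at h1
    linear_combination -h1
  have hind : ∀ k, k ≤ n → S k = if Odd (W.filter (fun b : Fin n => (b : ℕ) < k)).card
      then T else 0 := by
    intro k
    induction k with
    | zero => intro _; simp [hS]
    | succ k ih =>
      intro hk
      have ih' := ih (by omega)
      have hs := hstep ⟨k, hk⟩
      by_cases hkW : (⟨k, hk⟩ : Fin n) ∈ W
      · have h1 : W.filter (fun b : Fin n => (b : ℕ) < k + 1)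
            = insert ⟨k, hk⟩ (W.filter (fun b : Fin n => (b : ℕ) < k)) := by
          ext b
          simp only [Finset.mem_filter, Finset.mem_insert]
          constructor
          · rintro ⟨h, h'⟩
            rcases Nat.lt_succ_iff_lt_or_eq.1 h' with h' | h'
            · right; exact ⟨h, h'⟩
            · left; exact Fin.ext h'
          · rintro (rfl | ⟨h, h'⟩)
            · exact ⟨hkW, by simp⟩
            · exact ⟨h, by omega⟩
        have h2 := hkey _ hkW
        rw [h1, Finset.card_insert_of_notMem (by simp)]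
        have h3 : S (k + 1) = T - S k := by
          have : S (((⟨k, hk⟩ : Fin n) : ℕ) + 1) + S ((⟨k, hk⟩ : Fin n) : ℕ) = T := h2
          simp only at this
          linear_combination this
        rw [h3, ih']
        by_cases ho : Odd (W.filter (fun b : Fin n => (b : ℕ) < k)).card
        · rw [if_pos ho, if_neg (by rw [Nat.not_odd_iff_even]; exact ho.add_one), sub_self]
        · rw [if_neg ho, if_pos (by rw [Nat.not_odd_iff_even] at ho; exact ho.add_one), sub_zero]
      · have h1 : W.filter (fun b : Fin n => (b : ℕ) < k + 1)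
            = W.filter (fun b : Fin n => (b : ℕ) < k) := by
          ext b
          simp only [Finset.mem_filter]
          constructor
          · rintro ⟨h, h'⟩
            rcases Nat.lt_succ_iff_lt_or_eq.1 h' with h' | h'
            · exact ⟨h, h'⟩
            · exact absurd h (by rw [show b = ⟨k, hk⟩ from Fin.ext h']; exact hkW)
          · rintro ⟨h, h'⟩
            exact ⟨h, by omega⟩
        rw [h1, ← ih']
        have h3 : S (k + 1) = S k + x ⟨k, hk⟩ := hs
        rw [h3, hx _ hkW, add_zero]
  have hT0 : T = 0 := by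
    have h1 := hind n le_rfl
    have h2 : W.filter (fun b : Fin n => (b : ℕ) < n) = W := by
      apply Finset.filter_true_of_mem
      intro b _
      exact b.2
    rw [h2, if_neg (by rw [Nat.not_odd_iff_even]; exact hW), hSn] at h1
    exact h1
  have hS0 : ∀ k, k ≤ n → S k = 0 := by
    intro k hk
    rw [hind k hk, hT0]
    split_ifs <;> rfl
  funext a
  have h1 := hstep a
  rw [hS0 _ a.2, hS0 _ a.2.le] at h1
  simpa using h1.symm

theorem ND_iff (B : Matrix (Fin n) (Fin n) ℂ) :
    ND B ↔ ∀ W : Finset (Fin n), Even W.card →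
      (B.submatrix (fun a : W => a.1) (fun a : W => a.1)).det ≠ 0 := by
  classical
  constructor
  · intro h W hW hdet
    rw [← Matrix.exists_mulVec_eq_zero_iff] at hdet
    obtain ⟨v, hv, hv0⟩ := hdet
    apply hv
    have h1 : (fun a : Fin n => if ha : a ∈ W then v ⟨a, ha⟩ else 0) = 0 := by
      apply h W hW
      · intro a ha
        rw [dif_neg ha]
      · intro a ha
        rw [bl_single_left]
        have h2 := congrFun hv0 ⟨a, ha⟩
        simp only [Matrix.mulVec, dotProduct, Matrix.submatrix_apply, Pi.zero_apply] at h2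
        refine Eq.trans ?_ h2
        rw [← Finset.sum_subset (Finset.subset_univ W)]
        · rw [← Finset.sum_coe_sort W]
          apply Finset.sum_congr rfl
          intro b _
          rw [dif_pos b.2]
        · intro b _ hb
          rw [dif_neg hb, mul_zero]
    funext a
    have h3 := congrFun h1 a.1
    simp only [Pi.zero_apply] at h3
    rw [dif_pos a.2] at h3
    exact h3
  · intro h W hW x hx hWx
    have hdet := h W hW
    by_contra hne
    apply hdet
    rw [← Matrix.exists_mulVec_eq_zero_iff]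
    refine ⟨fun a => x a.1, ?_, ?_⟩
    · intro h0
      apply hne
      funext a
      by_cases ha : a ∈ W
      · exact congrFun h0 ⟨a, ha⟩
      · exact hx a ha
    · funext a
      have h1 := hWx a.1 a.2
      rw [bl_single_left] at h1
      simp only [Matrix.mulVec, dotProduct, Matrix.submatrix_apply, Pi.zero_apply]
      rw [← h1, ← Finset.sum_subset (Finset.subset_univ W)]
      · rw [← Finset.sum_coe_sort W]
      · intro b _ hb
        rw [hx b hb, mul_zero]

open Polynomial in
theorem finite_det_zero {ι : Type*} [Fintype ι] [DecidableEq ι] (P Q : Matrix ι ι ℂ)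
    (h : (P + Q).det ≠ 0) : {c : ℂ | (P + c • Q).det = 0}.Finite := by
  let M : Matrix ι ι ℂ[X] := Matrix.of fun a b => C (P a b) + X * C (Q a b)
  have hM : ∀ c, (M.det).eval c = (P + c • Q).det := by
    intro c
    have h1 := RingHom.map_det (Polynomial.evalRingHom c) M
    rw [Polynomial.coe_evalRingHom] at h1
    rw [h1]
    congr 1
    ext a b
    simp only [M, RingHom.mapMatrix_apply, Matrix.map_apply, Matrix.of_apply,
      Polynomial.coe_evalRingHom, Matrix.add_apply, Matrix.smul_apply, smul_eq_mul,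
      Polynomial.eval_add, Polynomial.eval_mul, Polynomial.eval_C, Polynomial.eval_X]
  have hM0 : M.det ≠ 0 := by
    intro h0
    have h2 := hM 1
    rw [h0, eval_zero, one_smul] at h2
    exact h h2.symm
  refine (M.det.roots.toFinset.finite_toSet).subset ?_
  intro c hc
  change (P + c • Q).det = 0 at hc
  rw [Finset.mem_coe, Multiset.mem_toFinset, Polynomial.mem_roots hM0, Polynomial.IsRoot, hM, hc]

/-- principal submatrix -/
abbrev prin (B : Matrix (Fin n) (Fin n) ℂ) (W : Finset (Fin n)) : Matrix W W ℂ :=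
  B.submatrix (fun a : W => a.1) (fun a : W => a.1)

theorem finite_prin (B : Matrix (Fin n) (Fin n) ℂ) (W : Finset (Fin n)) (hW : Even W.card) :
    {c : ℂ | (prin (B + c • (OO n - B)) W).det = 0}.Finite := by
  have h3 : prin B W + prin (OO n - B) W = prin (OO n) W := by
    ext a b
    simp
  have h2 := finite_det_zero (prin B W) (prin (OO n - B) W) (by
      rw [h3]
      exact (ND_iff (OO n)).1 ND_OO W hW)
  have h4 : ∀ c : ℂ, prin (B + c • (OO n - B)) W = prin B W + c • prin (OO n - B) W := by
    intro c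
    ext a b
    simp
  simp only [h4]
  exact h2

theorem finite_not_ND (B : Matrix (Fin n) (Fin n) ℂ) :
    {c : ℂ | ¬ ND (B + c • (OO n - B))}.Finite := by
  have h5 : (⋃ W : {W : Finset (Fin n) // Even W.card},
      {c : ℂ | (prin (B + c • (OO n - B)) W.1).det = 0}).Finite :=
    Set.finite_iUnion (fun W => finite_prin B W.1 W.2)
  refine h5.subset ?_
  intro c hc
  have hc' : ¬ ND (B + c • (OO n - B)) := hc
  rw [ND_iff] at hc'
  push Not at hc'
  obtain ⟨W, hW, h⟩ := hc'
  rw [Set.mem_iUnion]
  exact ⟨⟨W, hW⟩, h⟩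

theorem Bt_sum (B : Matrix (Fin n) (Fin n) ℂ) (t : ℂ) :
    Bt B t = ∑ k ∈ range (2 * n + 1), t ^ k •
      (Matrix.of fun a b : Fin n => if (a : ℕ) + (b : ℕ) = k then B a b else 0) := by
  ext a b
  rw [Matrix.sum_apply, Finset.sum_eq_single ((a : ℕ) + (b : ℕ))]
  · simp [Bt]
  · intro k _ hk
    simp [hk.symm]
  · intro h
    exfalso
    apply h
    rw [Finset.mem_range]
    have := a.2
    have := b.2
    omega

theorem Ct_sum (C : Matrix (Fin n) (Fin n) ℂ) (t : ℂ) :
    Ct C t = ∑ k ∈ range (2 * n + 1), t ^ k •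
      (Matrix.of fun a b : Fin n => if 2 * n - ((a : ℕ) + (b : ℕ)) = k then C a b else 0) := by
  ext a b
  rw [Matrix.sum_apply, Finset.sum_eq_single (2 * n - ((a : ℕ) + (b : ℕ)))]
  · simp [Ct]
  · intro k _ hk
    simp [hk.symm]
  · intro h
    exfalso
    apply h
    rw [Finset.mem_range]
    omega

/-- General lower bound for the exterior algebra. -/
theorem ext_lower (n s : ℕ) {f g : EA n} (hf : f ∈ gr n 2) (hg : g ∈ gr n 2) :
    Set.ncard (Good n s) ≤
      finrank ℂ (↥(gr n s) ⧸ Submodule.comap (gr n s).subtype (JJ f g)) := by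
  classical
  by_contra hcon
  rw [not_le] at hcon
  obtain ⟨B, hB, rfl⟩ := exists_skew hf
  obtain ⟨C, hC, rfl⟩ := exists_skew hg
  set a := Set.ncard (Good n s) with ha
  set D := finrank ℂ (gr n s) with hD
  have h0 := finrank_add_range (s := s) hf hg
  have haD : a ≤ D := by
    obtain ⟨t, ht⟩ := (special_lower (OO_skew (n := n)) (OO_skew (n := n)) ND_OO ND_OO s).exists
    exact ht.trans (Submodule.finrank_quotient_le _)
  have h1 : D - a < finrank ℂ (LinearMap.range (Phi s (qf B) (qf C))) := by omega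
  -- move to a generic pair
  obtain ⟨c, hc1, hc2, hc3⟩ : ∃ c : ℂ, ND (B + c • (OO n - B)) ∧ ND (C + c • (OO n - C)) ∧
      D - a < finrank ℂ (LinearMap.range
        (Phi s (qf (B + c • (OO n - B))) (qf (C + c • (OO n - C))))) := by
    let Ψ : ℕ → ((EA n × EA n) →ₗ[ℂ] EA n) := fun k =>
      if k = 0 then Phi s (qf B) (qf C) else Phi s (qf (OO n - B)) (qf (OO n - C))
    have hΨ : ∀ c : ℂ, Phi s (qf (B + c • (OO n - B))) (qf (C + c • (OO n - C)))
        = ∑ k ∈ range 2, c ^ k • Ψ k := by
      intro c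
      rw [qf_add, qf_add, qf_smul, qf_smul]
      apply LinearMap.ext
      intro p
      simp only [Finset.sum_range_succ, Finset.sum_range_zero, zero_add, pow_zero, one_smul,
        pow_one, LinearMap.add_apply, LinearMap.smul_apply, Ψ, if_true, one_ne_zero, if_false]
      rw [Phi_apply, Phi_apply, Phi_apply, ← map_smul, ← map_add]
      congr 1
      rw [add_mul, add_mul, smul_mul_assoc, smul_mul_assoc, smul_add]
      abel
    have hfin := finite_setOf_finrank_range_le 2 Ψ 0 (D - a) (by
      rw [← hΨ 0]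
      have e1 : B + (0 : ℂ) • (OO n - B) = B := by ext a b; simp
      have e2 : C + (0 : ℂ) • (OO n - C) = C := by ext a b; simp
      rw [e1, e2]
      exact h1)
    have hall := ((finite_not_ND B).union (finite_not_ND C)).union hfin
    obtain ⟨c, hc⟩ := hall.exists_notMem
    rw [Set.mem_union, Set.mem_union, not_or, not_or] at hc
    refine ⟨c, not_not.1 hc.1.1, not_not.1 hc.1.2, ?_⟩
    have := hc.2
    change ¬ (finrank ℂ (LinearMap.range (∑ k ∈ range 2, c ^ k • Ψ k)) ≤ D - a) at this
    rw [hΨ c]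
    exact not_le.1 this
  set B' := B + c • (OO n - B) with hB'
  set C' := C + c • (OO n - C) with hC'
  have hBs : ∀ a b, B' a b = - B' b a := by
    intro a b
    rw [hB']
    simp only [Matrix.add_apply, Matrix.smul_apply, Matrix.sub_apply, smul_eq_mul]
    rw [hB a b, OO_skew a b]
    ring
  have hCs : ∀ a b, C' a b = - C' b a := by
    intro a b
    rw [hC']
    simp only [Matrix.add_apply, Matrix.smul_apply, Matrix.sub_apply, smul_eq_mul]
    rw [hC a b, OO_skew a b]
    ring
  have hsp := special_lower hBs hCs hc1 hc2 s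
  let Θ : ℕ → ((EA n × EA n) →ₗ[ℂ] EA n) := fun k =>
    Phi s (qf (Matrix.of fun a b : Fin n => if (a : ℕ) + (b : ℕ) = k then B' a b else 0))
      (qf (Matrix.of fun a b : Fin n => if 2 * n - ((a : ℕ) + (b : ℕ)) = k then C' a b else 0))
  have hΘ : ∀ t : ℂ, Phi s (qf (Bt B' t)) (qf (Ct C' t))
      = ∑ k ∈ range (2 * n + 1), t ^ k • Θ k := by
    intro t
    rw [Bt_sum, Ct_sum, qf_sum, qf_sum, Phi_sum]
  have hone : Bt B' 1 = B' ∧ Ct C' 1 = C' := by
    constructor
    · ext a b; simp [Bt]
    · ext a b; simp [Ct]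
  have hfin := finite_setOf_finrank_range_le (2 * n + 1) Θ 1 (D - a) (by
    rw [← hΘ 1, hone.1, hone.2]
    exact hc3)
  have hinf : {x : ℂ | finrank ℂ (LinearMap.range
      (∑ k ∈ range (2 * n + 1), x ^ k • Θ k)) ≤ D - a} ∈ 𝓝 (0 : ℂ) := by
    filter_upwards [hsp] with t ht
    rw [← hΘ t]
    have h2 := finrank_add_range (s := s) (qf_mem (Bt B' t)) (qf_mem (Ct C' t))
    omega
  exact (infinite_of_mem_nhds (0 : ℂ) hinf) hfin

end Pool.Agent.Helper58.Quad
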