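import Mathlib
import Pool.Agent.Helper58.Quad.GoodIff
import Pool.Agent.Helper58.Quad.Semi

set_option autoImplicit false

namespace Pool.Agent.Helper58.Quad

open Module Finset MvPolynomial Filter Topology

variable {n s N : ℕ}

/-- rescaled bracket -/
noncomputable def kap (a b : Fin N → ℂ) (i j : Fin N) (t : ℂ) : ℂ :=
  if (i : ℕ) < j then a i * b j - t ^ (2 * ((j : ℕ) - i)) * (a j * b i)
  else t ^ (2 * ((i : ℕ) - j)) * (a i * b j) - a j * b i

theorem kap_brk (a b : Fin N → ℂ) {t : ℂ} (ht : t ≠ 0) (i j : Fin N) :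
    brk (fun i : Fin N => t ^ (i : ℕ) * a i) (fun i : Fin N => (t⁻¹) ^ (i : ℕ) * b i) i j * t ^ (dd i j) =
      kap a b i j t := by
  rw [brk, kap, dd]
  have h0 : ∀ k : ℕ, t ^ k * (t⁻¹) ^ k = 1 := by
    intro k
    rw [← mul_pow, mul_inv_cancel₀ ht, one_pow]
  by_cases h : (i : ℕ) < j
  · rw [if_pos h]
    obtain ⟨d, hd⟩ := Nat.exists_eq_add_of_lt h
    have e1 : (i : ℕ) - j = 0 := by omega
    have e2 : (j : ℕ) - i = d + 1 := by omega
    have e3 : (j : ℕ) = i + (d + 1) := by omega
    rw [e1, e2, e3, pow_add, pow_add, zero_add, two_mul, pow_add]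
    have h1 := h0 i
    have h2 := h0 (d + 1)
    linear_combination (t ^ (d + 1) * (t⁻¹) ^ (d + 1) * (a i * b j) -
      t ^ (d + 1) * t ^ (d + 1) * (a j * b i)) * h1 + (a i * b j) * h2
  · rw [if_neg h]
    obtain ⟨d, hd⟩ := Nat.exists_eq_add_of_le (not_lt.1 h)
    have e1 : (i : ℕ) - j = d := by omega
    have e2 : (j : ℕ) - i = 0 := by omega
    rw [e1, e2, hd, pow_add, pow_add, add_zero, two_mul, pow_add]
    have h1 := h0 j
    have h2 := h0 d
    linear_combination (t ^ d * t ^ d * (a i * b j) -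
      t ^ d * (t⁻¹) ^ d * (a j * b i)) * h1 - (a j * b i) * h2

theorem kap_zero (a b : Fin N → ℂ) (hab : ∀ i j : Fin N, i < j → a i * b j ≠ 0) (i j : Fin N)
    (hij : i ≠ j) : kap a b i j 0 ≠ 0 := by
  rw [kap]
  rcases lt_or_gt_of_ne hij with h | h
  · rw [if_pos (Fin.lt_def.1 h), zero_pow (by have := Fin.lt_def.1 h; omega), zero_mul, sub_zero]
    exact hab i j h
  · rw [if_neg (by have := Fin.lt_def.1 h; omega), zero_pow (by have := Fin.lt_def.1 h; omega),
      zero_mul, zero_sub]
    exact neg_ne_zero.2 (hab j i h)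

theorem continuous_kap (a b : Fin N → ℂ) (i j : Fin N) : Continuous (kap a b i j) := by
  unfold kap
  split_ifs <;> fun_prop

theorem FF_scale (B : Fin N → ℤ) (a b : Fin N → ℂ) {t : ℂ} (ht : t ≠ 0) (V : Finset (Fin N))
    (hV : Bal B V) :
    FF B (fun i : Fin N => t ^ (i : ℕ) * a i) (fun i : Fin N => (t⁻¹) ^ (i : ℕ) * b i) V =
      t ^ (cut B V) * ∏ i ∈ V, ∏ j ∈ univ.filter (fun j => j ∉ V ∧ B j = B i),
        (kap a b i j t)⁻¹ := by
  rw [FF, if_pos hV, cut, ← Finset.prod_pow_eq_pow_sum, ← Finset.prod_mul_distrib]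
  apply Finset.prod_congr rfl
  intro i _
  rw [← Finset.prod_pow_eq_pow_sum, ← Finset.prod_mul_distrib]
  apply Finset.prod_congr rfl
  intro j _
  rw [← kap_brk a b ht, mul_inv]
  have : t ^ dd i j ≠ 0 := pow_ne_zero _ ht
  field_simp

open Classical in
/-- normalised matrix entries -/
noncomputable def Mt (a b : Fin N → ℂ) (U V : Finset (Fin N)) (t : ℂ) : ℂ :=
  if Bal (blk U) V then t ^ (cut (blk U) V - cut (blk U) U) *
    ∏ i ∈ V, ∏ j ∈ univ.filter (fun j => j ∉ V ∧ blk U j = blk U i), (kap a b i j t)⁻¹ else 0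

theorem continuousAt_Mt (a b : Fin N → ℂ) (hab : ∀ i j : Fin N, i < j → a i * b j ≠ 0)
    (U V : Finset (Fin N)) : ContinuousAt (Mt a b U V) 0 := by
  unfold Mt
  split_ifs
  · refine ContinuousAt.mul (continuous_pow _).continuousAt ?_
    refine tendsto_finsetProd _ ?_
    intro i hi
    refine tendsto_finsetProd _ ?_
    intro j hj
    have hij : i ≠ j := by
      rintro rfl
      exact (Finset.mem_filter.1 hj).2.1 hi
    exact (continuous_kap a b i j).continuousAt.inv₀ (kap_zero a b hab i j hij)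
  · exact continuousAt_const

theorem eventually_unit (a b : Fin N → ℂ) (hab : ∀ i j : Fin N, i < j → a i * b j ≠ 0)
    {G : Type*} [Fintype G] [DecidableEq G] (u : G → Finset (Fin N)) (hu : Function.Injective u)
    (hG : ∀ x, Bal (blk (u x)) (u x) ∧ ∀ i, ∀ r ≤ N, PS (blk (u x)) (u x) (blk (u x) i) r = 0 ∨
      PS (blk (u x)) (u x) (blk (u x) i) r = 1) :
    ∀ᶠ t in 𝓝 (0 : ℂ), IsUnit (Matrix.of fun x y => Mt a b (u x) (u y) t) := by
  have h1 : ContinuousAt (fun t => (Matrix.of fun x y => Mt a b (u x) (u y) t).det) 0 := by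
    have h2 : ContinuousAt (fun t => (Matrix.of fun x y => Mt a b (u x) (u y) t)) 0 := by
      refine continuousAt_pi.2 (fun x => ?_)
      refine continuousAt_pi.2 (fun y => ?_)
      exact continuousAt_Mt a b hab _ _
    exact (Continuous.matrix_det continuous_id).continuousAt.comp h2
  have h3 : (Matrix.of fun x y => Mt a b (u x) (u y) 0).det ≠ 0 := by
    have h4 : (Matrix.of fun x y => Mt a b (u x) (u y) 0) =
        Matrix.diagonal (fun x => Mt a b (u x) (u x) 0) := by
      ext x y
      rw [Matrix.of_apply, Matrix.diagonal_apply]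
      split_ifs with hxy
      · rw [hxy]
      · rw [Mt]
        split_ifs with hB
        · have h5 := cut_lt (blk (u x)) (u x) (u y) (hG x).1 hB (hG x).2
            (fun h => hxy (hu h).symm)
          rw [zero_pow (by omega), zero_mul]
        · rfl
    rw [h4, Matrix.det_diagonal, Finset.prod_ne_zero_iff]
    intro x _
    rw [Mt, if_pos (hG x).1, Nat.sub_self, pow_zero, one_mul, Finset.prod_ne_zero_iff]
    intro i hi
    rw [Finset.prod_ne_zero_iff]
    intro j hj
    have hij : i ≠ j := by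
      rintro rfl
      exact (Finset.mem_filter.1 hj).2.1 hi
    exact inv_ne_zero (kap_zero a b hab i j hij)
  filter_upwards [h1.eventually_ne h3] with t ht
  rw [Matrix.isUnit_iff_isUnit_det]
  exact isUnit_iff_ne_zero.2 ht

theorem LF_FF_vanish' {β' : Type*} [DecidableEq β'] (B : Fin (n + 2) → β') (A A' : Fin (n + 2) → ℂ)
    (hA : A (Fin.last (n + 1)) = 0) (hA' : A' 0 = 0)
    (hab : ∀ i j, i ≠ j → brk A A' i j ≠ 0) {x : MP n}
    (hx : x ∈ JS (∑ i, A (eF n i) • X i) (∑ i, A' (eF n i) • X i)) :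
    LF (fun V => FF B A A' (V.map (eF n))) x = 0 := by
  refine LF_vanish _ (fun i => A (eF n i)) (fun i => A' (eF n i)) ?_ ?_ hx
  · exact ctr_ctr_eq_zero A (FF B A A') 0 (Fin.last (n + 1))
      eF_ne_zero (fun g hg => by rw [sum_eF, hg, add_zero]) hA (by
        intro W
        have h2 := FF_kernel B A A' hab W (0, 1)
        rw [← neg_eq_zero, ← h2, ← Finset.sum_neg_distrib]
        apply Finset.sum_congr rfl
        intro i _
        ring)
  · exact ctr_ctr_eq_zero A' (FF B A A') (Fin.last (n + 1)) 0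
      eF_ne_last (fun g hg => by rw [sum_eF, hg, zero_add, add_comm]) hA' (by
        intro W
        have h2 := FF_kernel B A A' hab W (1, 0)
        rw [← h2]
        apply Finset.sum_congr rfl
        intro i _
        ring)

theorem aE_ne {a : Fin n → ℂ} (ha : ∀ i, a i ≠ 0) (i : Fin (n + 2)) (hi : i ≠ Fin.last (n + 1)) :
    aE n a i ≠ 0 := by
  revert hi
  refine Fin.cases ?_ (fun j => ?_) i
  · intro _
    simp
  · refine Fin.lastCases ?_ (fun k => ?_) j
    · intro h
      exact absurd (Fin.succ_last n) h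
    · intro _
      have := aE_eF a k
      change aE n a k.castSucc.succ = a k at this
      rw [this]
      exact ha k

theorem bE'_ne {b : Fin n → ℂ} (hb : ∀ i, b i ≠ 0) (i : Fin (n + 2)) (hi : i ≠ 0) :
    bE' n b i ≠ 0 := by
  revert hi
  refine Fin.cases ?_ (fun j => ?_) i
  · intro h
    exact absurd rfl h
  · refine Fin.lastCases ?_ (fun k => ?_) j
    · intro _
      have := bE'_last b
      rw [Fin.succ_last, this]
      exact one_ne_zero
    · intro _
      have := bE'_eF b k
      change bE' n b k.castSucc.succ = b k at this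
      rw [this]
      exact hb k

/-- dimension of the degree `s` part of the quotient -/
noncomputable def Qf (s : ℕ) (l₁ l₂ : MP n) : ℕ :=
  finrank ℂ (↥(homogeneousSubmodule (Fin n) ℂ s) ⧸
        Submodule.comap (homogeneousSubmodule (Fin n) ℂ s).subtype (JS l₁ l₂))

instance (s : ℕ) : FiniteDimensional ℂ (homogeneousSubmodule (Fin n) ℂ s) :=
  Module.Finite.iff_fg.2 (homogeneousSubmodule_fg _ _ s)

theorem mon_mem (U : Finset (Fin n)) (hU : U.card = s) :
    mon U ∈ homogeneousSubmodule (Fin n) ℂ s := by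
  rw [mem_homogeneousSubmodule, mon, ← hU, Finset.card_eq_sum_ones]
  exact IsHomogeneous.prod _ _ _ (fun i _ => isHomogeneous_X _ _)

theorem special_lowerS (a b : Fin n → ℂ) (ha : ∀ i, a i ≠ 0) (hb : ∀ i, b i ≠ 0) (s : ℕ) :
    ∀ᶠ t in 𝓝[≠] (0 : ℂ), Set.ncard (Good n s) ≤
      Qf s (∑ i : Fin n, (t ^ ((i : ℕ) + 1) * a i) • X i)
        (∑ i : Fin n, (t ^ (n - (i : ℕ)) * b i) • X i) := by
  classical
  have hab : ∀ i j : Fin (n + 2), i < j → aE n a i * bE' n b j ≠ 0 := by
    intro i j hij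
    exact mul_ne_zero (aE_ne ha i (fun h => by
      rw [h] at hij; exact absurd (Fin.le_last j) (not_le.2 hij)))
      (bE'_ne hb j (fun h => by rw [h] at hij; exact absurd hij (Fin.not_lt_zero i)))
  have h1 := eventually_unit (aE n a) (bE' n b) hab
    (fun U : Good n s => (U.1.map (eF n))) (fun U V h => Subtype.ext (Finset.map_injective _ h))
    (fun U => blk_facts _ _ (good_hgt U.2).1 (good_hgt U.2).2)
  have h2 : ∀ᶠ t in 𝓝 (0 : ℂ), ∀ i j : Fin (n + 2), i ≠ j → kap (aE n a) (bE' n b) i j t ≠ 0 := by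
    rw [eventually_all]
    intro i
    rw [eventually_all]
    intro j
    by_cases hij : i = j
    · exact Filter.Eventually.of_forall (fun t h => absurd hij h)
    · filter_upwards [(continuous_kap (aE n a) (bE' n b) i j).continuousAt.eventually_ne
        (kap_zero _ _ hab i j hij)] with t ht _
      exact ht
  filter_upwards [h1.filter_mono nhdsWithin_le_nhds, h2.filter_mono nhdsWithin_le_nhds,
    self_mem_nhdsWithin] with t ht1 ht2 ht
  have ht0 : t ≠ 0 := ht
  have hcardG : Set.ncard (Good n s) = Fintype.card (Good n s) := by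
    rw [Set.ncard_eq_toFinset_card', Set.toFinset_card]
  rw [hcardG, Qf]
  set A : Fin (n + 2) → ℂ := fun i => t ^ (i : ℕ) * aE n a i with hA
  set A' : Fin (n + 2) → ℂ := fun i => (t⁻¹) ^ (i : ℕ) * bE' n b i with hA'
  have hbrk : ∀ i j, i ≠ j → brk A A' i j ≠ 0 := by
    intro i j hij h0
    apply ht2 i j hij
    rw [← kap_brk _ _ ht0]
    rw [hA, hA'] at h0
    rw [h0, zero_mul]
  refine le_finrank_quotient (homogeneousSubmodule (Fin n) ℂ s) _ (fun U : Good n s => mon U.1)
    (fun U => mon_mem U.1 U.2.1)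
    (fun U => (t ^ (cut (blk (U.1.map (eF n))) (U.1.map (eF n))))⁻¹ •
      LF (fun V => FF (blk (U.1.map (eF n))) A A' (V.map (eF n)))) ?_ ?_
  · intro U x hx _
    rw [LinearMap.smul_apply, LF_FF_vanish' _ A A' (by simp [hA]) (by simp [hA']) hbrk, smul_zero]
    have h3 : ∑ i, A (eF n i) • (X i : MP n) = ∑ i : Fin n, (t ^ ((i : ℕ) + 1) * a i) • X i := by
      apply Finset.sum_congr rfl
      intro i _
      rw [hA]
      dsimp only
      rw [aE_eF, eF_val]
    have h4 : ∑ i : Fin n, (t ^ (n - (i : ℕ)) * b i) • (X i : MP n) =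
        t ^ (n + 1) • ∑ i, A' (eF n i) • (X i : MP n) := by
      rw [Finset.smul_sum]
      apply Finset.sum_congr rfl
      intro i _
      rw [hA']
      dsimp only
      rw [bE'_eF, eF_val, smul_smul]
      congr 1
      have h5 : t ^ (n + 1) = t ^ (n - (i : ℕ)) * t ^ ((i : ℕ) + 1) := by
        rw [← pow_add]; congr 1; have := i.2; omega
      have h6 : t ^ ((i : ℕ) + 1) * (t⁻¹) ^ ((i : ℕ) + 1) = 1 := by
        rw [← mul_pow, mul_inv_cancel₀ ht0, one_pow]
      rw [h5]
      linear_combination (- t ^ (n - (i : ℕ)) * b i) * h6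
    rw [h3]
    rw [h4] at hx
    have h7 : JS (∑ i : Fin n, (t ^ ((i : ℕ) + 1) * a i) • (X i : MP n))
        (t ^ (n + 1) • ∑ i, A' (eF n i) • (X i : MP n)) ≤
        JS (∑ i : Fin n, (t ^ ((i : ℕ) + 1) * a i) • (X i : MP n))
        (∑ i, A' (eF n i) • (X i : MP n)) := by
      change Ideal.span _ ≤ Ideal.span _
      rw [Ideal.span_le]
      rintro y (hy | rfl | rfl)
      · exact Ideal.subset_span (Or.inl hy)
      · exact Ideal.subset_span (Or.inr (Or.inl rfl))
      · rw [smul_pow, smul_eq_C_mul]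
        exact Ideal.mul_mem_left _ _ (Ideal.subset_span (Or.inr (Or.inr rfl)))
    exact h7 hx
  · have h8 : (Matrix.of fun (U V : Good n s) =>
        ((t ^ (cut (blk (U.1.map (eF n))) (U.1.map (eF n))))⁻¹ •
      LF (fun V => FF (blk (U.1.map (eF n))) A A' (V.map (eF n)))) (mon V.1)) =
        (Matrix.of fun (U V : Good n s) => Mt (aE n a) (bE' n b) (U.1.map (eF n))
          (V.1.map (eF n)) t) := by
      ext U V
      rw [Matrix.of_apply, Matrix.of_apply, LinearMap.smul_apply, LF_mon, Mt, smul_eq_mul]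
      have hfacts := blk_facts _ _ (good_hgt U.2).1 (good_hgt U.2).2
      split_ifs with hB
      · rw [FF_scale _ _ _ ht0 _ hB, ← mul_assoc]
        congr 1
        have hle : cut (blk (U.1.map (eF n))) (U.1.map (eF n)) ≤
            cut (blk (U.1.map (eF n))) (V.1.map (eF n)) := by
          by_cases hUV : V.1.map (eF n) = U.1.map (eF n)
          · rw [hUV]
          · exact (cut_lt _ _ _ hfacts.1 hB hfacts.2 hUV).le
        obtain ⟨d, hd⟩ := Nat.exists_eq_add_of_le hle
        rw [hd, Nat.add_sub_cancel_left, pow_add, ← mul_assoc, inv_mul_cancel₀ (pow_ne_zero _ ht0),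
          one_mul]
      · rw [FF, if_neg hB, mul_zero]
    rw [h8]
    exact ht1

end Pool.Agent.Helper58.Quad
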