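import Mathlib
import Pool.Agent.Helper58.Quad.SymLower

set_option autoImplicit false

namespace Pool.Agent.Helper58.Quad

open Module Finset MvPolynomial Filter Topology

variable {n : ℕ}

theorem mem_JS {l₁ l₂ x : MP n} : x ∈ JS l₁ l₂ ↔
    ∃ (p : Fin n → MP n) (u v : MP n), x = ∑ i, p i * X i ^ 2 + (u * l₁ ^ 2 + v * l₂ ^ 2) := by
  change x ∈ Ideal.span _ ↔ _
  rw [Ideal.span_union, Submodule.mem_sup]
  constructor
  · rintro ⟨y, hy, z, hz, rfl⟩
    rw [Ideal.mem_span_range_iff_exists_fun] at hy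
    obtain ⟨p, rfl⟩ := hy
    rw [Ideal.mem_span_pair] at hz
    obtain ⟨u, v, rfl⟩ := hz
    exact ⟨p, u, v, rfl⟩
  · rintro ⟨p, u, v, rfl⟩
    exact ⟨_, Ideal.mem_span_range_iff_exists_fun.2 ⟨p, rfl⟩, _,
      Ideal.mem_span_pair.2 ⟨u, v, rfl⟩, rfl⟩

/-- projection to degree `s` -/
noncomputable def prS (n s : ℕ) : MP n →ₗ[ℂ] homogeneousSubmodule (Fin n) ℂ s :=
  LinearMap.codRestrict _ (homogeneousComponent s) (fun p => homogeneousComponent_mem s p)

theorem prS_coe (s : ℕ) (p : MP n) : ((prS n s p : homogeneousSubmodule (Fin n) ℂ s) : MP n) =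
    homogeneousComponent s p := rfl

/-- fixed part -/
noncomputable def Ph0 (n s : ℕ) :
    ((Fin n → MP n) × MP n × MP n) →ₗ[ℂ] homogeneousSubmodule (Fin n) ℂ s :=
  prS n s ∘ₗ (∑ i, (LinearMap.mulRight ℂ (X i ^ 2 : MP n)) ∘ₗ
    (LinearMap.proj i : (Fin n → MP n) →ₗ[ℂ] MP n)) ∘ₗ LinearMap.fst ℂ _ _

/-- variable part -/
noncomputable def Ph1 (s : ℕ) (q₁ q₂ : MP n) :
    ((Fin n → MP n) × MP n × MP n) →ₗ[ℂ] homogeneousSubmodule (Fin n) ℂ s :=
  prS n s ∘ₗ ((LinearMap.mulRight ℂ q₁).coprod (LinearMap.mulRight ℂ q₂)) ∘ₗ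
    LinearMap.snd ℂ (Fin n → MP n) (MP n × MP n)

theorem Ph0_apply (s : ℕ) (w : (Fin n → MP n) × MP n × MP n) :
    Ph0 n s w = prS n s (∑ i, w.1 i * X i ^ 2) := by
  rw [Ph0, LinearMap.comp_apply, LinearMap.comp_apply, LinearMap.sum_apply]
  rfl

theorem Ph1_apply (s : ℕ) (q₁ q₂ : MP n) (w : (Fin n → MP n) × MP n × MP n) :
    Ph1 s q₁ q₂ w = prS n s (w.2.1 * q₁ + w.2.2 * q₂) := rfl

attribute [local instance] MvPolynomial.gradedAlgebra

theorem JS_homog {l₁ l₂ : MP n} (h₁ : l₁ ∈ homogeneousSubmodule (Fin n) ℂ 1)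
    (h₂ : l₂ ∈ homogeneousSubmodule (Fin n) ℂ 1) :
    (Ideal.span (Set.range (fun i : Fin n => (MvPolynomial.X i : MvPolynomial (Fin n) ℂ) ^ 2)
                      ∪ {l₁ ^ 2, l₂ ^ 2})).IsHomogeneous (homogeneousSubmodule (Fin n) ℂ) := by
  apply Ideal.homogeneous_span
  rintro x (⟨i, rfl⟩ | rfl | rfl)
  · exact ⟨2, (isHomogeneous_X_pow i 2)⟩
  · exact ⟨1 * 2, IsHomogeneous.pow h₁ 2⟩
  · exact ⟨1 * 2, IsHomogeneous.pow h₂ 2⟩

theorem range_Ph {s : ℕ} {l₁ l₂ : MP n} (h₁ : l₁ ∈ homogeneousSubmodule (Fin n) ℂ 1)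
    (h₂ : l₂ ∈ homogeneousSubmodule (Fin n) ℂ 1) :
    LinearMap.range (Ph0 n s + Ph1 s (l₁ ^ 2) (l₂ ^ 2)) =
      Submodule.comap (homogeneousSubmodule (Fin n) ℂ s).subtype (JS l₁ l₂) := by
  ext x
  rw [LinearMap.mem_range, Submodule.mem_comap]
  constructor
  · rintro ⟨w, rfl⟩
    rw [LinearMap.add_apply, Ph0_apply, Ph1_apply, ← map_add]
    change homogeneousComponent s _ ∈ _
    apply homogeneousComponent_mem_of_mem (JS_homog h₁ h₂)
    exact mem_JS.2 ⟨w.1, w.2.1, w.2.2, rfl⟩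
  · intro hx
    obtain ⟨p, u, v, h⟩ := mem_JS.1 hx
    refine ⟨(p, u, v), ?_⟩
    rw [LinearMap.add_apply, Ph0_apply, Ph1_apply, ← map_add]
    apply Subtype.ext
    rw [prS_coe]
    dsimp only
    rw [← h]
    exact homogeneousComponent_eq_self x.2

theorem Qf_add {s : ℕ} {l₁ l₂ : MP n} (h₁ : l₁ ∈ homogeneousSubmodule (Fin n) ℂ 1)
    (h₂ : l₂ ∈ homogeneousSubmodule (Fin n) ℂ 1) :
    Qf s l₁ l₂ + finrank ℂ (LinearMap.range (Ph0 n s + Ph1 s (l₁ ^ 2) (l₂ ^ 2))) =
      finrank ℂ (homogeneousSubmodule (Fin n) ℂ s) := by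
  rw [range_Ph h₁ h₂, Qf]
  exact Submodule.finrank_quotient_add_finrank _

/-- coefficients of the square of a polynomial family -/
noncomputable def sqc (N : ℕ) (m : ℕ → MP n) (k : ℕ) : MP n :=
  ∑ i ∈ range N, ∑ j ∈ range N, if i + j = k then m i * m j else 0

theorem sqc_sum (N : ℕ) (m : ℕ → MP n) (t : ℂ) :
    (∑ k ∈ range N, t ^ k • m k) ^ 2 = ∑ k ∈ range (2 * N), t ^ k • sqc N m k := by
  rw [pow_two, Finset.sum_mul_sum]
  simp only [sqc, Finset.smul_sum]
  rw [Finset.sum_comm (s := range (2 * N))]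
  apply Finset.sum_congr rfl
  intro i hi
  rw [Finset.sum_comm (s := range (2 * N))]
  apply Finset.sum_congr rfl
  intro j hj
  rw [Finset.mem_range] at hi hj
  rw [Finset.sum_eq_single (i + j)]
  · rw [if_pos rfl, smul_mul_smul_comm, pow_add]
  · intro k _ hk
    rw [if_neg (fun h => hk h.symm), smul_zero]
  · intro h
    exfalso
    apply h
    rw [Finset.mem_range]
    omega

theorem Ph1_sum (s N : ℕ) (f g : ℕ → MP n) (t : ℂ) :
    Ph1 s (∑ k ∈ range N, t ^ k • f k) (∑ k ∈ range N, t ^ k • g k)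
      = ∑ k ∈ range N, t ^ k • Ph1 s (f k) (g k) := by
  apply LinearMap.ext
  intro p
  rw [Ph1_apply, Finset.mul_sum, Finset.mul_sum, ← Finset.sum_add_distrib, map_sum,
    LinearMap.sum_apply]
  apply Finset.sum_congr rfl
  intro k _
  rw [LinearMap.smul_apply, Ph1_apply, mul_smul_comm, mul_smul_comm, ← smul_add, map_smul]

theorem semiS (s N a : ℕ) (m m' : ℕ → MP n) (hm : ∀ k, m k ∈ homogeneousSubmodule (Fin n) ℂ 1)
    (hm' : ∀ k, m' k ∈ homogeneousSubmodule (Fin n) ℂ 1) (t₀ : ℂ)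
    (h : Qf s (∑ k ∈ range N, t₀ ^ k • m k) (∑ k ∈ range N, t₀ ^ k • m' k) < a) :
    {t : ℂ | a ≤ Qf s (∑ k ∈ range N, t ^ k • m k) (∑ k ∈ range N, t ^ k • m' k)}.Finite := by
  have hlin : ∀ t : ℂ, (∑ k ∈ range N, t ^ k • m k) ∈ homogeneousSubmodule (Fin n) ℂ 1 :=
    fun t => Submodule.sum_mem _ (fun k _ => Submodule.smul_mem _ _ (hm k))
  have hlin' : ∀ t : ℂ, (∑ k ∈ range N, t ^ k • m' k) ∈ homogeneousSubmodule (Fin n) ℂ 1 :=
    fun t => Submodule.sum_mem _ (fun k _ => Submodule.smul_mem _ _ (hm' k))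
  have hQ : ∀ t : ℂ, _ := fun t => Qf_add (s := s) (hlin t) (hlin' t)
  set D := finrank ℂ (homogeneousSubmodule (Fin n) ℂ s) with hD
  rcases Nat.lt_or_ge D a with hDa | hDa
  · convert Set.finite_empty
    ext t
    simp only [Set.mem_ofPred_eq, Set.mem_empty_iff_false, iff_false, not_le]
    have := hQ t
    omega
  · let Ψ : ℕ → (((Fin n → MP n) × MP n × MP n) →ₗ[ℂ] homogeneousSubmodule (Fin n) ℂ s) :=
      fun k => Ph1 s (sqc N m k) (sqc N m' k) + if k = 0 then Ph0 n s else 0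
    have hΨ : ∀ t : ℂ, Ph0 n s + Ph1 s ((∑ k ∈ range N, t ^ k • m k) ^ 2)
        ((∑ k ∈ range N, t ^ k • m' k) ^ 2) = ∑ k ∈ range (2 * N + 1), t ^ k • Ψ k := by
      intro t
      have h1 : ∀ m : ℕ → MP n, (∑ k ∈ range N, t ^ k • m k) ^ 2 =
          ∑ k ∈ range (2 * N + 1), t ^ k • sqc N m k := by
        intro m
        rw [sqc_sum, Finset.sum_range_succ]
        have h2 : sqc N m (2 * N) = 0 := by
          rw [sqc]
          apply Finset.sum_eq_zero
          intro i hi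
          apply Finset.sum_eq_zero
          intro j hj
          rw [Finset.mem_range] at hi hj
          rw [if_neg (by omega)]
        rw [h2, smul_zero, add_zero]
      rw [h1, h1, Ph1_sum]
      simp only [Ψ, smul_add, Finset.sum_add_distrib]
      rw [add_comm]
      congr 1
      rw [Finset.sum_eq_single 0]
      · simp
      · intro k _ hk
        rw [if_neg hk, smul_zero]
      · intro h
        exact absurd (Finset.mem_range.2 (Nat.succ_pos _)) h
    have hfin := finite_setOf_finrank_range_le (2 * N + 1) Ψ t₀ (D - a) (by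
      rw [← hΨ t₀]
      have := hQ t₀
      omega)
    refine hfin.subset ?_
    intro t ht
    have ht' : a ≤ Qf s (∑ k ∈ range N, t ^ k • m k) (∑ k ∈ range N, t ^ k • m' k) := ht
    change finrank ℂ (LinearMap.range (∑ k ∈ range (2 * N + 1), t ^ k • Ψ k)) ≤ D - a
    rw [← hΨ t]
    have := hQ t
    omega

theorem fam_sum (N : ℕ) (e : Fin n → ℕ) (he : ∀ i, e i < N) (a : Fin n → ℂ) (t : ℂ) :
    ∑ i : Fin n, (t ^ e i * a i) • (X i : MP n) =
      ∑ k ∈ range N, t ^ k • (∑ i : Fin n, if e i = k then a i • (X i : MP n) else 0) := by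
  simp only [Finset.smul_sum]
  rw [Finset.sum_comm]
  apply Finset.sum_congr rfl
  intro i _
  rw [Finset.sum_eq_single (e i)]
  · rw [if_pos rfl, smul_smul]
  · intro k _ hk
    rw [if_neg (fun h => hk h.symm), smul_zero]
  · intro h
    exact absurd (Finset.mem_range.2 (he i)) h

theorem X_mem_one (i : Fin n) : (X i : MP n) ∈ homogeneousSubmodule (Fin n) ℂ 1 :=
  isHomogeneous_X _ _

theorem exists_lin {l : MP n} (h : l ∈ homogeneousSubmodule (Fin n) ℂ 1) :
    ∃ α : Fin n → ℂ, l = ∑ i, α i • X i := by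
  rw [homogeneousSubmodule_one_eq_span_X] at h
  obtain ⟨α, hα⟩ := (Submodule.mem_span_range_iff_exists_fun ℂ).1 h
  exact ⟨α, hα.symm⟩

theorem sym_lower (n s : ℕ) {l₁ l₂ : MP n} (h₁ : l₁ ∈ homogeneousSubmodule (Fin n) ℂ 1)
    (h₂ : l₂ ∈ homogeneousSubmodule (Fin n) ℂ 1) : Set.ncard (Good n s) ≤ Qf s l₁ l₂ := by
  classical
  by_contra hcon
  rw [not_le] at hcon
  obtain ⟨α, rfl⟩ := exists_lin h₁
  obtain ⟨β, rfl⟩ := exists_lin h₂
  set a := Set.ncard (Good n s) with ha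
  have hsum : ∀ (γ : Fin n → ℂ) (c : ℂ), ∑ k ∈ range 2, c ^ k •
      (if k = 0 then ∑ i, γ i • (X i : MP n) else ∑ i, (X i : MP n)) =
      ∑ i, (γ i + c) • (X i : MP n) := by
    intro γ c
    simp only [Finset.sum_range_succ, Finset.sum_range_zero, zero_add, pow_zero, one_smul,
      pow_one, if_true, one_ne_zero, if_false, add_smul, Finset.sum_add_distrib, Finset.smul_sum]
  obtain ⟨c, hc1, hc2, hc3⟩ : ∃ c : ℂ, (∀ i, α i + c ≠ 0) ∧ (∀ i, β i + c ≠ 0) ∧
      Qf s (∑ i, (α i + c) • (X i : MP n)) (∑ i, (β i + c) • (X i : MP n)) < a := by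
    have hfin := semiS s 2 a
      (fun k => if k = 0 then ∑ i, α i • (X i : MP n) else ∑ i, (X i : MP n))
      (fun k => if k = 0 then ∑ i, β i • (X i : MP n) else ∑ i, (X i : MP n))
      (by
        intro k
        split_ifs
        · exact h₁
        · exact Submodule.sum_mem _ (fun i _ => X_mem_one i))
      (by
        intro k
        split_ifs
        · exact h₂
        · exact Submodule.sum_mem _ (fun i _ => X_mem_one i)) 0 (by
          rw [hsum, hsum]
          simpa using hcon)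
    have hall := (hfin.union (Set.finite_range (fun i => - α i))).union
      (Set.finite_range (fun i => - β i))
    obtain ⟨c, hc⟩ := hall.exists_notMem
    rw [Set.mem_union, Set.mem_union, not_or, not_or] at hc
    refine ⟨c, ?_, ?_, ?_⟩
    · intro i hi
      exact hc.1.2 ⟨i, by dsimp only; linear_combination -hi⟩
    · intro i hi
      exact hc.2 ⟨i, by dsimp only; linear_combination -hi⟩
    · have h3 := hc.1.1
      rw [Set.mem_ofPred_eq, hsum, hsum, not_le] at h3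
      exact h3
  have hsp := special_lowerS (fun i => α i + c) (fun i => β i + c) hc1 hc2 s
  have hf1 : ∀ t : ℂ, _ := fun t => fam_sum (n + 1) (fun i : Fin n => (i : ℕ) + 1)
    (fun i => by have := i.2; omega) (fun i => α i + c) t
  have hf2 : ∀ t : ℂ, _ := fun t => fam_sum (n + 1) (fun i : Fin n => n - (i : ℕ))
    (fun i => by have := i.2; omega) (fun i => β i + c) t
  have hfin := semiS s (n + 1) a
      (fun k => ∑ i : Fin n, if (i : ℕ) + 1 = k then (α i + c) • (X i : MP n) else 0)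
      (fun k => ∑ i : Fin n, if n - (i : ℕ) = k then (β i + c) • (X i : MP n) else 0)
      (by
        intro k
        apply Submodule.sum_mem
        intro i _
        split_ifs
        · exact Submodule.smul_mem _ _ (X_mem_one i)
        · exact Submodule.zero_mem _)
      (by
        intro k
        apply Submodule.sum_mem
        intro i _
        split_ifs
        · exact Submodule.smul_mem _ _ (X_mem_one i)
        · exact Submodule.zero_mem _) 1 (by
          rw [← hf1, ← hf2]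
          simpa using hc3)
  have hmem : insert (0 : ℂ) {t : ℂ | a ≤ Qf s
      (∑ k ∈ range (n + 1), t ^ k • ∑ i : Fin n, if (i : ℕ) + 1 = k then
        (α i + c) • (X i : MP n) else 0)
      (∑ k ∈ range (n + 1), t ^ k • ∑ i : Fin n, if n - (i : ℕ) = k then
        (β i + c) • (X i : MP n) else 0)} ∈ 𝓝 (0 : ℂ) := by
    rw [insert_mem_nhds_iff]
    filter_upwards [hsp] with t ht
    rw [← hf1, ← hf2]
    exact ht
  exact (infinite_of_mem_nhds (0 : ℂ) hmem) (hfin.insert 0)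

end Pool.Agent.Helper58.Quad
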