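import Mathlib
import Pool.Agent.Helper58.Quad.Count
import Pool.Agent.Helper58.Quad.SymLower2
import Pool.Agent.Helper58.Quad.ExtLower2

set_option autoImplicit false

namespace Pool.Agent.Helper58.Quad

open Module Finset MvPolynomial

/-- Semicontinuity of the rank in a polynomial family of linear maps, several parameters. -/
theorem exists_poly_rank {σ V W : Type*} [AddCommGroup V] [Module ℂ V] [FiniteDimensional ℂ V]
    [AddCommGroup W] [Module ℂ W] (T : (σ → ℂ) → (W →ₗ[ℂ] V))
    (hT : ∀ (w : W) (φ : V →ₗ[ℂ] ℂ), ∃ P : MvPolynomial σ ℂ, ∀ c, eval c P = φ (T c w))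
    (c₀ : σ → ℂ) :
    ∃ Q : MvPolynomial σ ℂ, eval c₀ Q ≠ 0 ∧ ∀ c, eval c Q ≠ 0 →
      finrank ℂ (LinearMap.range (T c₀)) ≤ finrank ℂ (LinearMap.range (T c)) := by
  classical
  set r := finrank ℂ (LinearMap.range (T c₀)) with hr
  let b := Module.finBasis ℂ (LinearMap.range (T c₀))
  let y : Fin r → V := fun i => (b i : V)
  have hy : LinearIndependent ℂ y :=
    b.linearIndependent.map' (Submodule.subtype _) (Submodule.ker_subtype _)
  have hw : ∀ i, ∃ w, T c₀ w = y i := fun i => (b i).2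
  choose w hw using hw
  obtain ⟨g, hg⟩ : ∃ g : V →ₗ[ℂ] (Fin r → ℂ), ∀ i, g (y i) = Pi.single i 1 := by
    have hinj : LinearMap.ker (Fintype.linearCombination ℂ y) = ⊥ := by
      rw [LinearMap.ker_eq_bot']
      intro c hc
      rw [Fintype.linearCombination_apply] at hc
      funext i
      exact (Fintype.linearIndependent_iff.1 hy) c hc i
    obtain ⟨g, hg⟩ := LinearMap.exists_leftInverse_of_injective _ hinj
    refine ⟨g, fun i => ?_⟩
    have := LinearMap.congr_fun hg (Pi.single i 1)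
    simpa [Fintype.linearCombination_apply_single] using this
  have hP : ∀ i j : Fin r, ∃ P : MvPolynomial σ ℂ, ∀ c, eval c P = g (T c (w j)) i :=
    fun i j => hT (w j) (LinearMap.proj i ∘ₗ g)
  choose P hP using hP
  let M : Matrix (Fin r) (Fin r) (MvPolynomial σ ℂ) := Matrix.of fun i j => P i j
  have hM : ∀ c, eval c M.det = (Matrix.of fun i j => g (T c (w j)) i).det := by
    intro c
    rw [RingHom.map_det (eval c) M]
    congr 1
    ext i j
    simp only [RingHom.mapMatrix_apply, Matrix.map_apply, Matrix.of_apply, M]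
    exact hP i j c
  refine ⟨M.det, ?_, ?_⟩
  · rw [hM]
    have h2 : (Matrix.of fun i j => g (T c₀ (w j)) i) = (1 : Matrix (Fin r) (Fin r) ℂ) := by
      ext i j
      rw [Matrix.of_apply, hw, hg, Matrix.one_apply, Pi.single_apply]
    rw [h2, Matrix.det_one]
    exact one_ne_zero
  · intro c hne
    rw [hM c] at hne
    have hli : LinearIndependent ℂ (fun j => T c (w j)) := by
      have h1 : LinearIndependent ℂ (fun j => g (T c (w j))) := by
        have := Matrix.linearIndependent_cols_of_det_ne_zero hne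
        exact this
      exact h1.of_comp g
    have hli' : LinearIndependent ℂ
        (fun j => (⟨T c (w j), LinearMap.mem_range_self _ _⟩ : LinearMap.range (T c))) := by
      apply LinearIndependent.of_comp (LinearMap.range (T c)).subtype
      exact hli
    have := hli'.fintype_card_le_finrank
    rw [Fintype.card_fin] at this
    exact this

/-- the index set of the coefficients of a quadratic form -/
abbrev Prs (n : ℕ) := {p : Fin n × Fin n // p.1 < p.2}

/-- quadratic form with given coefficients -/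
noncomputable def quadf {n : ℕ} (c : Prs n → ℂ) : EA n :=
  ∑ p, c p • (ExteriorAlgebra.ι ℂ (Pi.single p.1.1 (1 : ℂ)) *
    ExteriorAlgebra.ι ℂ (Pi.single p.1.2 (1 : ℂ)))

theorem quadf_mem {n : ℕ} (c : Prs n → ℂ) : quadf c ∈ gr n 2 :=
  Submodule.sum_mem _ (fun p _ => Submodule.smul_mem _ _ (eι_mul_eι_mem p.1.1 p.1.2))

theorem exists_quadf {n : ℕ} {f : EA n} (hf : f ∈ gr n 2) : ∃ c : Prs n → ℂ, f = quadf c := by
  classical
  have key : gr n 2 ≤ Submodule.span ℂ (Set.range fun p : Prs n => eι p.1.1 * eι p.1.2) := by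
    rw [gr_eq_Sp, Sp, Submodule.span_le]
    rintro _ ⟨U, hU, rfl⟩
    obtain ⟨i, j, hij, rfl⟩ := Finset.card_eq_two.1 hU
    have main : ∀ i j : Fin n, i < j → bE n {i, j} ∈
        Submodule.span ℂ (Set.range fun p : Prs n => eι p.1.1 * eι p.1.2) := by
      intro i j hij
      have hd : Disjoint ({i} : Finset (Fin n)) {j} := by
        rw [Finset.disjoint_singleton]; exact hij.ne
      obtain ⟨ε, hε, h⟩ := bE_mul_of_disjoint hd
      rw [bE_singleton, bE_singleton] at h
      have h2 : bE n {i, j} = ε⁻¹ • (eι i * eι j) := by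
        rw [h, smul_smul, inv_mul_cancel₀ hε, one_smul]
        rfl
      rw [h2]
      exact Submodule.smul_mem _ _ (Submodule.subset_span ⟨⟨(i, j), hij⟩, rfl⟩)
    rcases lt_or_gt_of_ne hij with h | h
    · exact main i j h
    · rw [Finset.pair_comm]
      exact main j i h
  obtain ⟨c, hc⟩ := (Submodule.mem_span_range_iff_exists_fun ℂ).1 (key hf)
  exact ⟨c, hc.symm⟩

theorem ext_generic (n s : ℕ) :
    ∃ Q : MvPolynomial (Fin 2 × Prs n) ℂ, Q ≠ 0 ∧ ∀ c, eval c Q ≠ 0 →
      finrank ℂ (↥(gr n s) ⧸ Submodule.comap (gr n s).subtype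
        (JJ (quadf fun p => c (0, p)) (quadf fun p => c (1, p)))) = Set.ncard (Good n s) := by
  classical
  obtain ⟨f, hf, g, hg, hfg⟩ := ext_upper n s
  obtain ⟨a, rfl⟩ := exists_quadf hf
  obtain ⟨b, rfl⟩ := exists_quadf hg
  have hlin : ∀ (c : Fin 2 × Prs n → ℂ) (x : EA n) (φ : EA n →ₗ[ℂ] ℂ) (i : Fin 2),
      φ (PP n s (quadf (fun p => c (i, p)) * x)) =
        ∑ p : Prs n, c (i, p) * φ (PP n s ((eι p.1.1 * eι p.1.2) * x)) := by
    intro c x φ i
    rw [quadf, Finset.sum_mul, map_sum, map_sum]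
    apply Finset.sum_congr rfl
    intro p _
    rw [smul_mul_assoc, map_smul, map_smul, smul_eq_mul]
    rfl
  obtain ⟨Q, hQ0, hQ⟩ := exists_poly_rank
    (T := fun c : Fin 2 × Prs n → ℂ => Phi s (quadf fun p => c (0, p)) (quadf fun p => c (1, p)))
    (by
      intro w φ
      refine ⟨(∑ p : Prs n, C (φ (PP n s ((eι p.1.1 * eι p.1.2) * w.1))) * X (0, p)) +
        ∑ p : Prs n, C (φ (PP n s ((eι p.1.1 * eι p.1.2) * w.2))) * X (1, p), ?_⟩
      intro c
      rw [Phi_apply, map_add (PP n s), map_add φ, hlin c w.1 φ 0, hlin c w.2 φ 1,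
        map_add (eval c), map_sum, map_sum]
      congr 1 <;>
      · apply Finset.sum_congr rfl
        intro p _
        rw [map_mul, eval_C, eval_X, mul_comm])
    (fun q => if q.1 = 0 then a q.2 else b q.2)
  refine ⟨Q, fun h => hQ0 (by rw [h, map_zero]), fun c hc => ?_⟩
  have h1 := hQ c hc
  have e0 : (fun p : Prs n => if (0 : Fin 2) = 0 then a p else b p) = a := by
    funext p; simp
  have e1 : (fun p : Prs n => if (1 : Fin 2) = 0 then a p else b p) = b := by
    funext p; simp
  dsimp only at h1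
  rw [e0, e1] at h1
  have h2 := finrank_add_range (s := s) (quadf_mem (fun p => c (0, p)))
    (quadf_mem (fun p => c (1, p)))
  have h3 := finrank_add_range (s := s) (quadf_mem a) (quadf_mem b)
  have h4 := ext_lower n s (quadf_mem (fun p => c (0, p))) (quadf_mem (fun p => c (1, p)))
  have h5 : finrank ℂ (↥(gr n s) ⧸ Submodule.comap (gr n s).subtype
    (JJ (quadf a) (quadf b))) ≤ Set.ncard (Good n s) := hfg
  omega

/-- linear form with given coefficients -/
noncomputable def linf {n : ℕ} (c : Fin n → ℂ) : MP n := ∑ i, c i • X i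

theorem linf_mem {n : ℕ} (c : Fin n → ℂ) : linf c ∈ homogeneousSubmodule (Fin n) ℂ 1 :=
  Submodule.sum_mem _ (fun i _ => Submodule.smul_mem _ _ (X_mem_one i))

theorem linf_sq {n : ℕ} (c : Fin n → ℂ) :
    linf c ^ 2 = ∑ i, ∑ j, (c i * c j) • (X i * X j : MP n) := by
  rw [linf, pow_two, Finset.sum_mul]
  apply Finset.sum_congr rfl
  intro i _
  rw [Finset.mul_sum]
  apply Finset.sum_congr rfl
  intro j _
  rw [smul_mul_assoc, mul_smul_comm, smul_smul]

theorem sym_generic (n s : ℕ) :
    ∃ Q : MvPolynomial (Fin 2 × Fin n) ℂ, Q ≠ 0 ∧ ∀ c, eval c Q ≠ 0 →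
      Qf s (linf fun p => c (0, p)) (linf fun p => c (1, p)) = Set.ncard (Good n s) := by
  classical
  obtain ⟨f, hf, g, hg, hfg⟩ := sym_upper n s
  obtain ⟨a, rfl⟩ := exists_lin hf
  obtain ⟨b, rfl⟩ := exists_lin hg
  have hlin : ∀ (c : Fin 2 × Fin n → ℂ) (x : MP n)
      (φ : homogeneousSubmodule (Fin n) ℂ s →ₗ[ℂ] ℂ) (i : Fin 2),
      φ (prS n s (x * linf (fun p => c (i, p)) ^ 2)) =
        ∑ k : Fin n, ∑ l : Fin n, (c (i, k) * c (i, l)) * φ (prS n s (x * (X k * X l))) := by
    intro c x φ i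
    rw [linf_sq, Finset.mul_sum, map_sum, map_sum]
    apply Finset.sum_congr rfl
    intro k _
    rw [Finset.mul_sum, map_sum, map_sum]
    apply Finset.sum_congr rfl
    intro l _
    rw [mul_smul_comm, map_smul, map_smul, smul_eq_mul]
  obtain ⟨Q, hQ0, hQ⟩ := exists_poly_rank
    (T := fun c : Fin 2 × Fin n → ℂ => Ph0 n s + Ph1 s (linf (fun p => c (0, p)) ^ 2)
      (linf (fun p => c (1, p)) ^ 2))
    (by
      intro w φ
      refine ⟨C (φ (Ph0 n s w)) +
        ((∑ k : Fin n, ∑ l : Fin n, (X (0, k) * X (0, l)) * C (φ (prS n s (w.2.1 * (X k * X l))))) +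
        ∑ k : Fin n, ∑ l : Fin n, (X (1, k) * X (1, l)) * C (φ (prS n s (w.2.2 * (X k * X l))))),
        ?_⟩
      intro c
      rw [LinearMap.add_apply, Ph1_apply, map_add φ, map_add (prS n s), map_add φ,
        hlin c w.2.1 φ 0, hlin c w.2.2 φ 1, map_add (eval c), map_add (eval c), eval_C]
      congr 1
      congr 1 <;>
      · rw [map_sum]
        apply Finset.sum_congr rfl
        intro k _
        rw [map_sum]
        apply Finset.sum_congr rfl
        intro l _
        rw [map_mul, map_mul, eval_C, eval_X, eval_X])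
    (fun q => if q.1 = 0 then a q.2 else b q.2)
  refine ⟨Q, fun h => hQ0 (by rw [h, map_zero]), fun c hc => ?_⟩
  have h1 := hQ c hc
  have e0 : (fun p : Fin n => if (0 : Fin 2) = 0 then a p else b p) = a := by
    funext p; simp
  have e1 : (fun p : Fin n => if (1 : Fin 2) = 0 then a p else b p) = b := by
    funext p; simp
  dsimp only at h1
  rw [e0, e1] at h1
  have h2 := Qf_add (s := s) (linf_mem (fun p => c (0, p))) (linf_mem (fun p => c (1, p)))
  have h3 := Qf_add (s := s) (linf_mem a) (linf_mem b)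
  have h4 := sym_lower n s (linf_mem (fun p => c (0, p))) (linf_mem (fun p => c (1, p)))
  have h5 : Qf s (linf a) (linf b) ≤ Set.ncard (Good n s) := hfg
  omega

theorem good_big {n s : ℕ} (h : n < s) : Set.ncard (Good n s) = 0 := by
  have h1 : Good n s = ∅ := by
    ext U
    simp only [Good, Set.mem_ofPred_eq, Set.mem_empty_iff_false, iff_false]
    rintro ⟨hU, -⟩
    have := Finset.card_le_univ U
    rw [Fintype.card_fin] at this
    omega
  rw [h1, Set.ncard_empty]

theorem isEmpty_card {n s : ℕ} (h : n < s) : IsEmpty {U : Finset (Fin n) // U.card = s} :=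
  ⟨fun U => by
    have := Finset.card_le_univ U.1
    rw [Fintype.card_fin, U.2] at this
    omega⟩

theorem ext_big {n s : ℕ} (h : n < s) (J : Submodule ℂ (EA n)) :
    finrank ℂ (↥(gr n s) ⧸ Submodule.comap (gr n s).subtype J) = 0 := by
  have := isEmpty_card (n := n) h
  have h1 := finrank_quotient_le (gr n s) J (fun U : {U : Finset (Fin n) // U.card = s} => bE n U.1)
    (fun U => by rw [gr_eq_Sp]; exact bE_mem_Sp U.2) (by
      rw [gr_eq_Sp, Sp]
      refine le_trans (Submodule.span_mono ?_) le_sup_right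
      rintro _ ⟨U, hU, rfl⟩
      exact ⟨⟨U, hU⟩, rfl⟩)
  rw [Fintype.card_eq_zero] at h1
  omega

theorem sym_big {n s : ℕ} (h : n < s) (l₁ l₂ : MP n) : Qf s l₁ l₂ = 0 := by
  have := isEmpty_card (n := n) h
  have h1 := finrank_quotient_le (homogeneousSubmodule (Fin n) ℂ s) (JS l₁ l₂)
    (fun U : {U : Finset (Fin n) // U.card = s} => mon U.1)
    (fun U => mon_mem U.1 U.2) (by
      refine (homogeneous_le n s).trans (sup_le_sup ?_ (Submodule.span_mono ?_))
      · intro x hx
        exact Ideal.span_mono Set.subset_union_left hx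
      · rintro _ ⟨U, hU, rfl⟩
        exact ⟨⟨U, hU⟩, rfl⟩)
  rw [Fintype.card_eq_zero] at h1
  rw [Qf]
  omega

/-- all degrees at once -/
theorem ext_generic_all (n : ℕ) :
    ∃ Q : MvPolynomial (Fin 2 × Prs n) ℂ, Q ≠ 0 ∧ ∀ c, eval c Q ≠ 0 → ∀ s,
      finrank ℂ (↥(gr n s) ⧸ Submodule.comap (gr n s).subtype
        (JJ (quadf fun p => c (0, p)) (quadf fun p => c (1, p)))) = Set.ncard (Good n s) := by
  choose Q hQ0 hQ using ext_generic n
  refine ⟨∏ s ∈ range (n + 1), Q s, Finset.prod_ne_zero_iff.2 (fun s _ => hQ0 s), ?_⟩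
  intro c hc s
  rw [map_prod, Finset.prod_ne_zero_iff] at hc
  rcases Nat.lt_or_ge n s with h | h
  · rw [ext_big h, good_big h]
  · exact hQ s c (hc s (Finset.mem_range.2 (by omega)))

theorem sym_generic_all (n : ℕ) :
    ∃ Q : MvPolynomial (Fin 2 × Fin n) ℂ, Q ≠ 0 ∧ ∀ c, eval c Q ≠ 0 → ∀ s,
      Qf s (linf fun p => c (0, p)) (linf fun p => c (1, p)) = Set.ncard (Good n s) := by
  choose Q hQ0 hQ using sym_generic n
  refine ⟨∏ s ∈ range (n + 1), Q s, Finset.prod_ne_zero_iff.2 (fun s _ => hQ0 s), ?_⟩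
  intro c hc s
  rw [map_prod, Finset.prod_ne_zero_iff] at hc
  rcases Nat.lt_or_ge n s with h | h
  · rw [sym_big h, good_big h]
  · exact hQ s c (hc s (Finset.mem_range.2 (by omega)))

theorem good_zero (n : ℕ) : Set.ncard (Good n 0) = 1 := by
  have h1 : Good n 0 = {∅} := by
    ext U
    simp only [Good, Set.mem_ofPred_eq, Set.mem_singleton_iff, Finset.card_eq_zero]
    constructor
    · exact fun h => h.1
    · rintro rfl
      refine ⟨rfl, ?_, ?_⟩ <;>
      · rintro ⟨m, hm, hc⟩
        simp at hc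
  rw [h1, Set.ncard_singleton]

end Pool.Agent.Helper58.Quad
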