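import Mathlib
import Pool.Agent.Helper58.Quad.Generic

set_option autoImplicit false

namespace Pool.Agent.Helper58.Quad

open Module Finset MvPolynomial

theorem finrank_map_eq {V V' : Type*} [AddCommGroup V] [Module ℂ V] [AddCommGroup V'] [Module ℂ V']
    (q : V →ₗ[ℂ] V') (S J : Submodule ℂ V) (h : LinearMap.ker q = J) :
    finrank ℂ (Submodule.map q S) = finrank ℂ (↥S ⧸ Submodule.comap S.subtype J) := by
  subst h
  have h1 : Submodule.map q S = LinearMap.range (q ∘ₗ S.subtype) := by
    rw [LinearMap.range_comp, Submodule.range_subtype]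
  have h2 : Submodule.comap S.subtype (LinearMap.ker q) = LinearMap.ker (q ∘ₗ S.subtype) :=
    (LinearMap.ker_comp _ _).symm
  rw [h1, h2]
  exact (LinearMap.quotKerEquivRange (q ∘ₗ S.subtype)).finrank_eq.symm

variable {n : ℕ}

theorem mem_span_two {f g : EA n} (hf : f ∈ gr n 2) (hg : g ∈ gr n 2) {x : EA n} :
    x ∈ TwoSidedIdeal.span {f, g} ↔ x ∈ JJ f g := by
  constructor
  · intro hx
    rw [mem_JJ hf hg]
    induction hx using TwoSidedIdeal.span_induction with
    | mem x hx =>
      rcases hx with rfl | rfl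
      · exact ⟨1, 0, by rw [mul_one, mul_zero, add_zero]⟩
      · exact ⟨0, 1, by rw [mul_one, mul_zero, zero_add]⟩
    | zero => exact ⟨0, 0, by rw [mul_zero, mul_zero, add_zero]⟩
    | add x y _ _ hx hy =>
      obtain ⟨a, b, rfl⟩ := hx
      obtain ⟨c, d, rfl⟩ := hy
      exact ⟨a + c, b + d, by rw [mul_add, mul_add]; abel⟩
    | neg x _ hx =>
      obtain ⟨a, b, rfl⟩ := hx
      exact ⟨-a, -b, by rw [mul_neg, mul_neg]; abel⟩
    | left_absorb a x _ hx =>
      obtain ⟨c, d, rfl⟩ := hx
      refine ⟨a * c, a * d, ?_⟩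
      rw [mul_add, ← mul_assoc, ← mul_assoc, ← gr_two_comm hf a, ← gr_two_comm hg a, mul_assoc,
        mul_assoc]
    | right_absorb b x _ hx =>
      obtain ⟨c, d, rfl⟩ := hx
      refine ⟨c * b, d * b, ?_⟩
      rw [add_mul, mul_assoc, mul_assoc]
  · intro hx
    rw [mem_JJ hf hg] at hx
    obtain ⟨a, b, rfl⟩ := hx
    exact TwoSidedIdeal.add_mem _
      (TwoSidedIdeal.mul_mem_right _ _ _ (TwoSidedIdeal.subset_span (by simp)))
      (TwoSidedIdeal.mul_mem_right _ _ _ (TwoSidedIdeal.subset_span (by simp)))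

theorem finrank_ext {f g : EA n} (hf : f ∈ gr n 2) (hg : g ∈ gr n 2) (s : ℕ) :
    finrank ℂ (Submodule.map
      (Ideal.Quotient.mkₐ ℂ (TwoSidedIdeal.span {f, g}).asIdeal).toLinearMap (gr n s)) =
    finrank ℂ (↥(gr n s) ⧸ Submodule.comap (gr n s).subtype (JJ f g)) := by
  apply finrank_map_eq
  ext x
  rw [LinearMap.mem_ker, AlgHom.toLinearMap_apply, Ideal.Quotient.mkₐ_eq_mk,
    Ideal.Quotient.eq_zero_iff_mem, TwoSidedIdeal.mem_asIdeal]
  exact mem_span_two hf hg

theorem finrank_sym (l₁ l₂ : MP n) (s : ℕ) :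
    finrank ℂ (Submodule.map
      (Ideal.Quotient.mkₐ ℂ (Ideal.span (Set.range (fun i : Fin n => (X i : MP n) ^ 2)
                      ∪ {l₁ ^ 2, l₂ ^ 2}))).toLinearMap (homogeneousSubmodule (Fin n) ℂ s)) =
    Qf s l₁ l₂ := by
  apply finrank_map_eq
  ext x
  rw [LinearMap.mem_ker, AlgHom.toLinearMap_apply, Ideal.Quotient.mkₐ_eq_mk,
    Ideal.Quotient.eq_zero_iff_mem]
  rfl

/-- the lattice paths of the problem, as sequences of points -/
def PathSet (n s : ℕ) : Set (Fin (n + 3) → ℤ × ℤ) :=
  {P | P 0 = (0, 0) ∧ P (Fin.last (n + 2)) = ((n : ℤ) + 2 - 2 * s, (n : ℤ) + 2) ∧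
    (∀ i : Fin (n + 2), P i.succ = P i.castSucc + (1, 1) ∨ P i.succ = P i.castSucc + (-1, 1)) ∧
    ∀ i, 0 ≤ (P i).1 ∧ (P i).1 ≤ (n : ℤ) + 2 - 2 * s ∧ 0 ≤ (P i).2 ∧ (P i).2 ≤ (n : ℤ) + 2}

/-- the path of a sequence of signs -/
def toPath (n : ℕ) (c : Fin (n + 2) → Bool) : Fin (n + 3) → ℤ × ℤ := fun k =>
  (∑ i ∈ Finset.univ.filter (fun i : Fin (n + 2) => i.val < k.val), (if c i then (1 : ℤ) else -1),
    (k.val : ℤ))

theorem toPath_zero (n : ℕ) (c : Fin (n + 2) → Bool) : toPath n c 0 = (0, 0) := by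
  simp [toPath]

theorem toPath_succ (n : ℕ) (c : Fin (n + 2) → Bool) (i : Fin (n + 2)) :
    toPath n c i.succ = toPath n c i.castSucc + ((if c i then (1 : ℤ) else -1), 1) := by
  have h : (Finset.univ.filter (fun j : Fin (n + 2) => j.val < i.succ.val)) =
      insert i (Finset.univ.filter (fun j : Fin (n + 2) => j.val < i.castSucc.val)) := by
    ext j
    simp only [Finset.mem_filter, Finset.mem_univ, true_and, Finset.mem_insert, Fin.val_succ,
      Fin.val_castSucc, Fin.ext_iff]
    omega
  have h2 : i ∉ Finset.univ.filter (fun j : Fin (n + 2) => j.val < i.castSucc.val) := by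
    simp
  rw [toPath, toPath, h, Finset.sum_insert h2]
  ext
  · simp only [Prod.fst_add]
    ring
  · simp

theorem toPath_last (n : ℕ) (c : Fin (n + 2) → Bool) : toPath n c (Fin.last (n + 2)) =
    (∑ i : Fin (n + 2), (if c i then (1 : ℤ) else -1), (n : ℤ) + 2) := by
  have h : (Finset.univ.filter (fun j : Fin (n + 2) => j.val < (Fin.last (n + 2)).val)) =
      Finset.univ := by
    ext j
    simp
  rw [toPath, h]
  ext <;> simp

theorem toPath_injective (n : ℕ) : Function.Injective (toPath n) := by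
  intro c c' h
  funext i
  have h1 := toPath_succ n c i
  have h2 := toPath_succ n c' i
  rw [h] at h1
  rw [h1] at h2
  have h3 := congrArg Prod.fst h2
  simp only [Prod.fst_add] at h3
  have h4 := add_left_cancel h3
  cases hc : c i <;> cases hc' : c' i <;> simp [hc, hc'] at h4 ⊢

theorem paths_count (n s : ℕ) : Set.ncard (PathSet n s) = Set.ncard (Good n s) := by
  rw [← count, ← Set.ncard_image_of_injective _ (toPath_injective n)]
  congr 1
  ext P
  constructor
  · rintro ⟨h0, hl, hs, hb⟩
    have hP : ∀ k : Fin (n + 3), P k = toPath n (fun i => decide (P i.succ = P i.castSucc + (1, 1))) k := by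
      intro k
      induction k using Fin.induction with
      | zero => rw [h0, toPath_zero]
      | succ i ih =>
        rw [toPath_succ, ← ih]
        rcases hs i with h | h
        · rw [if_pos (by simpa using h)]
          exact h
        · rw [if_neg]
          · exact h
          · intro h'
            rw [decide_eq_true_eq, h] at h'
            have := congrArg Prod.fst (add_left_cancel h')
            simp at this
    have hP' : toPath n (fun i => decide (P i.succ = P i.castSucc + (1, 1))) = P :=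
      funext fun k => (hP k).symm
    refine ⟨_, ⟨?_, ?_⟩, hP'⟩
    · intro k
      have h1 := hb k
      rw [hP k] at h1
      exact ⟨h1.1, h1.2.1⟩
    · have h1 := toPath_last n (fun i => decide (P i.succ = P i.castSucc + (1, 1)))
      rw [hP', hl] at h1
      exact (congrArg Prod.fst h1).symm
  · rintro ⟨c, ⟨h1, h2⟩, rfl⟩
    refine ⟨toPath_zero n c, ?_, ?_, ?_⟩
    · rw [toPath_last, h2]
    · intro i
      rw [toPath_succ]
      cases c i
      · right; rfl
      · left; rfl
    · intro k
      have h3 := h1 k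
      have h4 := k.2
      refine ⟨h3.1, h3.2, ?_, ?_⟩
      · change (0 : ℤ) ≤ (k.val : ℤ)
        omega
      · change (k.val : ℤ) ≤ _
        omega

end Pool.Agent.Helper58.Quad
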